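import Pool.Agent.Lib.MP_fb520c_co.Chk.Run2
import Pool.Agent.Lib.MP_fb520c_co.Dent.ParQ

/-! The quadratic form of one cell in the coordinates of the three samples. -/

set_option autoImplicit false

open Complex ComplexConjugate

noncomputable section

namespace Pool.Agent.Lib.MP_fb520c_co.Chk

open Pool.Agent.Lib.MP_fb520c_co.Dent

/-- `2 ^ 64` times `1` and the coordinates of `b0 - c1`, `P - c2`, `D - c3`;
`u = 2 ^ 64 / (2 h)`, `w = 2 ^ 64 / h ^ 2` -/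
def cellAtoms (c1 c2 c3 : C) (u w : ℕ) : List (List (ℕ × ℤ)) :=
  [[(0, .ofNat 18446744073709551616)],
   [(3, .ofNat 18446744073709551616), (0, iopp c1.x)],
   [(4, .ofNat 18446744073709551616), (0, iopp c1.y)],
   [(5, .ofNat u), (1, ineg u), (0, iopp c2.x)],
   [(6, .ofNat u), (2, ineg u), (0, iopp c2.y)],
   [(5, .ofNat w), (3, ineg (Nat.mul 2 w)), (1, .ofNat w), (0, iopp c3.x)],
   [(6, .ofNat w), (4, ineg (Nat.mul 2 w)), (2, .ofNat w), (0, iopp c3.y)]]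

/-- multiples of the seven variables -/
def unitAtoms (s : ℕ) : List (List (ℕ × ℤ)) :=
  [[(0, .ofNat s)], [(1, .ofNat s)], [(2, .ofNat s)], [(3, .ofNat s)], [(4, .ofNat s)],
    [(5, .ofNat s)], [(6, .ofNat s)]]

/-- minus `2 ^ 257` times (the polynomial at the affine parts plus the penalty) -/
def cellBlock (d : RD) (q : QC) (w : Wt) (u v : ℕ) : Block :=
  ⟨cellAtoms d.c1 d.c2 d.c3 u v, cellTerms q w d.T d.Z d.W⟩

/-- the seven local variables -/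
def locv (L : Loc) : List ℝ :=
  [1, L.bm.re, L.bm.im / √3, L.b0.re, L.b0.im / √3, L.bp.re, L.bp.im / √3]

/-- `s ^ 2 G` dominates the form of the cell -/
def domOK (d : RD) (q : QC) (w : Wt) (u v H s : ℕ) (G : List (List ℤ × List ℤ)) : Bool :=
  Bool.rec false (Bool.rec false
    (psdOK H 7 1 1 [⟨unitAtoms s, G⟩, cellBlock d q w u v] []) (Nat.blt 0 s)) w.ok

lemma bil_scale (s : ℝ) (a : List ℝ) : ∀ G : List (List ℤ × List ℤ),
    bil G (a.map (s * ·)) = s ^ 2 * bil G a := by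
  have k : ∀ (u : List ℤ) (a : List ℝ), dot u (a.map (s * ·)) = s * dot u a := by
    intro u
    induction u with
    | nil => intro a; simp [dot_nil]
    | cons c u ih =>
      intro a
      cases a with
      | nil => simp [dot_nil']
      | cons v a => rw [List.map_cons, dot_cons, dot_cons, ih]; ring
  intro G
  induction G with
  | nil => simp [bil_nil]
  | cons p G ih =>
    obtain ⟨u, v⟩ := p
    rw [bil_cons, bil_cons, ih, k, k]; ring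

lemma coord_le {z : ℂ} (h : ‖z‖ ≤ 1) : |z.re| ≤ 1 ∧ |z.im / √3| ≤ 1 := by
  refine ⟨(Complex.abs_re_le_norm z).trans h, ?_⟩
  have : 1 ≤ √3 := Real.one_le_sqrt.2 (by norm_num)
  rw [abs_div, abs_of_pos (by positivity : 0 < √3)]
  exact (div_le_self (abs_nonneg _) this).trans ((Complex.abs_im_le_norm z).trans h)

theorem dom_sound {d : RD} {q : QC} {w : Wt} {u v H s : ℕ} {G : List (List ℤ × List ℤ)}
    (h : domOK d q w u v H s G = true) {L : Loc} (hd : d.OK L) (hu : u * (2 * L.h) = sc)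
    (hv : v * L.h ^ 2 = sc) (bm : ‖L.bm‖ ≤ 1) (b0 : ‖L.b0‖ ≤ 1) (bp : ‖L.bp‖ ≤ 1)
    (hq : 0 ≤ q.Qv (L.Th - d.Tc / sc) L.Zx L.Zy L.Wx L.Wy) : 0 ≤ bil G (locv L) := by
  obtain ⟨h, hw⟩ := rec_tt h
  obtain ⟨h, hs⟩ := rec_tt h
  have s0 : (0 : ℝ) < s := Nat.cast_pos.2 (Nat.blt_eq.mp hs)
  obtain ⟨vT, vZ, vW⟩ := hd.valid
  have k1 := cellTerms_sound hw vT vZ vW hq sc
  have k2 := psd_sound one_pos h (x := fun i => (locv L).getD i 0) rfl fun i => by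
    rcases i with _ | _ | _ | _ | _ | _ | _ | i
    · simp [locv]
    · exact (coord_le bm).1
    · exact (coord_le bm).2
    · exact (coord_le b0).1
    · exact (coord_le b0).2
    · exact (coord_le bp).1
    · exact (coord_le bp).2
    · simp [locv]
  have h0 := hd.h0
  have c0 := sc_pos.ne'
  have s1 : √3 ≠ (0 : ℝ) := by positivity
  have eu : (u : ℝ) = sc / (2 * L.h) := by rw [← hu]; field_simp
  have ev : (v : ℝ) = sc / L.h ^ 2 := by rw [← hv]; field_simp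
  have eP : L.P = ((1 / (2 * L.h) : ℝ) : ℂ) * (L.bp - L.bm) := by rw [Loc.P]; push_cast; ring
  have eD : L.D = ((1 / L.h ^ 2 : ℝ) : ℂ) * (L.bp - 2 * L.b0 + L.bm) := by
    rw [Loc.D]; push_cast; ring
  have e1 : (unitAtoms s).map (linEv fun i => (locv L).getD i 0) = (locv L).map ((s : ℝ) * ·) := by
    simp [unitAtoms, linEv, locv]
  have e2 : (cellAtoms d.c1 d.c2 d.c3 u v).map (linEv fun i => (locv L).getD i 0) =
      [sc, sc * (L.b0 - d.c1.val).re, sc * ((L.b0 - d.c1.val).im / √3), sc * (L.P - d.c2.val).re,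
        sc * ((L.P - d.c2.val).im / √3), sc * (L.D - d.c3.val).re,
        sc * ((L.D - d.c3.val).im / √3)] := by
    simp only [cellAtoms, linEv, locv, List.map_cons, List.map_nil, List.sum_cons, List.sum_nil,
      List.getD_cons_zero, List.getD_cons_succ, Int.ofNat_eq_natCast, Int.cast_natCast,
      iopp_eq, ineg_eq, nmul, Int.cast_neg, Nat.cast_mul, Int.cast_mul, Nat.cast_ofNat,
      Int.cast_ofNat, eu, ev, eP, eD, C.val, Complex.sub_re, Complex.sub_im, Complex.add_re,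
      Complex.add_im, Complex.mul_re, Complex.mul_im, Complex.ofReal_re, Complex.ofReal_im,
      Complex.re_ofNat, Complex.im_ofNat, List.cons.injEq, and_true]
    refine ⟨by norm_num [sc], ?_, ?_, ?_, ?_, ?_, ?_⟩
    · rw [show (18446744073709551616 : ℝ) = sc by norm_num [sc]]; field_simp; ring
    · rw [show (18446744073709551616 : ℝ) = sc by norm_num [sc]]; field_simp; ring
    all_goals field_simp; ring
  simp only [List.map_cons, List.map_nil, List.sum_cons, List.sum_nil, Block.val, cellBlock, e1, e2,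
    bil_scale, add_zero] at k2
  exact nonneg_of_mul_nonneg_right (by linarith) (pow_pos s0 2)

/-- the data of a run from the rational parameters of the cell -/
def RD.of (p : ParQ) (g : Dirs) (c1 c2 c3 : C) (M1 M2 M3 : ℕ) (Tc : ℤ) : RD where
  c1 := c1
  c2 := c2
  c3 := c3
  M1 := M1
  M2 := M2
  M3 := M3
  Be := upQ p.be
  Pb := upQ p.pbar
  Db := upQ p.Dbar
  Rb := upQ p.rb
  h4 := ipos (ofQ (g.h ^ 2 / 4))
  U1 := .ofQ ((g.xp - g.xm) / (2 * g.h)) ((g.yp - g.ym) / (2 * g.h))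
  U2 := .ofQ ((g.xp - 2 * g.x0 + g.xm) / g.h ^ 2) ((g.yp - 2 * g.y0 + g.ym) / g.h ^ 2)
  Ua := .ofQ ((g.xp + g.xm) / 2) ((g.yp + g.ym) / 2)
  ka := .ofQ (g.so / (2 * g.h)) 0
  Tc := Tc
  sT := nmax (upQ (p.Thi - Tc / 2 ^ 64)) (upQ (Tc / 2 ^ 64 - p.Tlo))
  BZ := upQ (p.c * p.Thi * (17321 / 10000))
  BW := upQ p.Wbar

/-- `2 ^ 64 / (2 h)` -/
def invH1 (g : Dirs) : ℕ := ipos (ofQ (1 / (2 * g.h)))

/-- `2 ^ 64 / h ^ 2` -/
def invH2 (g : Dirs) : ℕ := ipos (ofQ (1 / g.h ^ 2))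

/-- the scale is dyadic and the parameters have the right sign -/
def ScaleOK (p : ParQ) (g : Dirs) : Prop :=
  g.h ^ 2 / 4 * 2 ^ 64 = ipos (ofQ (g.h ^ 2 / 4)) ∧ invH1 g * (2 * g.h) = 2 ^ 64 ∧
    invH2 g * g.h ^ 2 = 2 ^ 64 ∧ 0 ≤ p.c ∧ p.be ≤ 1 ∧ 1 + p.be ^ 2 / 2 ≤ p.rb ∧ 0 < p.wr

instance (p : ParQ) (g : Dirs) : Decidable (ScaleOK p g) := by unfold ScaleOK; infer_instance

theorem RD.of_ok {p : ParQ} {g : Dirs} (hs : ScaleOK p g) {b : ℂ → ℂ}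
    (o : Out p.par (g.loc b)) (b0 : ‖b g.u0‖ ≤ p.be) {c1 c2 c3 : C} {M1 M2 M3 : ℕ} (Tc : ℤ)
    (m1 : ‖(g.loc b).b0 - c1.val‖ ≤ M1 / sc) (m2 : ‖(g.loc b).P - c2.val‖ ≤ M2 / sc)
    (m3 : ‖(g.loc b).D - c3.val‖ ≤ M3 / sc) : (RD.of p g c1 c2 c3 M1 M2 M3 Tc).OK (g.loc b) := by
  obtain ⟨s1, s2, -, s4, -, s6, s7⟩ := hs
  have s0 := sc_pos
  have hq : g.h ≠ 0 := fun e => by rw [e] at s2; norm_num at s2
  have h0 : (g.h : ℝ) ≠ 0 := by exact_mod_cast hq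
  have hc : ((g.h : ℝ) : ℂ) ≠ 0 := Complex.ofReal_ne_zero.2 h0
  have be0 : (0 : ℝ) ≤ p.be := (norm_nonneg _).trans b0
  have pb0 : (0 : ℝ) ≤ p.pbar := (norm_nonneg _).trans o.hP
  have db0 : (0 : ℝ) ≤ p.Dbar := (norm_nonneg _).trans o.hD
  have kb := le_upQ p.be
  have kp := le_upQ p.pbar
  have kd := le_upQ p.Dbar
  have th0 : 0 < (g.loc b).Th :=
    (mul_pos_iff_of_pos_left (show (0 : ℝ) < p.wr by exact_mod_cast s7)).1 o.th0
  have qs : ∀ (r x y : ℚ), qe x y / ((r : ℝ) : ℂ) = ⟨(x / r : ℚ), √3 * (y / r : ℚ)⟩ := fun r x y => by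
    apply Complex.ext
    · rw [Complex.div_ofReal_re]; simp [qe]
    · rw [Complex.div_ofReal_im]; simp [qe]; ring
  refine ⟨h0, ?_, ?_, ?_, ?_, ?_, m1, m2, m3, b0.trans kb, o.hM.trans kb, o.hP.trans kp,
    o.hD.trans kd, o.hr1.trans (mul_le_mul kb kp pb0 (be0.trans kb)), o.hr2.trans ?_,
    ((rho_le b0).trans ?_).trans (le_upQ p.rb), ?_, ?_, ?_, o.hW.trans (le_upQ _)⟩
  · rw [eq_div_iff s0.ne', sc]
    show (g.h : ℝ) ^ 2 / 4 * 2 ^ 64 = ((ipos (ofQ (g.h ^ 2 / 4)) : ℕ) : ℝ)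
    exact_mod_cast s1
  · have k := C.ofQ_err ((g.xp - g.xm) / (2 * g.h)) ((g.yp - g.ym) / (2 * g.h))
    rw [← qs, ← qe_sub, Rat.cast_mul, Rat.cast_ofNat, Complex.ofReal_mul, Complex.ofReal_ofNat] at k
    exact k
  · have k := C.ofQ_err ((g.xp - 2 * g.x0 + g.xm) / g.h ^ 2) ((g.yp - 2 * g.y0 + g.ym) / g.h ^ 2)
    rw [← qs, ← qe_add, ← qe_sub, ← qe_two, Rat.cast_pow, Complex.ofReal_pow] at k
    exact k
  · have k := C.ofQ_err ((g.xp + g.xm) / 2) ((g.yp + g.ym) / 2)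
    rw [← qs, ← qe_add, Rat.cast_ofNat, Complex.ofReal_ofNat] at k
    exact k
  · refine le_of_eq_of_le ?_ (C.ofQ_err (g.so / (2 * g.h)) 0)
    congr 2
    have e : cr (g.loc b).um (g.loc b).up = (g.so : ℝ) * √3 := qe_cr _ _ _ _
    have s3 : √3 ≠ (0 : ℝ) := by positivity
    rw [e]
    apply Complex.ext
    · rw [Complex.ofReal_re]
      show (g.so : ℝ) * √3 / (2 * g.h) / √3 = _
      push_cast; field_simp
    · rw [Complex.ofReal_im]; simp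
  · exact add_le_add (mul_le_mul kb kd db0 (be0.trans kb))
      ((sq _).trans_le (mul_le_mul kp kp pb0 (pb0.trans kp)))
  · exact_mod_cast s6
  · rw [abs_of_nonneg (zero_le_one.trans o.hra.1)]; exact o.hra.2.trans (le_upQ _)
  · have a1 := le_upQ (p.Thi - Tc / 2 ^ 64)
    have a2 := le_upQ (Tc / 2 ^ 64 - p.Tlo)
    have a3 : ((upQ (p.Thi - Tc / 2 ^ 64) : ℕ) : ℝ) / sc ≤
        nmax (upQ (p.Thi - Tc / 2 ^ 64)) (upQ (Tc / 2 ^ 64 - p.Tlo)) / sc := by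
      rw [nmax_eq]; gcongr; exact le_max_left _ _
    have a4 : ((upQ (Tc / 2 ^ 64 - p.Tlo) : ℕ) : ℝ) / sc ≤
        nmax (upQ (p.Thi - Tc / 2 ^ 64)) (upQ (Tc / 2 ^ 64 - p.Tlo)) / sc := by
      rw [nmax_eq]; gcongr; exact le_max_right _ _
    have lo : (p.Tlo : ℝ) ≤ _ := o.reg.lo
    have hi : _ ≤ (p.Thi : ℝ) := o.reg.hi
    push_cast at a1 a2
    have e : (Tc : ℝ) / sc = Tc / 2 ^ 64 := rfl
    show |(g.loc b).Th - Tc / sc| ≤
      (nmax (upQ (p.Thi - Tc / 2 ^ 64)) (upQ (Tc / 2 ^ 64 - p.Tlo)) : ℕ) / sc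
    exact abs_le.2 ⟨by linarith [a2.trans a4], by linarith [a1.trans a3]⟩
  · refine le_trans ?_ (le_upQ _)
    have c0 : (0 : ℝ) ≤ p.c := by exact_mod_cast s4
    have hi : (g.loc b).Th ≤ (p.Thi : ℝ) := o.reg.hi
    have zb : _ ≤ 3 * (p.c : ℝ) ^ 2 * _ := o.zb
    have k := mul_le_mul_of_nonneg_left hi c0
    have k0 := mul_nonneg c0 th0.le
    push_cast
    refine (abs_le_of_sq_le_sq' ?_ (by nlinarith)).2
    rw [nsq3]
    refine le_trans zb ?_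
    nlinarith [mul_le_mul k k k0 (k0.trans k), mul_self_nonneg ((p.c : ℝ) * p.Thi)]

/-- the test of one run with given radii -/
def runLocOK (p : ParQ) (g : Dirs) (c1 c2 c3 : C) (M1 M2 M3 : ℕ) (Tc : ℤ) (q : QC) (w : Wt)
    (H s : ℕ) (G : List (List ℤ × List ℤ)) : Bool :=
  Bool.rec false (domOK (.of p g c1 c2 c3 M1 M2 M3 Tc) q w (invH1 g) (invH2 g) H s G)
    (decide (ScaleOK p g))

theorem runLoc_sound {p : ParQ} {g : Dirs} {c1 c2 c3 : C} {M1 M2 M3 : ℕ} {Tc : ℤ} {q : QC}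
    {w : Wt} {H s : ℕ} {G : List (List ℤ × List ℤ)}
    (h : runLocOK p g c1 c2 c3 M1 M2 M3 Tc q w H s G = true) {b : ℂ → ℂ}
    (o : Out p.par (g.loc b)) (bm : ‖b g.um‖ ≤ p.be) (b0 : ‖b g.u0‖ ≤ p.be) (bp : ‖b g.up‖ ≤ p.be)
    (m1 : ‖(g.loc b).b0 - c1.val‖ ≤ M1 / sc) (m2 : ‖(g.loc b).P - c2.val‖ ≤ M2 / sc)
    (m3 : ‖(g.loc b).D - c3.val‖ ≤ M3 / sc)
    (hq : 0 ≤ q.Qv ((g.loc b).Th - Tc / sc) (g.loc b).Zx (g.loc b).Zy (g.loc b).Wx (g.loc b).Wy) :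
    0 ≤ bil G (locv (g.loc b)) := by
  obtain ⟨h, hs⟩ := rec_tt h
  have hs' : ScaleOK p g := of_decide_eq_true hs
  have b1 : (p.be : ℝ) ≤ 1 := by exact_mod_cast hs'.2.2.2.2.1
  refine dom_sound h (RD.of_ok hs' o b0 Tc m1 m2 m3) ?_ ?_ (bm.trans b1) (b0.trans b1)
    (bp.trans b1) hq
  · show (invH1 g : ℝ) * (2 * g.h) = 2 ^ 64
    exact_mod_cast hs'.2.1
  · show (invH2 g : ℝ) * (g.h : ℝ) ^ 2 = 2 ^ 64
    exact_mod_cast hs'.2.2.1

/-- the test of one run with the a priori radii -/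
def runOK (p : ParQ) (g : Dirs) (c1 c2 c3 : C) (Tc : ℤ) (q : QC) (w : Wt) (H s : ℕ)
    (G : List (List ℤ × List ℤ)) : Bool :=
  runLocOK p g c1 c2 c3 (Nat.add (upQ p.be) c1.nrm) (Nat.add (upQ p.pbar) c2.nrm)
    (Nat.add (upQ p.Dbar) c3.nrm) Tc q w H s G

lemma apriori {z : ℂ} {r : ℚ} (h : ‖z‖ ≤ r) (c : C) :
    ‖z - c.val‖ ≤ (Nat.add (upQ r) c.nrm : ℕ) / sc := by
  rw [nadd, Nat.cast_add, add_div]
  exact (norm_sub_le _ _).trans (add_le_add (h.trans (le_upQ r)) c.nrm_ge)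

theorem run_sound {p : ParQ} {g : Dirs} {c1 c2 c3 : C} {Tc : ℤ} {q : QC} {w : Wt} {H s : ℕ}
    {G : List (List ℤ × List ℤ)} (h : runOK p g c1 c2 c3 Tc q w H s G = true) {b : ℂ → ℂ}
    (o : Out p.par (g.loc b)) (bm : ‖b g.um‖ ≤ p.be) (b0 : ‖b g.u0‖ ≤ p.be) (bp : ‖b g.up‖ ≤ p.be)
    (hq : 0 ≤ q.Qv ((g.loc b).Th - Tc / sc) (g.loc b).Zx (g.loc b).Zy (g.loc b).Wx (g.loc b).Wy) :
    0 ≤ bil G (locv (g.loc b)) :=
  runLoc_sound h o bm b0 bp (apriori b0 c1) (apriori o.hP c2) (apriori o.hD c3) hq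

end Pool.Agent.Lib.MP_fb520c_co.Chk
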