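import Pool.Agent.Lib.MP_fb520c_co.Chk.PK

/-! Nonnegativity of a sum of products of linear forms: rows of the matrix are packed integers,
the squares are data. -/

set_option autoImplicit false

noncomputable section

namespace Pool.Agent.Lib.MP_fb520c_co.Chk

open Finset

/-- the value of a sparse linear form (index, coefficient) -/
def linEv (x : ℕ → ℝ) (l : List (ℕ × ℤ)) : ℝ := (l.map fun p => (p.2 : ℝ) * x p.1).sum

/-- scalar product of a list of integers and a list of reals (the shorter list decides) -/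
def dot (u : List ℤ) (a : List ℝ) : ℝ := (List.zipWith (fun (c : ℤ) (v : ℝ) => c * v) u a).sum

/-- the sum of the products `(u · a) (v · a)` -/
def bil (terms : List (List ℤ × List ℤ)) (a : List ℝ) : ℝ :=
  (terms.map fun p => dot p.1 a * dot p.2 a).sum

/-- linear forms (atoms) and products of combinations of them -/
structure Block where
  atoms : List (List (ℕ × ℤ))
  terms : List (List ℤ × List ℤ)

/-- the value of a block -/
def Block.val (x : ℕ → ℝ) (b : Block) : ℝ := bil b.terms (b.atoms.map (linEv x))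

/-- a sparse form, packed -/
def packL (B : ℕ) (l : List (ℕ × ℤ)) : ℤ :=
  List.rec (.ofNat 0) (fun p _ ih => Prod.rec (fun i c => iadd (inmul (Nat.pow B i) c) ih) p) l

/-- sum of the absolute values of the coefficients -/
def nrmL (l : List (ℕ × ℤ)) : ℕ :=
  List.rec 0 (fun p _ ih => Prod.rec (fun _ c => Nat.add (iabs c) ih) p) l

/-- all indices are below `n` -/
def okL (n : ℕ) (l : List (ℕ × ℤ)) : Bool :=
  List.rec true (fun p _ ih => Prod.rec (fun i _ => Bool.rec false ih (Nat.blt i n)) p) l

/-- all atoms are fine -/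
def okA (n : ℕ) (a : List (List (ℕ × ℤ))) : Bool :=
  List.rec true (fun l _ ih => Bool.rec false ih (okL n l)) a

/-- the packed atoms -/
def packA (B : ℕ) (a : List (List (ℕ × ℤ))) : List ℤ :=
  List.rec [] (fun l _ ih => packL B l :: ih) a

/-- total size of the atoms -/
def nrmA (a : List (List (ℕ × ℤ))) : ℕ := List.rec 0 (fun l _ ih => Nat.add (nrmL l) ih) a

/-- zeros -/
def zerosA (a : List (List (ℕ × ℤ))) : List ℤ := List.rec [] (fun _ _ ih => .ofNat 0 :: ih) a

/-- zeros -/
def zeros (n : ℕ) : List ℤ := Nat.rec [] (fun _ ih => .ofNat 0 :: ih) n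

/-- sum of absolute values -/
def nrmD (u : List ℤ) : ℕ := List.rec 0 (fun c _ ih => Nat.add (iabs c) ih) u

/-- scalar product -/
def idot (u : List ℤ) : List ℤ → ℤ :=
  List.rec (fun _ => .ofNat 0)
    (fun c _ ih P => List.rec (.ofNat 0) (fun p ps _ => iadd (imul c p) (ih ps)) P) u

/-- row `j` gets `u_j V` -/
def axpy (V : ℤ) (u : List ℤ) : List ℤ → List ℤ :=
  List.rec (fun rows => rows)
    (fun c _ ih rows => List.rec [] (fun r rs _ => iadd r (imul c V) :: ih rs) rows) u

/-- row `i` gets `V` -/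
def addAt (V : ℤ) (i : ℕ) : List ℤ → List ℤ :=
  Nat.rec (fun rows => List.rec [] (fun r rs _ => iadd r V :: rs) rows)
    (fun _ ih rows => List.rec [] (fun r rs _ => r :: ih rs) rows) i

/-- the rows of `l ⊗ V` are added -/
def addL (V : ℤ) (l : List (ℕ × ℤ)) (rows : List ℤ) : List ℤ :=
  List.rec rows (fun p _ ih => Prod.rec (fun i c => addAt (imul c V) i ih) p) l

/-- the rows that belong to the atoms are distributed -/
def addA (a : List (List (ℕ × ℤ))) (rows : List ℤ) : List ℤ → List ℤ :=
  List.rec (fun _ => rows)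
    (fun l _ ih loc => List.rec rows (fun V Vs _ => addL V l (ih Vs)) loc) a

/-- the rows that belong to the atoms -/
def locRows (P z : List ℤ) (terms : List (List ℤ × List ℤ)) : List ℤ :=
  List.rec z (fun p _ ih => Prod.rec (fun u v => axpy (idot v P) u ih) p) terms

/-- size of the terms -/
def nrmT (terms : List (List ℤ × List ℤ)) : ℕ :=
  List.rec 0 (fun p _ ih => Prod.rec (fun u v => Nat.add (Nat.mul (nrmD u) (nrmD v)) ih) p) terms

/-- the rows of all blocks -/
def blockRows (B n : ℕ) (bs : List Block) : List ℤ :=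
  List.rec (zeros n)
    (fun b _ ih => Block.rec (fun a t => addA a ih (locRows (packA B a) (zerosA a) t)) b) bs

/-- size of all blocks -/
def nrmB (bs : List Block) : ℕ :=
  List.rec 0 (fun b _ ih =>
    Block.rec (fun a t => Nat.add (Nat.mul (Nat.mul (nrmA a) (nrmA a)) (nrmT t)) ih) b) bs

/-- indices of all blocks -/
def okB (n : ℕ) (bs : List Block) : Bool :=
  List.rec true (fun b _ ih => Block.rec (fun a _ => Bool.rec false ih (okA n a)) b) bs

/-- the first `len` digits of `U` in base `b`, minus `O` -/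
def digs (b O len : ℕ) : ℕ → List ℤ :=
  Nat.rec (fun _ => []) (fun _ ih U => isn (Nat.succ (Nat.mod U b)) O :: ih (Nat.div U b)) len

/-- a dense form, packed -/
def horner (B : ℕ) (l : List ℤ) : ℤ := List.rec (.ofNat 0) (fun c _ ih => iadd c (inmul B ih)) l

/-- `k l ⊗ l` is subtracted -/
def subSq (B k : ℕ) (l rows : List ℤ) : List ℤ := axpy (iopp (inmul k (horner B l))) l rows

/-- all squares are subtracted -/
def sqRows (B k O : ℕ) (rows : List ℤ) (sqs : List (ℕ × ℕ)) : List ℤ :=
  List.rec rows (fun p _ ih =>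
    Prod.rec (fun len U => subSq B k (digs (Nat.add O O) O len U) ih) p) sqs

/-- lengths of the squares -/
def okS (n : ℕ) (sqs : List (ℕ × ℕ)) : Bool :=
  List.rec true (fun p _ ih => Prod.rec (fun len _ => Bool.rec false ih (Nat.ble len n)) p) sqs

/-- sum of the absolute values of all entries -/
def absRows (B H n : ℕ) (E : ℤ) (rows : List ℤ) : ℕ :=
  List.rec 0 (fun r _ ih => Nat.add (absSum B H n (ipos (iadd r E))) ih) rows

/-- the final test -/
def finOK (B H n : ℕ) (E : ℤ) (rows : List ℤ) : Bool :=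
  List.rec false (fun r _ _ => Nat.ble (Nat.add (absRows B H n E rows) B)
    (Nat.mul 2 (Nat.mod (ipos (iadd r E)) B))) rows

/-- The test. `H`: half of the base of the rows; `n`: number of variables; a square `(len, U)` is
the form on `x 0 … x (len - 1)` whose coefficients are the digits of `U` in base `2 O` (lowest
first) minus `O`; the squares are multiplied by `k`. -/
def psdOK (H n k O : ℕ) (bs : List Block) (sqs : List (ℕ × ℕ)) : Bool :=
  Bool.rec false (Bool.rec false (Bool.rec false
    (finOK (Nat.add H H) H n (.ofNat (off (Nat.add H H) H n))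
      (sqRows (Nat.add H H) k O (blockRows (Nat.add H H) n bs) sqs))
    (Nat.blt (Nat.add (nrmB bs) (Nat.mul sqs.length (Nat.mul O (Nat.mul k (Nat.mul n O))))) H))
    (okS n sqs)) (okB n bs)

lemma rec_tt {a b : Bool} (h : (Bool.rec false a b : Bool) = true) : a = true ∧ b = true := by
  cases b
  · cases h
  · exact ⟨h, rfl⟩

section

variable {B n : ℕ} {x : ℕ → ℝ}

/-- each row packs a linear form of size at most `m`; `f` is their combination with weights `w` -/
def Rows (B n : ℕ) (x : ℕ → ℝ) (m : ℕ) : List ℤ → List ℝ → ℝ → Prop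
  | [], [], f => f = 0
  | r :: rs, w :: ws, f => ∃ g f', Rep B x (· < n) r m g ∧ Rows B n x m rs ws f' ∧ f = w * g + f'
  | _, _, _ => False

lemma Rows.mono {m m' : ℕ} (hm : m ≤ m') : ∀ {rows : List ℤ} {w : List ℝ} {f : ℝ},
    Rows B n x m rows w f → Rows B n x m' rows w f
  | [], [], _, h => h
  | _ :: _, _ :: _, _, ⟨g, f', a, b, c⟩ => ⟨g, f', a.mono (fun _ h => h) hm, Rows.mono hm b, c⟩
  | [], _ :: _, _, h => h.elim
  | _ :: _, [], _, h => h.elim

lemma dot_nil (a : List ℝ) : dot [] a = 0 := by simp [dot]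

lemma dot_nil' (u : List ℤ) : dot u [] = 0 := by simp [dot]

lemma dot_cons (c : ℤ) (u : List ℤ) (v : ℝ) (a : List ℝ) :
    dot (c :: u) (v :: a) = c * v + dot u a := by simp [dot]

lemma Rows.axpy {V : ℤ} {s k m : ℕ} {e : ℝ} (hV : Rep B x (· < n) V s e) :
    ∀ (u : List ℤ), (∀ c ∈ u, c.natAbs ≤ k) → ∀ {rows : List ℤ} {w : List ℝ} {f : ℝ},
    Rows B n x m rows w f → Rows B n x (m + k * s) (axpy V u rows) w (f + dot u w * e) := by
  intro u
  induction u with
  | nil =>
    intro _ rows w f h
    rw [dot_nil, zero_mul, add_zero]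
    exact h.mono (by omega)
  | cons c u ih =>
    intro hu rows w f h
    match rows, w, h with
    | [], [], h => rw [dot_nil', zero_mul, add_zero]; exact h
    | r :: rs, v :: ws, ⟨g, f', a, b, e1⟩ =>
      have k1 := a.add ((hV.smul c).mono (fun _ h => h)
        (Nat.mul_le_mul_right s (hu c (by simp))))
      rw [← imul_eq, ← iadd_eq] at k1
      exact ⟨_, _, k1, ih (fun d hd => hu d (by simp [hd])) b, by rw [e1, dot_cons]; ring⟩

lemma Rows.addAt {V : ℤ} {s m : ℕ} {e : ℝ} (hV : Rep B x (· < n) V s e) :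
    ∀ (i : ℕ) {rows : List ℤ} {w : List ℝ} {f : ℝ},
    Rows B n x m rows w f → Rows B n x (m + s) (addAt V i rows) w (f + w.getD i 0 * e) := by
  intro i
  induction i with
  | zero =>
    intro rows w f h
    match rows, w, h with
    | [], [], h => rw [List.getD_nil, zero_mul, add_zero]; exact h
    | r :: rs, v :: ws, ⟨g, f', a, b, e1⟩ =>
      have k1 := a.add hV
      rw [← iadd_eq] at k1
      exact ⟨_, _, k1, b.mono (by omega), by rw [e1, List.getD_cons_zero]; ring⟩
  | succ i ih =>
    intro rows w f h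
    match rows, w, h with
    | [], [], h => rw [List.getD_nil, zero_mul, add_zero]; exact h
    | r :: rs, v :: ws, ⟨g, f', a, b, e1⟩ =>
      exact ⟨_, _, a.mono (fun _ h => h) (by omega), ih b, by rw [e1, List.getD_cons_succ]; ring⟩

lemma okL_cons {i : ℕ} {c : ℤ} {l : List (ℕ × ℤ)} (h : okL n ((i, c) :: l) = true) :
    i < n ∧ okL n l = true := ⟨Nat.blt_eq.mp (rec_tt h).2, (rec_tt h).1⟩

lemma linEv_cons (i : ℕ) (c : ℤ) (l : List (ℕ × ℤ)) :
    linEv x ((i, c) :: l) = c * x i + linEv x l := by simp [linEv]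

lemma rep_packL : ∀ l : List (ℕ × ℤ), okL n l = true →
    Rep B x (· < n) (packL B l) (nrmL l) (linEv x l)
  | [], _ => Rep.zero
  | (i, c) :: l, h => by
    have k := (Rep.single (B := B) (μ := x) (D := (· < n)) c (okL_cons h).1).add
      (rep_packL l (okL_cons h).2)
    have e : packL B ((i, c) :: l) = c * (B : ℤ) ^ i + packL B l := by
      show iadd (inmul (B ^ i) c) _ = _
      rw [iadd_eq, inmul_eq, Nat.cast_pow, mul_comm]; rfl
    rw [e, linEv_cons]
    rw [← iabs_eq] at k
    exact k

/-- the values of the variables -/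
def xs (n : ℕ) (x : ℕ → ℝ) : List ℝ := (List.range n).map x

lemma xs_getD {i : ℕ} (h : i < n) : (xs n x).getD i 0 = x i := by
  simp [xs, List.getD_eq_getElem?_getD, List.getElem?_range h]

lemma Rows.addL {V : ℤ} {s m : ℕ} {e : ℝ} (hV : Rep B x (· < n) V s e) {rows : List ℤ} {f : ℝ}
    (h : Rows B n x m rows (xs n x) f) : ∀ l : List (ℕ × ℤ), okL n l = true →
    Rows B n x (m + nrmL l * s) (addL V l rows) (xs n x) (f + linEv x l * e)
  | [], _ => by simpa [linEv, nrmL, Chk.addL] using h
  | (i, c) :: l, hl => by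
    have k0 := hV.smul c
    rw [← imul_eq, ← iabs_eq] at k0
    have k := Rows.addAt k0 i (Rows.addL hV h l (okL_cons hl).2)
    rw [xs_getD (okL_cons hl).1] at k
    have e1 : m + nrmL ((i, c) :: l) * s = m + nrmL l * s + iabs c * s := by
      show m + (iabs c + nrmL l) * s = _
      ring
    rw [e1, linEv_cons, show f + (c * x i + linEv x l) * e = f + linEv x l * e + x i * (c * e) by
      ring]
    exact k

lemma Rows.addA {s m : ℕ} {rows : List ℤ} {f : ℝ} (h : Rows B n x m rows (xs n x) f) :
    ∀ (a : List (List (ℕ × ℤ))), okA n a = true → ∀ {loc : List ℤ} {e : ℝ},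
    Rows B n x s loc (a.map (linEv x)) e →
    Rows B n x (m + nrmA a * s) (addA a rows loc) (xs n x) (f + e) := by
  intro a
  induction a with
  | nil =>
    intro _ loc e k
    match loc, k with
    | [], k => rw [show e = 0 from k]; simpa [nrmA, Chk.addA] using h
  | cons l a ih =>
    intro ha loc e k
    match loc, k with
    | V :: Vs, ⟨g, f', k1, k2, e1⟩ =>
      have k3 := (ih (rec_tt ha).1 k2).addL k1 l (rec_tt ha).2
      have e2 : m + nrmA (l :: a) * s = m + nrmA a * s + nrmL l * s := by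
        show m + (nrmL l + nrmA a) * s = _
        ring
      rw [e2, e1, show f + (linEv x l * g + f') = f + f' + linEv x l * g by ring]
      exact k3

lemma rep_idot : ∀ (a : List (List (ℕ × ℤ))), okA n a = true → ∀ v : List ℤ,
    Rep B x (· < n) (idot v (packA B a)) (nrmD v * nrmA a) (dot v (a.map (linEv x)))
  | _, _, [] => by rw [dot_nil]; exact Rep.zero
  | [], _, _ :: _ => by rw [List.map_nil, dot_nil']; exact Rep.zero
  | l :: a, h, c :: v => by
    have k := ((rep_packL (B := B) (x := x) l (rec_tt h).2).smul c).add (rep_idot a (rec_tt h).1 v)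
    rw [← imul_eq, ← iadd_eq, ← iabs_eq] at k
    rw [List.map_cons, dot_cons]
    refine Rep.mono k (fun _ h => h) ?_
    show _ ≤ (iabs c + nrmD v) * (nrmL l + nrmA a)
    nlinarith [Nat.zero_le (iabs c * nrmA a), Nat.zero_le (nrmD v * nrmL l)]

lemma le_nrmD : ∀ (u : List ℤ), ∀ c ∈ u, c.natAbs ≤ nrmD u
  | d :: u, c, h => by
    show _ ≤ iabs d + nrmD u
    rw [iabs_eq]
    rcases List.mem_cons.1 h with rfl | h
    · omega
    · have := le_nrmD u c h
      omega

lemma rows_zerosA (m : ℕ) : ∀ a : List (List (ℕ × ℤ)),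
    Rows B n x m (zerosA a) (a.map (linEv x)) 0
  | [] => rfl
  | _ :: a => ⟨0, 0, Rep.zero, rows_zerosA m a, by simp⟩

lemma rows_loc {a : List (List (ℕ × ℤ))} (ha : okA n a = true) :
    ∀ t : List (List ℤ × List ℤ), Rows B n x (nrmT t * nrmA a)
      (locRows (packA B a) (zerosA a) t) (a.map (linEv x)) (bil t (a.map (linEv x)))
  | [] => rows_zerosA _ a
  | (u, v) :: t => by
    have k := Rows.axpy (rep_idot (B := B) (x := x) a ha v) u (le_nrmD u) (rows_loc ha t)
    have e1 : nrmT ((u, v) :: t) * nrmA a = nrmT t * nrmA a + nrmD u * (nrmD v * nrmA a) := by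
      show (nrmD u * nrmD v + nrmT t) * nrmA a = _
      ring
    have e2 : bil ((u, v) :: t) (a.map (linEv x)) = bil t (a.map (linEv x)) +
        dot u (a.map (linEv x)) * dot v (a.map (linEv x)) := by simp [bil, add_comm]
    rw [e1, e2]
    exact k

lemma rows_zeros (m : ℕ) : ∀ w : List ℝ, Rows B n x m (zeros w.length) w 0
  | [] => rfl
  | _ :: w => ⟨0, 0, Rep.zero, rows_zeros m w, by simp⟩

lemma rows_block : ∀ bs : List Block, okB n bs = true →
    Rows B n x (nrmB bs) (blockRows B n bs) (xs n x) (bs.map (Block.val x)).sum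
  | [], _ => by
    have := rows_zeros (B := B) (n := n) (x := x) 0 (xs n x)
    rwa [show (xs n x).length = n by simp [xs]] at this
  | ⟨a, t⟩ :: bs, h => by
    have k := (rows_block bs (rec_tt h).1).addA a (rec_tt h).2 (rows_loc (rec_tt h).2 t)
    have e1 : nrmB (⟨a, t⟩ :: bs) = nrmB bs + nrmA a * (nrmT t * nrmA a) := by
      show nrmA a * nrmA a * nrmT t + nrmB bs = _
      ring
    rw [e1, List.map_cons, List.sum_cons, add_comm (Block.val _ _)]
    exact k

lemma digs_spec {O : ℕ} : ∀ len U : ℕ, (digs (O + O) O len U).length = len ∧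
    (0 < O → ∀ c ∈ digs (O + O) O len U, c.natAbs ≤ O)
  | 0, _ => ⟨rfl, fun _ _ h => by cases h⟩
  | len + 1, U => by
    obtain ⟨a, b⟩ := digs_spec (O := O) len (U / (O + O))
    have e : digs (O + O) O (len + 1) U =
        isn (U % (O + O) + 1) O :: digs (O + O) O len (U / (O + O)) := rfl
    rw [e]
    refine ⟨by rw [List.length_cons, a], fun hO c hc => ?_⟩
    rcases List.mem_cons.1 hc with rfl | hc
    · have := Nat.mod_lt U (show 0 < O + O by omega)
      rw [isn_eq]
      generalize U % (O + O) = d at this ⊢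
      omega
    · exact b hO c hc

lemma rep_horner {O : ℕ} : ∀ (l : List ℤ) (i : ℕ), i + l.length ≤ n → (∀ c ∈ l, c.natAbs ≤ O) →
    Rep B x (· < n) ((B : ℤ) ^ i * horner B l) (l.length * O) (dot l ((xs n x).drop i))
  | [], _, _, _ => by rw [dot_nil]; simpa [horner] using Rep.zero
  | c :: l, i, h, hc => by
    rw [List.length_cons] at h
    have k := ((Rep.single (B := B) (μ := x) (D := (· < n)) c (show i < n by omega)).mono
      (fun _ h => h) (hc c (by simp))).add
      (rep_horner l (i + 1) (by omega) fun d hd => hc d (by simp [hd]))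
    have e1 : (B : ℤ) ^ i * horner B (c :: l) = c * (B : ℤ) ^ i + (B : ℤ) ^ (i + 1) * horner B l := by
      show _ * iadd c (inmul B (horner B l)) = _
      rw [iadd_eq, inmul_eq]; ring
    have e2 : (xs n x).drop i = x i :: (xs n x).drop (i + 1) := by
      rw [List.drop_eq_getElem_cons (by simp [xs]; omega)]
      simp [xs]
    rw [e1, e2, dot_cons, List.length_cons, add_mul, one_mul, add_comm (_ * O)]
    exact k

lemma rows_sq {k O m : ℕ} (hO : 0 < O) {rows : List ℤ} {f : ℝ}
    (h : Rows B n x m rows (xs n x) f) : ∀ sqs : List (ℕ × ℕ), okS n sqs = true →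
    ∃ g, g ≤ f ∧ Rows B n x (m + sqs.length * (O * (k * (n * O)))) (sqRows B k O rows sqs)
      (xs n x) g
  | [], _ => ⟨f, le_rfl, by simpa [sqRows] using h⟩
  | (len, U) :: sqs, hs => by
    obtain ⟨g, g0, hg⟩ := rows_sq (k := k) hO h sqs (rec_tt hs).1
    have hl : len ≤ n := Nat.le_of_ble_eq_true (rec_tt hs).2
    obtain ⟨a, b⟩ := digs_spec (O := O) len U
    have k1 := rep_horner (B := B) (n := n) (x := x) _ 0 (by rw [a]; omega) (b hO)
    rw [pow_zero, one_mul, List.drop_zero, a] at k1
    have k2 := ((k1.mono (fun _ h => h) (Nat.mul_le_mul_right O hl)).smul k).neg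
    rw [← inmul_eq, ← iopp_eq, Int.natAbs_natCast] at k2
    have k3 := Rows.axpy k2 _ (b hO) hg
    refine ⟨_, ?_, by rw [List.length_cons, add_mul, one_mul, ← add_assoc]; exact k3⟩
    have := mul_nonneg (Nat.cast_nonneg (α := ℝ) k)
      (mul_self_nonneg (dot (digs (O + O) O len U) (xs n x)))
    push_cast
    linarith

lemma abs_rows {H m : ℕ} (hn : 0 < n) (hm : m < H) (hx : ∀ i, |x i| ≤ 1) :
    ∀ {rows : List ℤ} {w : List ℝ} {f : ℝ}, Rows (H + H) n x m rows w f → (∀ v ∈ w, |v| ≤ 1) →
    |f| ≤ absRows (H + H) H n (.ofNat (off (H + H) H n)) rows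
  | [], [], f, h, _ => by rw [show f = 0 from h]; simp
  | r :: rs, v :: ws, _, ⟨g, f', a, b, c⟩, hw => by
    have k1 := (a.bound rfl hn (fun _ h => h) hm hx).1
    have k2 := abs_rows hn hm hx b fun u hu => hw u (by simp [hu])
    have k3 : |v * g| ≤ |g| := by
      rw [abs_mul]; exact mul_le_of_le_one_left (abs_nonneg _) (hw v (by simp))
    show _ ≤ ((_ + _ : ℕ) : ℝ)
    rw [c, Nat.cast_add]
    exact (abs_add_le _ _).trans (add_le_add (k3.trans k1) k2)
  | [], _ :: _, _, h, _ => h.elim
  | _ :: _, [], _, h, _ => h.elim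

lemma fin_sound {H m : ℕ} (hm : m < H) (h0 : x 0 = 1) (hx : ∀ i, |x i| ≤ 1) {rows : List ℤ}
    {f : ℝ} (h : Rows (H + H) n x m rows (xs n x) f)
    (hf : finOK (H + H) H n (.ofNat (off (H + H) H n)) rows = true) : 0 ≤ f := by
  cases rows with
  | nil => cases hf
  | cons r rs =>
    cases n with
    | zero => exact h.elim
    | succ n =>
      have e : xs (n + 1) x = x 0 :: (List.range n).map fun i => x (i + 1) := by
        simp [xs, List.range_succ_eq_map]
      rw [e] at h
      obtain ⟨g, f', a, b, c⟩ := h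
      have k1 := (a.bound rfl n.succ_pos (fun _ h => h) hm hx).2 h0
      have k2 := abs_rows n.succ_pos hm hx b fun v hv => by
        obtain ⟨i, -, rfl⟩ := List.mem_map.1 hv
        exact hx _
      have k3 : absSum (H + H) H (n + 1) (ipos (iadd r (.ofNat (off (H + H) H (n + 1))))) +
          absRows (H + H) H (n + 1) (.ofNat (off (H + H) H (n + 1))) rs + (H + H) ≤
          2 * (ipos (iadd r (.ofNat (off (H + H) H (n + 1)))) % (H + H)) :=
        Nat.le_of_ble_eq_true hf
      generalize ipos (iadd r (.ofNat (off (H + H) H (n + 1)))) = U at k1 k3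
      generalize absSum (H + H) H (n + 1) U = p at k1 k3
      generalize absRows (H + H) H (n + 1) (.ofNat (off (H + H) H (n + 1))) rs = q at k2 k3
      generalize U % (H + H) = d at k1 k3
      have k4 : (p : ℝ) + q + (H + H) ≤ 2 * d := by exact_mod_cast k3
      rw [c, h0]
      linarith [(abs_le.1 k2).1]

end

theorem psd_sound {H n k O : ℕ} (hO : 0 < O) {bs : List Block} {sqs : List (ℕ × ℕ)}
    (h : psdOK H n k O bs sqs = true) {x : ℕ → ℝ} (h0 : x 0 = 1) (hx : ∀ i, |x i| ≤ 1) :
    0 ≤ (bs.map (Block.val x)).sum := by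
  obtain ⟨h, h1⟩ := rec_tt h
  obtain ⟨h, h2⟩ := rec_tt h
  obtain ⟨h, h3⟩ := rec_tt h
  obtain ⟨g, g0, hg⟩ := rows_sq (k := k) hO (rows_block (B := H + H) (x := x) bs h1) sqs h2
  exact (fin_sound (Nat.blt_eq.mp h3) h0 hx hg h).trans g0

end Pool.Agent.Lib.MP_fb520c_co.Chk
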