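import Pool.Agent.Lib.MP_fb520c_co.Chk.PK

/-! Polynomials of degree at most four in three variables, packed; sums of squares. -/

set_option autoImplicit false

noncomputable section

namespace Pool.Agent.Lib.MP_fb520c_co.Chk

/-- a packed polynomial and a bound of the sum of the absolute values of its coefficients -/
structure PK where
  v : ℤ
  n : ℕ

namespace PK

/-- a constant -/
def const (c : ℤ) : PK := ⟨c, iabs c⟩

/-- `c0 + c1 v1 + c2 v2 + c3 v3` -/
def aff (B : ℕ) (c0 c1 c2 c3 : ℤ) : PK :=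
  ⟨iadd (iadd c0 (inmul B c1)) (iadd (inmul (Nat.pow B 5) c2) (inmul (Nat.pow B 25) c3)),
    Nat.add (Nat.add (iabs c0) (iabs c1)) (Nat.add (iabs c2) (iabs c3))⟩

/-- sum -/
def add (a b : PK) : PK := PK.rec (fun v n => PK.rec (fun w m => ⟨iadd v w, Nat.add n m⟩) b) a

/-- difference -/
def sub (a b : PK) : PK := PK.rec (fun v n => PK.rec (fun w m => ⟨isub v w, Nat.add n m⟩) b) a

/-- opposite -/
def neg (a : PK) : PK := PK.rec (fun v n => ⟨iopp v, n⟩) a

/-- product -/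
def mul (a b : PK) : PK := PK.rec (fun v n => PK.rec (fun w m => ⟨imul v w, Nat.mul n m⟩) b) a

/-- multiple -/
def smul (c : ℤ) (a : PK) : PK := PK.rec (fun v n => ⟨imul c v, Nat.mul (iabs c) n⟩) a

end PK

/-- the monomial with index `k` -/
def mon3 (x y z : ℝ) (k : ℕ) : ℝ := x ^ (k % 5) * y ^ (k / 5 % 5) * z ^ (k / 25)

/-- its degree -/
def deg3 (k : ℕ) : ℕ := k % 5 + k / 5 % 5 + k / 25

/-- `a` packs in base `B` a polynomial of degree at most `d` with value `f` at `(x, y, z)` -/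
def P3 (B : ℕ) (x y z : ℝ) (d : ℕ) (a : PK) (f : ℝ) : Prop :=
  Rep B (mon3 x y z) (fun k => deg3 k ≤ d) a.v a.n f

namespace P3

variable {B : ℕ} {x y z : ℝ} {d d' : ℕ} {a b : PK} {f g : ℝ}

theorem mono (h : P3 B x y z d a f) (hd : d ≤ d') : P3 B x y z d' a f :=
  Rep.mono h (fun _ k => k.trans hd) le_rfl

theorem congr (h : P3 B x y z d a f) (e : f = g) : P3 B x y z d a g := e ▸ h

theorem const (c : ℤ) : P3 B x y z d (.const c) c := by
  have := Rep.single (B := B) (μ := mon3 x y z) (D := fun k => deg3 k ≤ d) c (k := 0)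
    (by simp [deg3])
  simpa [mon3, P3, PK.const] using this

theorem aff (c0 c1 c2 c3 : ℤ) :
    P3 B x y z 1 (.aff B c0 c1 c2 c3) (c0 + c1 * x + c2 * y + c3 * z) := by
  have k := fun (c : ℤ) (k : ℕ) (hk : deg3 k ≤ 1) =>
    Rep.single (B := B) (μ := mon3 x y z) (D := fun k => deg3 k ≤ 1) c (k := k) hk
  have := ((k c0 0 (by decide)).add (k c1 1 (by decide))).add
    ((k c2 5 (by decide)).add (k c3 25 (by decide)))
  have e1 : (PK.aff B c0 c1 c2 c3).v =
      c0 * (B : ℤ) ^ 0 + c1 * (B : ℤ) ^ 1 + (c2 * (B : ℤ) ^ 5 + c3 * (B : ℤ) ^ 25) := by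
    simp only [PK.aff, iadd_eq, inmul_eq, Nat.pow_eq]; push_cast; ring
  have e2 : (PK.aff B c0 c1 c2 c3).n = c0.natAbs + c1.natAbs + (c2.natAbs + c3.natAbs) := by
    simp only [PK.aff, iabs_eq, Nat.add_eq]
  have e3 : c0 + c1 * x + c2 * y + c3 * z = c0 * mon3 x y z 0 + c1 * mon3 x y z 1 +
      (c2 * mon3 x y z 5 + c3 * mon3 x y z 25) := by
    norm_num [mon3]; ring
  rw [P3, e1, e2, e3]
  exact this

theorem add (h : P3 B x y z d a f) (h' : P3 B x y z d b g) : P3 B x y z d (a.add b) (f + g) := by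
  have := Rep.add h h'
  rwa [← iadd_eq] at this

theorem neg (h : P3 B x y z d a f) : P3 B x y z d a.neg (-f) := by
  have := Rep.neg h
  rwa [← iopp_eq] at this

theorem sub (h : P3 B x y z d a f) (h' : P3 B x y z d b g) : P3 B x y z d (a.sub b) (f - g) := by
  have := Rep.add h (Rep.neg h')
  rwa [← sub_eq_add_neg, ← sub_eq_add_neg, ← isub_eq] at this

theorem smul (c : ℤ) (h : P3 B x y z d a f) : P3 B x y z d (a.smul c) (c * f) := by
  have := Rep.smul c h
  rwa [← imul_eq, ← iabs_eq] at this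

lemma digits_add {i j : ℕ} (h1 : i % 5 + j % 5 < 5) (h2 : i / 5 % 5 + j / 5 % 5 < 5) :
    (i + j) % 5 = i % 5 + j % 5 ∧ (i + j) / 5 % 5 = i / 5 % 5 + j / 5 % 5 ∧
      (i + j) / 25 = i / 25 + j / 25 := by
  have e1 : (i + j) / 5 = i / 5 + j / 5 := Nat.add_div_eq_of_add_mod_lt h1
  refine ⟨Nat.add_mod_of_add_mod_lt h1, by rw [e1]; exact Nat.add_mod_of_add_mod_lt h2, ?_⟩
  have e : ∀ k : ℕ, k / 25 = k / 5 / 5 := fun k => by rw [Nat.div_div_eq_div_mul]
  rw [e, e, e, e1]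
  exact Nat.add_div_eq_of_add_mod_lt h2

theorem mul {e : ℕ} (h : P3 B x y z d a f) (h' : P3 B x y z d' b g) (he : d + d' ≤ e)
    (h4 : e ≤ 4) : P3 B x y z e (a.mul b) (f * g) := by
  have := Rep.mul (D'' := fun k => deg3 k ≤ e) h h' fun i j hi hj => by
    simp only [deg3] at hi hj ⊢
    obtain ⟨e1, e2, e3⟩ := digits_add (i := i) (j := j) (by omega) (by omega)
    refine ⟨by rw [e1, e2, e3]; omega, ?_⟩
    simp only [mon3, e1, e2, e3, pow_add]; ring
  rwa [← imul_eq] at this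

end P3

/-- the digits of `U` in base `b` against the weights `pw` -/
def unp (b : ℕ) (pw : List ℕ) : ℕ → ℕ :=
  List.rec (fun _ => 0) (fun p _ ih U => Nat.add (Nat.mul (Nat.mod U b) p) (ih (Nat.div U b))) pw

/-- sum -/
def nsum (pw : List ℕ) : ℕ := List.rec 0 (fun p _ ih => Nat.add p ih) pw

/-- powers -/
def pws (B : ℕ) (ks : List ℕ) : List ℕ := List.rec [] (fun k _ ih => Nat.pow B k :: ih) ks

/-- the square of an integer -/
def isq2 (a : ℤ) : ℕ := Nat.mul (iabs a) (iabs a)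

/-- the packed sum of squares; `E` is `O` times the sum of the weights -/
def sumSq (b : ℕ) (pw : List ℕ) (E : ℕ) (us : List ℕ) : ℕ :=
  List.rec 0 (fun U _ ih => Nat.add (isq2 (isn (Nat.succ (unp b pw U)) E)) ih) us

/-- the sum of squares with its size; `s` bounds the size of one square -/
def sumSqP (b : ℕ) (pw : List ℕ) (E s : ℕ) (us : List ℕ) : PK :=
  ⟨.ofNat (sumSq b pw E us), Nat.mul us.length s⟩

/-- the sum of the multipliers times their sums of squares -/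
def sumG (b : ℕ) (pw : List ℕ) (E s : ℕ) (gs : List PK) : List (List ℕ) → PK :=
  List.rec (fun _ => ⟨.ofNat 0, 0⟩) (fun g _ ih uss =>
    List.rec ⟨.ofNat 0, 0⟩ (fun us r _ => (g.mul (sumSqP b pw E s us)).add (ih r)) uss) gs

/-- last step -/
def sos3 (B H U : ℕ) : Bool := Nat.ble (Nat.add (absSum B H 101 U) B) (Nat.mul 2 (Nat.mod U B))

/-- the residual is dominated by its constant term -/
def sos2 (B H : ℕ) (r : PK) : Bool :=
  PK.rec (fun v n => Bool.rec false (sos3 B H (ipos (iadd v (.ofNat (off B H 101))))) (Nat.blt n H)) r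

/-- the residual -/
def sos1 (H k O : ℕ) (p : PK) (gs : List PK) (sqs : List ℕ) (ms : List (List ℕ))
    (p10 p4 : List ℕ) : Bool :=
  sos2 (Nat.add H H) H ((p.sub (PK.smul (.ofNat k) (sumSqP (Nat.add O O) p10
      (Nat.mul O (nsum p10)) (Nat.mul (Nat.mul 10 O) (Nat.mul 10 O)) sqs))).sub
    (sumG (Nat.add O O) p4 (Nat.mul O (nsum p4)) (Nat.mul (Nat.mul 4 O) (Nat.mul 4 O)) gs ms))

/-- The test: `p - k ∑ l ^ 2 - ∑ g_i ∑ l ^ 2` has a constant term that dominates the others.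
The base of `p` and of the `g_i` is `H + H`. A square is one number, its digits in base `2 O`
(lowest first) minus `O` are the coefficients of `1, x, y, z, xx, xy, xz, yy, yz, zz` (free squares
`sqs`), of `1, x, y, z` (squares `ms` of the multipliers, one list for each `g_i`). -/
def sosOK (H k O : ℕ) (p : PK) (gs : List PK) (sqs : List ℕ) (ms : List (List ℕ)) : Bool :=
  sos1 H k O p gs sqs ms (pws (Nat.add H H) [0, 1, 5, 25, 2, 6, 26, 10, 30, 50])
    (pws (Nat.add H H) [0, 1, 5, 25])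

lemma rec_true {a b : Bool} (h : (Bool.rec false a b : Bool) = true) : a = true ∧ b = true := by
  cases b
  · cases h
  · exact ⟨h, rfl⟩

lemma digit_le (U O : ℕ) (hO : 0 < O) : (((U % (O + O) : ℕ) : ℤ) - O).natAbs ≤ O := by
  have := Nat.mod_lt U (show 0 < O + O by omega)
  omega

lemma rep_unp {B O : ℕ} {μ : ℕ → ℝ} {D : ℕ → Prop} (hO : 0 < O) (ks : List ℕ)
    (hk : ∀ k ∈ ks, D k) : ∀ U : ℕ, ∃ f, Rep B μ D
    ((unp (O + O) (pws B ks) U : ℤ) - O * nsum (pws B ks)) (ks.length * O) f := by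
  induction ks with
  | nil => exact fun U => ⟨0, by simpa [unp, pws, nsum] using Rep.zero⟩
  | cons k ks ih =>
    intro U
    obtain ⟨f, hf⟩ := ih (fun j hj => hk j (by simp [hj])) (U / (O + O))
    have k1 := ((Rep.single (B := B) (μ := μ) ((U % (O + O) : ℕ) - O : ℤ) (hk k (by simp))).mono
      (fun _ h => h) (digit_le U O hO)).add hf
    have e1 : unp (O + O) (pws B (k :: ks)) U =
        U % (O + O) * B ^ k + unp (O + O) (pws B ks) (U / (O + O)) := rfl
    have e2 : nsum (pws B (k :: ks)) = B ^ k + nsum (pws B ks) := rfl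
    have e3 : ((unp (O + O) (pws B (k :: ks)) U : ℕ) : ℤ) - O * nsum (pws B (k :: ks)) =
        ((U % (O + O) : ℕ) - O : ℤ) * (B : ℤ) ^ k +
        ((unp (O + O) (pws B ks) (U / (O + O)) : ℤ) - O * nsum (pws B ks)) := by
      rw [e1, e2]
      generalize U % (O + O) = d
      push_cast; ring
    rw [e3, List.length_cons, add_mul, one_mul, add_comm (_ * O)]
    exact ⟨_, k1⟩

lemma isq2_eq (a : ℤ) : (isq2 a : ℤ) = a * a := by
  rw [isq2, iabs_eq, Nat.mul_eq]; exact Int.natAbs_mul_self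

variable {B O : ℕ} {x y z : ℝ}

lemma rep_sumSq (hO : 0 < O) {d : ℕ} (hd : d + d ≤ 4) (ks : List ℕ) (hk : ∀ k ∈ ks, deg3 k ≤ d)
    (us : List ℕ) : ∃ f, 0 ≤ f ∧ P3 B x y z (d + d) (sumSqP (O + O) (pws B ks)
      (O * nsum (pws B ks)) (ks.length * O * (ks.length * O)) us) f := by
  induction us with
  | nil => exact ⟨0, le_rfl, Rep.zero⟩
  | cons U us ih =>
    obtain ⟨f, f0, hf⟩ := ih
    obtain ⟨g, hg⟩ := rep_unp (B := B) (μ := mon3 x y z) (D := fun k => deg3 k ≤ d) hO ks hk U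
    have k1 : P3 B x y z d ⟨_, _⟩ g := hg
    have k2 := (k1.mul k1 le_rfl hd).add hf
    refine ⟨_, add_nonneg (mul_self_nonneg g) f0, ?_⟩
    have e1 : sumSq (O + O) (pws B ks) (O * nsum (pws B ks)) (U :: us) =
        isq2 (isn (unp (O + O) (pws B ks) U + 1) (O * nsum (pws B ks))) +
        sumSq (O + O) (pws B ks) (O * nsum (pws B ks)) us := rfl
    simp only [P3, sumSqP, PK.add, PK.mul, e1, iadd_eq, imul_eq, Nat.add_eq, Nat.mul_eq,
      Int.ofNat_eq_natCast, Nat.cast_add, isq2_eq, isn_eq, List.length_cons, Nat.cast_mul,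
      Nat.cast_one, add_sub_add_right_eq_sub] at k2 ⊢
    rw [add_mul, one_mul, add_comm (us.length * _)]
    exact k2

lemma rep_sumG (hO : 0 < O) (ks : List ℕ) (hk : ∀ k ∈ ks, deg3 k ≤ 1) (gs : List PK)
    (hg : ∀ g ∈ gs, ∃ e, 0 ≤ e ∧ P3 B x y z 2 g e) : ∀ ms : List (List ℕ),
    ∃ f, 0 ≤ f ∧ P3 B x y z 4 (sumG (O + O) (pws B ks) (O * nsum (pws B ks))
      (ks.length * O * (ks.length * O)) gs ms) f := by
  induction gs with
  | nil => exact fun _ => ⟨0, le_rfl, Rep.zero⟩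
  | cons g gs ih =>
    intro ms
    cases ms with
    | nil => exact ⟨0, le_rfl, Rep.zero⟩
    | cons us ms =>
      obtain ⟨f, f0, hf⟩ := ih (fun g h => hg g (by simp [h])) ms
      obtain ⟨e, e0, he⟩ := hg g (by simp)
      obtain ⟨s, s0, hs⟩ := rep_sumSq (B := B) (x := x) (y := y) (z := z) hO (d := 1)
        (by norm_num) ks hk us
      exact ⟨_, add_nonneg (mul_nonneg e0 s0) f0, (he.mul hs le_rfl le_rfl).add hf⟩

lemma mon3_le (hx : |x| ≤ 1) (hy : |y| ≤ 1) (hz : |z| ≤ 1) (k : ℕ) : |mon3 x y z k| ≤ 1 := by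
  rw [mon3, abs_mul, abs_mul, abs_pow, abs_pow, abs_pow]
  exact mul_le_one₀ (mul_le_one₀ (pow_le_one₀ (abs_nonneg _) hx) (by positivity)
    (pow_le_one₀ (abs_nonneg _) hy)) (by positivity) (pow_le_one₀ (abs_nonneg _) hz)

lemma sos2_sound {H : ℕ} {r : PK} (h : sos2 (H + H) H r = true) {f : ℝ} (hx : |x| ≤ 1)
    (hy : |y| ≤ 1) (hz : |z| ≤ 1) (hp : P3 (H + H) x y z 4 r f) : 0 ≤ f := by
  obtain ⟨h1, h2⟩ := rec_true h
  have k := (Rep.bound rfl (L := 101) (by norm_num) hp (fun k hk => by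
    simp only [deg3] at hk; omega) (Nat.blt_eq.mp h2) (mon3_le hx hy hz)).2 (by simp [mon3])
  generalize ipos (iadd r.v (.ofNat (off (H + H) H 101))) = U at k h1
  have k2 : absSum (H + H) H 101 U + (H + H) ≤ 2 * (U % (H + H)) := Nat.le_of_ble_eq_true h1
  generalize absSum (H + H) H 101 U = a at k k2
  generalize U % (H + H) = b at k k2
  have k3 : (a : ℝ) + (H + H) ≤ 2 * b := by exact_mod_cast k2
  linarith

lemma sos1_sound {H k O : ℕ} (hO : 0 < O) {p : PK} {gs : List PK} {sqs : List ℕ}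
    {ms : List (List ℕ)} {k10 k4 : List ℕ} (l10 : k10.length = 10) (l4 : k4.length = 4)
    (d10 : ∀ k ∈ k10, deg3 k ≤ 2) (d4 : ∀ k ∈ k4, deg3 k ≤ 1)
    (h : sos1 H k O p gs sqs ms (pws (H + H) k10) (pws (H + H) k4) = true) {x y z f : ℝ}
    (hx : |x| ≤ 1) (hy : |y| ≤ 1) (hz : |z| ≤ 1) (hp : P3 (H + H) x y z 4 p f)
    (hg : ∀ g ∈ gs, ∃ e, 0 ≤ e ∧ P3 (H + H) x y z 2 g e) : 0 ≤ f := by
  obtain ⟨a, a0, ha⟩ := rep_sumSq (B := H + H) (x := x) (y := y) (z := z) hO (d := 2) le_rfl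
    k10 d10 sqs
  obtain ⟨b, b0, hb⟩ := rep_sumG (B := H + H) (x := x) (y := y) (z := z) hO k4 d4 gs hg ms
  rw [l10] at ha
  rw [l4] at hb
  simp only [sos1, Nat.add_eq, Nat.mul_eq] at h
  have k1 := sos2_sound h hx hy hz ((hp.sub (ha.smul (.ofNat k))).sub hb)
  have k2 : (0 : ℝ) ≤ (Int.ofNat k : ℤ) * a := mul_nonneg (by simp) a0
  linarith

theorem sos_sound {H k O : ℕ} (hO : 0 < O) {p : PK} {gs : List PK} {sqs : List ℕ}
    {ms : List (List ℕ)} (h : sosOK H k O p gs sqs ms = true) {x y z f : ℝ} (hx : |x| ≤ 1)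
    (hy : |y| ≤ 1) (hz : |z| ≤ 1) (hp : P3 (H + H) x y z 4 p f)
    (hg : ∀ g ∈ gs, ∃ e, 0 ≤ e ∧ P3 (H + H) x y z 2 g e) : 0 ≤ f :=
  sos1_sound hO (k10 := [0, 1, 5, 25, 2, 6, 26, 10, 30, 50]) (k4 := [0, 1, 5, 25]) rfl rfl
    (by decide) (by decide) h hx hy hz hp hg

end Pool.Agent.Lib.MP_fb520c_co.Chk
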