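import Pool.Agent.Lib.MP_fb520c_co.Chk.Z

/-! Integer combinations of monomials packed into one integer (value at a large base). -/

set_option autoImplicit false

noncomputable section

namespace Pool.Agent.Lib.MP_fb520c_co.Chk

open Finset

/-- `V` packs in base `B` a combination of monomials with indices in `D`, sum of the absolute
values of the coefficients at most `n`, and value `f` when the monomial `k` has the value `μ k` -/
def Rep (B : ℕ) (μ : ℕ → ℝ) (D : ℕ → Prop) (V : ℤ) (n : ℕ) (f : ℝ) : Prop :=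
  ∃ t : List (ℤ × ℕ), (∀ p ∈ t, D p.2) ∧ (t.map fun p => p.1 * (B : ℤ) ^ p.2).sum = V ∧
    (t.map fun p => p.1.natAbs).sum ≤ n ∧ (t.map fun p => (p.1 : ℝ) * μ p.2).sum = f

namespace Rep

variable {B : ℕ} {μ : ℕ → ℝ} {D D' D'' : ℕ → Prop} {V V' : ℤ} {n n' : ℕ} {f f' : ℝ}

lemma zero : Rep B μ D 0 n 0 := ⟨[], by simp, by simp, by simp, by simp⟩

lemma single (c : ℤ) {k : ℕ} (hk : D k) : Rep B μ D (c * (B : ℤ) ^ k) c.natAbs (c * μ k) :=
  ⟨[(c, k)], by simpa, by simp, by simp, by simp⟩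

lemma mono (h : Rep B μ D V n f) (hD : ∀ k, D k → D' k) (hn : n ≤ n') : Rep B μ D' V n' f := by
  obtain ⟨t, a, b, c, d⟩ := h
  exact ⟨t, fun p hp => hD _ (a p hp), b, c.trans hn, d⟩

lemma add (h : Rep B μ D V n f) (h' : Rep B μ D V' n' f') :
    Rep B μ D (V + V') (n + n') (f + f') := by
  obtain ⟨t, a, b, c, d⟩ := h
  obtain ⟨t', a', b', c', d'⟩ := h'
  refine ⟨t ++ t', fun p hp => (List.mem_append.1 hp).elim (a p) (a' p), ?_, ?_, ?_⟩
  · rw [List.map_append, List.sum_append, b, b']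
  · rw [List.map_append, List.sum_append]; omega
  · rw [List.map_append, List.sum_append, d, d']

lemma shift (c : ℤ) (i : ℕ) (h : Rep B μ D V n f) (hD : ∀ j, D j → D' (i + j)) {a : ℝ}
    (hμ : ∀ j, D j → μ (i + j) = a * μ j) :
    Rep B μ D' (c * (B : ℤ) ^ i * V) (c.natAbs * n) (c * a * f) := by
  obtain ⟨t, a1, rfl, c1, rfl⟩ := h
  refine ⟨t.map fun p => (c * p.1, i + p.2), ?_, ?_, ?_, ?_⟩
  · intro p hp
    obtain ⟨q, hq, rfl⟩ := List.mem_map.1 hp
    exact hD _ (a1 q hq)
  · rw [List.map_map, ← List.sum_map_mul_left]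
    congr 1
    refine List.map_congr_left fun p _ => ?_
    simp only [Function.comp]; ring
  · refine le_trans (le_of_eq ?_) (Nat.mul_le_mul_left _ c1)
    rw [List.map_map, ← List.sum_map_mul_left]
    congr 1
    refine List.map_congr_left fun p _ => ?_
    simp only [Function.comp, Int.natAbs_mul]
  · rw [List.map_map, ← List.sum_map_mul_left]
    congr 1
    refine List.map_congr_left fun p hp => ?_
    simp only [Function.comp, hμ _ (a1 p hp)]; push_cast; ring

lemma smul (c : ℤ) (h : Rep B μ D V n f) : Rep B μ D (c * V) (c.natAbs * n) (c * f) := by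
  have := h.shift (D' := D) c 0 (fun j hj => by simpa) (a := 1) (fun j _ => by simp)
  simpa using this

lemma neg (h : Rep B μ D V n f) : Rep B μ D (-V) n (-f) := by
  simpa using h.smul (-1)

lemma mul (h : Rep B μ D V n f) (h' : Rep B μ D' V' n' f')
    (hD : ∀ i j, D i → D' j → D'' (i + j) ∧ μ (i + j) = μ i * μ j) :
    Rep B μ D'' (V * V') (n * n') (f * f') := by
  obtain ⟨t, a1, rfl, c1, rfl⟩ := h
  refine mono (n := (t.map fun p => p.1.natAbs).sum * n') ?_ (fun _ h => h)
    (Nat.mul_le_mul_right _ c1)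
  clear c1
  induction t with
  | nil => simpa using zero
  | cons p t ih =>
    have k := a1 p (by simp)
    simp only [List.map_cons, List.sum_cons, add_mul]
    exact (h'.shift p.1 p.2 (fun j hj => (hD _ j k hj).1) (fun j hj => (hD _ j k hj).2)).add
      (ih fun q hq => a1 q (by simp [hq]))

lemma coef (h : Rep B μ D V n f) {L : ℕ} (hL : ∀ k, D k → k < L) :
    ∃ r : ℕ → ℤ, V = ∑ k ∈ range L, r k * (B : ℤ) ^ k ∧ ∑ k ∈ range L, (r k).natAbs ≤ n ∧
      f = ∑ k ∈ range L, (r k : ℝ) * μ k := by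
  obtain ⟨t, a1, rfl, c1, rfl⟩ := h
  suffices ∃ r : ℕ → ℤ, (t.map fun p => p.1 * (B : ℤ) ^ p.2).sum =
      ∑ k ∈ range L, r k * (B : ℤ) ^ k ∧
      ∑ k ∈ range L, (r k).natAbs ≤ (t.map fun p => p.1.natAbs).sum ∧
      (t.map fun p => (p.1 : ℝ) * μ p.2).sum = ∑ k ∈ range L, (r k : ℝ) * μ k by
    obtain ⟨r, a, b, c⟩ := this
    exact ⟨r, a, b.trans c1, c⟩
  clear c1
  induction t with
  | nil => exact ⟨fun _ => 0, by simp, by simp, by simp⟩
  | cons p t ih =>
    obtain ⟨r, a, b, c⟩ := ih fun q hq => a1 q (by simp [hq])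
    have k : p.2 ∈ range L := mem_range.2 (hL _ (a1 p (by simp)))
    refine ⟨fun k => (if p.2 = k then p.1 else 0) + r k, ?_, ?_, ?_⟩
    · simp only [List.map_cons, List.sum_cons, add_mul, sum_add_distrib, a, ite_mul, zero_mul,
        sum_ite_eq, k, if_true]
    · refine (sum_le_sum fun k _ => Int.natAbs_add_le _ _).trans ?_
      simp only [List.map_cons, List.sum_cons, sum_add_distrib, apply_ite Int.natAbs,
        Int.natAbs_zero, sum_ite_eq, k, if_true]
      omega
    · simp only [List.map_cons, List.sum_cons, c]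
      push_cast
      simp only [add_mul, sum_add_distrib, ite_mul, zero_mul, sum_ite_eq, k, if_true]

end Rep

/-- the distance of two natural numbers -/
def ndist (a b : ℕ) : ℕ := Nat.add (Nat.sub a b) (Nat.sub b a)

/-- the sum of the distances to `H` of the first `L` digits in base `B` -/
def absSum (B H L : ℕ) : ℕ → ℕ :=
  Nat.rec (fun _ => 0) (fun _ ih U => Nat.add (ndist (Nat.mod U B) H) (ih (Nat.div U B))) L

/-- the number with `L` digits `H` in base `B` -/
def off (B H L : ℕ) : ℕ := Nat.rec 0 (fun _ ih => Nat.add H (Nat.mul B ih)) L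

lemma decode {B H : ℕ} (hB : H + H = B) (L : ℕ) : ∀ r : ℕ → ℤ, (∀ k < L, (r k).natAbs < H) →
    ∃ U : ℕ, (U : ℤ) = ∑ k ∈ range L, r k * (B : ℤ) ^ k + off B H L ∧
      absSum B H L U = ∑ k ∈ range L, (r k).natAbs ∧ (0 < L → ((U % B : ℕ) : ℤ) = r 0 + H) := by
  induction L with
  | zero => exact fun r _ => ⟨0, by simp [off], rfl, by simp⟩
  | succ L ih =>
    intro r hr
    obtain ⟨U, a, b, -⟩ := ih (fun k => r (k + 1)) fun k hk => hr _ (by omega)
    have h0 := hr 0 (by omega)
    obtain ⟨d, hd⟩ : ∃ d : ℕ, (d : ℤ) = r 0 + H := ⟨(r 0 + H).toNat, by omega⟩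
    have dB : d < B := by omega
    have m1 : (d + B * U) % B = d := by rw [Nat.add_mul_mod_self_left, Nat.mod_eq_of_lt dB]
    have m2 : (d + B * U) / B = U := by
      rw [Nat.add_mul_div_left _ _ (by omega), Nat.div_eq_of_lt dB, zero_add]
    refine ⟨d + B * U, ?_, ?_, fun _ => by rw [m1, hd]⟩
    · have : off B H (L + 1) = H + B * off B H L := rfl
      rw [this, sum_range_succ']
      push_cast
      rw [hd, a, mul_add, mul_sum]
      simp only [pow_succ, pow_zero]
      rw [sum_congr rfl fun k _ => show (B : ℤ) * (r (k + 1) * B ^ k) = r (k + 1) * (B ^ k * B) by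
        ring]
      ring
    · have : absSum B H (L + 1) (d + B * U) =
          ((d + B * U) % B - H + (H - (d + B * U) % B)) + absSum B H L ((d + B * U) / B) := rfl
      rw [this, m1, m2, b, sum_range_succ']
      omega

/-- what the digits say about a packed combination -/
lemma Rep.bound {B H L : ℕ} (hB : H + H = B) (hL0 : 0 < L) {μ : ℕ → ℝ} {D : ℕ → Prop} {V : ℤ}
    {n : ℕ} {f : ℝ} (h : Rep B μ D V n f) (hL : ∀ k, D k → k < L) (hn : n < H)
    (hμ : ∀ k, |μ k| ≤ 1) :
    |f| ≤ absSum B H L (ipos (iadd V (.ofNat (off B H L)))) ∧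
    (μ 0 = 1 → 2 * ((ipos (iadd V (.ofNat (off B H L))) % B : ℕ) - H : ℝ) -
      absSum B H L (ipos (iadd V (.ofNat (off B H L)))) ≤ f) := by
  obtain ⟨r, a, b, c⟩ := h.coef hL
  obtain ⟨U, a', b', c'⟩ := decode hB L r fun k hk =>
    ((single_le_sum (f := fun k => (r k).natAbs) (fun _ _ => Nat.zero_le _)
      (mem_range.2 hk)).trans b).trans_lt hn
  have e : ipos (iadd V (.ofNat (off B H L))) = U := by
    rw [ipos_eq, iadd_eq, a, Int.ofNat_eq_natCast, ← a', Int.toNat_natCast]
  have k : ∀ j, |(r j : ℝ) * μ j| ≤ (r j).natAbs := fun j => by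
    rw [abs_mul, Nat.cast_natAbs, Int.cast_abs]
    exact mul_le_of_le_one_right (abs_nonneg _) (hμ j)
  rw [e, b', c]
  refine ⟨(abs_sum_le_sum_abs _ _).trans ?_, fun h0 => ?_⟩
  · rw [Nat.cast_sum]; exact sum_le_sum fun j _ => k j
  · have c2 : ((U % B : ℕ) : ℝ) = r 0 + H := by
      have := c' hL0
      generalize U % B = d at this ⊢
      exact_mod_cast this
    obtain ⟨L, rfl⟩ : ∃ M, L = M + 1 := ⟨L - 1, by omega⟩
    rw [c2, Nat.cast_sum, sum_range_succ', sum_range_succ', h0]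
    have k1 : ∑ j ∈ range L, -(((r (j + 1)).natAbs : ℕ) : ℝ) ≤
        ∑ j ∈ range L, (r (j + 1) : ℝ) * μ (j + 1) :=
      sum_le_sum fun j _ => (abs_le.1 (k (j + 1))).1
    rw [sum_neg_distrib] at k1
    have k2 : (r 0 : ℝ) ≤ (r 0).natAbs := by
      rw [Nat.cast_natAbs, Int.cast_abs]; exact le_abs_self _
    linarith

end Pool.Agent.Lib.MP_fb520c_co.Chk
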