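import Pool.Agent.Lib.MP_fb520c_co.Chk.TMV
import Pool.Agent.Lib.MP_fb520c_co.Dent.Loc

/-! The enclosures of the speed, the velocity and the control of one cell. -/

set_option autoImplicit false

open Complex ComplexConjugate

noncomputable section

namespace Pool.Agent.Lib.MP_fb520c_co.Chk

open Pool.Agent.Lib.MP_fb520c_co.Dent

namespace TM

/-- imaginary part over `√3` -/
def yp (m : R10) (t : TM) : TM :=
  cmul m ⟨.ofNat 0, .negSucc 3074457345618258602⟩ 2 (sub m t t.cj)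

/-- bound of `|f - r ^ 2|` for `1 ≤ f ≤ S` -/
def sqrE (r S : ℕ) : ℕ :=
  nmax (Nat.sub S (Nat.shiftRight (Nat.mul r r) 64))
    (Nat.sub (up (Nat.mul r r)) 18446744073709551616)

/-- last step of the square root -/
def sqr1 (m : R10) (r : ℕ) (e : TM) : TM :=
  addRem m (add m (const ⟨.ofNat r, .ofNat 0⟩ 0)
      (cmul m ⟨.ofNat (Nat.div 170141183460469231731687303715884105728 r), .ofNat 0⟩ 1 e))
    ((mul m e e).absorb.smul 2305843009213693952 0 0)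

/-- square root of a real number `f ≥ 1` with the hint `r ≥ 1` -/
def sqr (m : R10) (r : ℕ) (t : TM) : TM :=
  sqr1 m r (setS m (sub m t (const ⟨.ofNat (Nat.shiftRight (Nat.mul r r) 64), .ofNat 0⟩ 1))
    (sqrE r t.S))

variable {m : R10} {d1 d2 d3 : ℂ} {s t : TM} {f g : ℂ}

theorem Valid.congr (h : Valid d1 d2 d3 t f) (e : f = g) : Valid d1 d2 d3 t g := e ▸ h

lemma val_real (k : ℕ) : (⟨.ofNat k, .ofNat 0⟩ : C).val = ((k / sc : ℝ) : ℂ) := by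
  apply Complex.ext
  · simp only [C.val, Complex.ofReal_re]; simp
  · simp only [C.val, Complex.ofReal_im]; simp

theorem Valid.yp (h : Env m d1 d2 d3) (ht : Valid d1 d2 d3 t f) :
    Valid d1 d2 d3 (yp m t) ((f.im / √3 : ℝ) : ℂ) := by
  have k : ‖(⟨0, -(√3 / 6)⟩ : ℂ) - (⟨.ofNat 0, .negSucc 3074457345618258602⟩ : C).val‖ ≤
      (2 : ℕ) / sc := by
    have e : (⟨0, -(√3 / 6)⟩ : ℂ) - (⟨.ofNat 0, .negSucc 3074457345618258602⟩ : C).val =
        ⟨0, √3 * (1 / 3 / sc)⟩ := by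
      apply Complex.ext
      · simp [C.val]
      · simp only [C.val, Complex.sub_im, Int.cast_negSucc, sc]; push_cast; ring
    have s0 := sc_pos
    rw [e]
    refine (Complex.norm_le_abs_re_add_abs_im _).trans ?_
    have : √3 ≤ (2 : ℝ) := Real.sqrt_le_iff.2 ⟨by norm_num, by norm_num⟩
    rw [abs_zero, zero_add, abs_of_nonneg (by positivity),
      show √3 * (1 / 3 / sc) = √3 / 3 / sc by ring]
    refine div_le_div_of_nonneg_right ?_ s0.le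
    push_cast; linarith
  refine ((ht.sub h ht.cj).cmul h k).congr ?_
  have s1 : √3 ≠ (0 : ℝ) := by positivity
  apply Complex.ext
  · simp only [Complex.mul_re, Complex.sub_re, Complex.sub_im, Complex.conj_re, Complex.conj_im,
      Complex.ofReal_re]
    field_simp
    linear_combination (2 * f.im) * C.s3
  · simp

lemma shr_le (a : ℕ) : ((Nat.shiftRight a 64 : ℕ) : ℝ) ≤ a / sc ∧
    (a : ℝ) / sc ≤ Nat.shiftRight a 64 + 1 := by
  refine ⟨?_, (up_ge a).trans_eq (Nat.cast_succ _)⟩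
  have e : Nat.shiftRight a 64 = a / 2 ^ 64 := Nat.shiftRight_eq_div_pow a 64
  rw [e, le_div_iff₀ sc_pos, sc]
  exact_mod_cast Nat.div_mul_le_self a (2 ^ 64)

lemma sqrE_aux (K : ℕ) (hK : (K : ℝ) = sc) (r S : ℕ) {F : ℝ} (hF : 1 ≤ F) (FS : F ≤ S / sc) :
    |F - r / sc * (r / sc)| ≤ nmax (Nat.sub S (Nat.shiftRight (Nat.mul r r) 64))
      (Nat.sub (up (Nat.mul r r)) K) / sc := by
  have s0 := sc_pos
  have k1 := (shr_le (Nat.mul r r)).1
  have k2 := up_ge (Nat.mul r r)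
  have e : (r : ℝ) / sc * (r / sc) = (Nat.mul r r : ℕ) / sc / sc := by
    rw [nmul]; push_cast; ring
  rw [e, nmax_eq]
  generalize Nat.shiftRight (Nat.mul r r) 64 = a at k1 ⊢
  generalize up (Nat.mul r r) = b at k2 ⊢
  generalize ((Nat.mul r r : ℕ) : ℝ) / sc = u at k1 k2 ⊢
  have m1 : (S : ℝ) ≤ a + (max (Nat.sub S a) (Nat.sub b K) : ℕ) := by
    rw [← Nat.cast_add, Nat.cast_le, Nat.sub_eq, Nat.sub_eq]; omega
  have m2 : (b : ℝ) ≤ sc + (max (Nat.sub S a) (Nat.sub b K) : ℕ) := by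
    rw [← hK, ← Nat.cast_add, Nat.cast_le, Nat.sub_eq, Nat.sub_eq]; omega
  rw [le_div_iff₀ s0] at FS
  rw [show F - u / sc = (F * sc - u) / sc by field_simp, abs_div, abs_of_pos s0]
  refine div_le_div_of_nonneg_right (abs_le.2 ⟨?_, ?_⟩) s0.le
  · nlinarith
  · linarith

lemma sqr_rem {F p : ℝ} (hF : 1 ≤ F) (hp : 1 ≤ p) :
    |√F - (p + 1 / (2 * p) * (F - p * p))| ≤ 1 / 8 * ((F - p * p) * (F - p * p)) := by
  have k0 : 1 ≤ √F := Real.one_le_sqrt.2 hF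
  have k1 := Real.mul_self_sqrt (zero_le_one.trans hF)
  generalize √F = s at k0 k1
  subst k1
  have e : s - (p + 1 / (2 * p) * (s * s - p * p)) = -((s - p) ^ 2 / (2 * p)) := by
    field_simp; ring
  rw [e, abs_neg, abs_of_nonneg (by positivity), div_le_iff₀ (by positivity)]
  have k2 : 4 ≤ (s + p) ^ 2 * p := by nlinarith
  nlinarith [mul_le_mul_of_nonneg_left k2 (sq_nonneg (s - p))]

lemma inv_err (K : ℕ) (hK : (K : ℝ) = sc * sc / 2) {r : ℕ} (hr : 0 < r) :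
    ‖((1 / (2 * (r / sc)) : ℝ) : ℂ) - (⟨.ofNat (Nat.div K r), .ofNat 0⟩ : C).val‖ ≤
      (1 : ℕ) / sc := by
  have s0 := sc_pos
  have r0 : (0 : ℝ) < r := Nat.cast_pos.2 hr
  have k1 := R10.div_ge K r hr
  have k2 : ((K / r : ℕ) : ℝ) ≤ K / r := Nat.cast_div_le
  rw [val_real, ← Complex.ofReal_sub, Complex.norm_real, Real.norm_eq_abs,
    show 1 / (2 * (r / sc)) - (Nat.div K r : ℕ) / sc = (K / r - (K / r : ℕ)) / sc by
      rw [hK, show Nat.div K r = K / r from rfl]; field_simp,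
    abs_div, abs_of_pos s0]
  refine div_le_div_of_nonneg_right (abs_le.2 ⟨?_, ?_⟩) s0.le <;> push_cast at k1 ⊢ <;> linarith

lemma c127 : ((170141183460469231731687303715884105728 : ℕ) : ℝ) = sc * sc / 2 := by norm_num [sc]

lemma c8 : ((2305843009213693952 : ℕ) : ℝ) / sc = 1 / 8 := by norm_num [sc]

lemma valid_sqr1 (h : Env m d1 d2 d3) {r : ℕ} (hr : 1 ≤ r / sc) {F : ℝ} (hF : 1 ≤ F)
    (v2 : Valid d1 d2 d3 t ((F - r / sc * (r / sc) : ℝ) : ℂ)) :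
    Valid d1 d2 d3 (sqr1 m r t) ((√F : ℝ) : ℂ) := by
  have r0 : 0 < r := Nat.pos_of_ne_zero fun e => by rw [e] at hr; norm_num at hr
  have c1 : Valid d1 d2 d3 (TM.const ⟨.ofNat r, .ofNat 0⟩ 0) ((r / sc : ℝ) : ℂ) :=
    Valid.const (by rw [val_real]; simp)
  refine (c1.add h (v2.cmul h (inv_err _ c127 r0))).addRem h ?_
  refine le_trans ?_ (R10.ev_smul _ _ _ _ (norm_nonneg _) (norm_nonneg _) (norm_nonneg _))
  have v4 := (v2.mul h v2).absorb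
  rw [← Complex.ofReal_mul, Complex.norm_real, Real.norm_eq_abs, abs_mul_self] at v4
  rw [c8, ← Complex.ofReal_mul, ← Complex.ofReal_add, ← Complex.ofReal_sub, Complex.norm_real,
    Real.norm_eq_abs, Nat.cast_zero, zero_div, zero_mul, add_zero, add_zero]
  linarith [sqr_rem hF hr]

theorem Valid.sqr (h : Env m d1 d2 d3) {r : ℕ} (hr : 1 ≤ r / sc) {F : ℝ} (hF : 1 ≤ F)
    (ht : Valid d1 d2 d3 t (F : ℂ)) : Valid d1 d2 d3 (sqr m r t) ((√F : ℝ) : ℂ) := by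
  have s0 := sc_pos
  have FS : F ≤ t.S / sc := by
    have := ht.S
    rwa [Complex.norm_real, Real.norm_eq_abs, abs_of_pos (zero_lt_one.trans_le hF)] at this
  have c1 : Valid d1 d2 d3 (TM.const ⟨.ofNat (Nat.shiftRight (Nat.mul r r) 64), .ofNat 0⟩ 1)
      ((r / sc * (r / sc) : ℝ) : ℂ) := by
    refine Valid.const ?_
    obtain ⟨k1, k2⟩ := shr_le (Nat.mul r r)
    have e : (r : ℝ) / sc * (r / sc) = (Nat.mul r r : ℕ) / sc / sc := by
      rw [nmul]; push_cast; ring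
    rw [val_real, ← Complex.ofReal_sub, Complex.norm_real, Real.norm_eq_abs, e, ← sub_div, abs_div,
      abs_of_pos s0]
    refine div_le_div_of_nonneg_right (abs_le.2 ⟨?_, ?_⟩) s0.le <;> push_cast <;> linarith
  have v1 := ht.sub h c1
  rw [← Complex.ofReal_sub] at v1
  exact valid_sqr1 h hr hF (v1.setS h (by
    rw [Complex.norm_real, Real.norm_eq_abs]; exact sqrE_aux _ sc_eq r t.S hF FS))

theorem Valid.tiny (h : Env m d1 d2 d3) (ht : Valid d1 d2 d3 t f) {e : ℕ}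
    (hg : ‖g - f‖ ≤ e / sc) : Valid d1 d2 d3 (TM.addRem m t (.cst e)) g :=
  ht.addRem h (hg.trans_eq (R10.ev_cst e).symm)

end TM

/-- the integer data of a run: reference values, radii, a priori bounds, `h ^ 2 / 4`, constants -/
structure RD where
  c1 : C
  c2 : C
  c3 : C
  M1 : ℕ
  M2 : ℕ
  M3 : ℕ
  Be : ℕ
  Pb : ℕ
  Db : ℕ
  Rb : ℕ
  h4 : ℕ
  U1 : C
  U2 : C
  Ua : C
  ka : C
  Tc : ℤ
  sT : ℕ
  BZ : ℕ
  BW : ℕ

namespace RD

variable (d : RD)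

/-- the box -/
def m : R10 := R10.box d.M1 d.M2 d.M3
/-- `h ^ 2 / 2` -/
def h2 : ℕ := Nat.mul 2 d.h4
/-- `h ^ 2` -/
def h1 : ℕ := Nat.mul 4 d.h4
/-- bound of `r1` -/
def r1b : ℕ := up (Nat.mul d.Be d.Pb)
/-- bound of `r2` -/
def r2b : ℕ := Nat.add (up (Nat.mul d.Be d.Db)) (up (Nat.mul d.Pb d.Pb))
/-- error of `r1` -/
def t1 : ℕ := up (Nat.mul d.h2 (up (Nat.mul d.r1b d.r2b)))
/-- bound of `h ^ 2 r2 ^ 2 / 4` -/
def t3 : ℕ := up (Nat.mul d.h4 (up (Nat.mul d.r2b d.r2b)))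
/-- bound of `|h ^ 4 r2 ^ 2 / 4 - h ^ 2 r1 ^ 2|` -/
def t2 : ℕ := up (Nat.mul d.h1 (nmax d.t3 (up (Nat.mul d.r1b d.r1b))))
/-- `b0` -/
def b : TM := .var1 d.c1 d.Be
/-- `P` -/
def p : TM := .var2 d.c2 d.Pb
/-- `D` -/
def q : TM := .var3 d.c3 d.Db
/-- `1 + |b0| ^ 2` -/
def f0 : TM := .add d.m (.const .one 0) (.mul d.m d.b d.b.cj)
/-- the square of the hint -/
def q0 : ℕ := Nat.mul 18446744073709551616 (ipos d.f0.c.x)
/-- hint for the square root -/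
def hr : ℕ := nmax (newt d.q0 (newt d.q0 (newt d.q0 18446744073709551616))) 18446744073709551616
/-- `1 / r0` -/
def i0 : TM := .isq d.m (Nat.div 340282366920938463463374607431768211456 d.hr) d.f0
/-- `r0` -/
def r0 : TM := .setS d.m (.sqr d.m d.hr d.f0) d.Rb
/-- `bM` -/
def bM : TM := .setS d.m (.add d.m d.b (.rmul d.m (.ofNat d.h2) d.q)) d.Be
/-- `r1` -/
def r1 : TM :=
  .setS d.m (.addRem d.m (.mul d.m d.i0 (.re d.m (.mul d.m d.bM.cj d.p))) (.cst d.t1)) d.r1b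
/-- `r0 r2 - re (conj b0 D)` -/
def g2 : TM := .addRem d.m (.sub d.m (.add d.m (.mul d.m d.p d.p.cj)
  (.rmul d.m (.ofNat d.h4) (.mul d.m d.q d.q.cj))) (.mul d.m d.r1 d.r1)) (.cst d.t3)
/-- `r0 r2` -/
def rr : TM := .add d.m (.re d.m (.mul d.m d.b.cj d.q)) d.g2
/-- `ra` -/
def ra : TM :=
  .setS d.m (.add d.m d.r0 (.rmul d.m (.ofNat d.h2) (.mul d.m d.i0 d.rr))) d.Rb
/-- `r0 (r1 D - r2 P)` up to the error of `r1` -/
def K : TM := .sub d.m (.add d.m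
  (.rmul d.m (.ofNat 9223372036854775808) (.sub d.m (.mul d.m (.mul d.m d.b d.p.cj) d.q)
    (.mul d.m (.mul d.m d.b d.p) d.q.cj)))
  (.rmul d.m (.ofNat d.h2) (.mul d.m (.re d.m (.mul d.m d.q.cj d.p)) d.q))) (.mul d.m d.g2 d.p)
/-- `W` -/
def W : TM := .setS d.m (.sub d.m (.add d.m
  (.cmul d.m d.U1.cj 2 (.sub d.m (.mul d.m d.ra d.q)
    (.rmul d.m (.ofNat 36893488147419103232) (.mul d.m d.r1 d.p))))
  (.cmul d.m d.Ua.cj 2 (.addRem d.m (.mul d.m d.i0 d.K) (.cst (up (Nat.mul d.t1 d.Db))))))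
  (.cmul d.m d.U2.cj 2 (.mul d.m d.r0 d.p))) d.BW
/-- `sig` -/
def sg : TM := .add d.m (.cmul d.m d.U1 2 d.ra) (.cmul d.m d.Ua 2 d.r1)
/-- `aM` -/
def aM : TM := .add d.m (.cmul d.m d.Ua 2 d.ra) (.rmul d.m (.ofNat d.h1) (.cmul d.m d.U1 2 d.r1))
/-- `Z` -/
def Z : TM := .setS d.m (.sub d.m (.mul d.m d.aM.cj d.p) (.mul d.m d.bM d.sg.cj)) d.BZ
/-- `Th - Tc` -/
def T : TM := .setS d.m (.sub d.m (.sub d.m
  (.cmul d.m d.ka 2 (.addRem d.m (.add d.m d.f0 (.rmul d.m (.ofNat d.h1) d.rr)) (.cst d.t2)))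
  (.yp d.m (.mul d.m d.bM d.p.cj))) (.const ⟨d.Tc, .ofNat 0⟩ 0)) d.sT

/-- what is needed about the true values -/
structure OK (L : Loc) : Prop where
  h0 : L.h ≠ 0
  hh : L.h ^ 2 / 4 = d.h4 / sc
  U1 : ‖L.U1 - d.U1.val‖ ≤ (2 : ℕ) / sc
  U2 : ‖L.U2 - d.U2.val‖ ≤ (2 : ℕ) / sc
  Ua : ‖L.Ua - d.Ua.val‖ ≤ (2 : ℕ) / sc
  ka : ‖((cr L.um L.up / (2 * L.h) / √3 : ℝ) : ℂ) - d.ka.val‖ ≤ (2 : ℕ) / sc
  M1 : ‖L.b0 - d.c1.val‖ ≤ d.M1 / sc
  M2 : ‖L.P - d.c2.val‖ ≤ d.M2 / sc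
  M3 : ‖L.D - d.c3.val‖ ≤ d.M3 / sc
  b0 : ‖L.b0‖ ≤ d.Be / sc
  bM : ‖L.bM‖ ≤ d.Be / sc
  P : ‖L.P‖ ≤ d.Pb / sc
  D : ‖L.D‖ ≤ d.Db / sc
  r1 : |L.r1| ≤ d.Be / sc * (d.Pb / sc)
  r2 : |L.r2| ≤ d.Be / sc * (d.Db / sc) + d.Pb / sc * (d.Pb / sc)
  r0 : L.r0 ≤ d.Rb / sc
  ra : |L.ra| ≤ d.Rb / sc
  T : |L.Th - d.Tc / sc| ≤ d.sT / sc
  Z : ‖L.Z‖ ≤ d.BZ / sc
  W : ‖L.W‖ ≤ d.BW / sc

variable {d} {L : Loc}

lemma mul_up' {u : ℝ} {a b : ℕ} (h : u ≤ a / sc * (b / sc)) : u ≤ up (Nat.mul a b) / sc :=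
  h.trans (TM.mul_up (div_nonneg b.cast_nonneg sc_pos.le) le_rfl le_rfl)

lemma cj_err {u : ℂ} {c : C} {e : ℝ} (h : ‖u - c.val‖ ≤ e) : ‖conj u - c.cj.val‖ ≤ e := by
  rwa [C.val_cj, ← map_sub, Complex.norm_conj]

lemma ofNat_cast (k : ℕ) {a : ℝ} (h : a = k / sc) :
    (((Int.ofNat k : ℤ) / sc : ℝ) : ℂ) = (a : ℂ) := by rw [h]; simp

lemma two : (((Int.ofNat 36893488147419103232 : ℤ) / sc : ℝ) : ℂ) = 2 := by
  have : ((Int.ofNat 36893488147419103232 : ℤ) / sc : ℝ) = 2 := by norm_num [sc]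
  rw [this]; rfl

lemma Th_eq (h0 : L.h ≠ 0) : L.Th = cr L.um L.up / (2 * L.h) / √3 *
    (L.ra ^ 2 - L.h ^ 2 * L.r1 ^ 2) - (L.bM * conj L.P).im / √3 := by
  have e : cr L.um L.up = 2 * L.h * cr L.Ua L.U1 := by
    rw [L.up_eq h0, L.um_eq h0]
    simp only [cr, Complex.add_re, Complex.add_im, Complex.sub_re, Complex.sub_im, Complex.mul_re,
      Complex.mul_im, Complex.ofReal_re, Complex.ofReal_im]
    ring
  have e2 : (conj L.aM * L.sig).im = cr L.Ua L.U1 * (L.ra ^ 2 - L.h ^ 2 * L.r1 ^ 2) := by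
    rw [Loc.aM, Loc.sig, ← Complex.ofReal_pow]
    simp only [cr, Complex.add_re, Complex.add_im, Complex.mul_re, Complex.mul_im,
      Complex.ofReal_re, Complex.ofReal_im, Complex.conj_re, Complex.conj_im]
    ring
  rw [Loc.Th, Loc.T, Complex.sub_im, e2, e]
  field_simp

theorem OK.valid (H : d.OK L) :
    TM.Valid (L.b0 - d.c1.val) (L.P - d.c2.val) (L.D - d.c3.val) d.T
      ((L.Th - d.Tc / sc : ℝ) : ℂ) ∧
    TM.Valid (L.b0 - d.c1.val) (L.P - d.c2.val) (L.D - d.c3.val) d.Z L.Z ∧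
    TM.Valid (L.b0 - d.c1.val) (L.P - d.c2.val) (L.D - d.c3.val) d.W L.W := by
  have s0 := sc_pos
  have h : Env d.m (L.b0 - d.c1.val) (L.P - d.c2.val) (L.D - d.c3.val) := Env.box H.M1 H.M2 H.M3
  generalize e1 : L.b0 - d.c1.val = d1 at h
  generalize e2 : L.P - d.c2.val = d2 at h
  generalize e3 : L.D - d.c3.val = d3 at h
  have e1' : d.c1.val + d1 = L.b0 := by rw [← e1]; ring
  have e2' : d.c2.val + d2 = L.P := by rw [← e2]; ring
  have e3' : d.c3.val + d3 = L.D := by rw [← e3]; ring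
  have hh4 := ofNat_cast _ H.hh
  have k2 : L.h ^ 2 / 2 = d.h2 / sc := by
    rw [h2, nmul]; push_cast; linear_combination 2 * H.hh
  have k1 : L.h ^ 2 = d.h1 / sc := by rw [h1, nmul]; push_cast; linear_combination 4 * H.hh
  have hh2 := ofNat_cast _ k2
  have hh1 := ofNat_cast _ k1
  have r00 : 1 ≤ L.r0 := one_le_rho _
  have r0c : (L.r0 : ℂ) ≠ 0 := Complex.ofReal_ne_zero.2 (by linarith)
  have br1 : |L.r1| ≤ d.r1b / sc := mul_up' H.r1
  have br2 : |L.r2| ≤ d.r2b / sc := by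
    rw [r2b, nadd, Nat.cast_add, add_div]
    exact H.r2.trans (add_le_add (mul_up' le_rfl) (mul_up' le_rfl))
  have bt1 : |L.r1 - 1 / L.r0 * (conj L.bM * L.P).re| ≤ d.t1 / sc := by
    have e : L.r1 - 1 / L.r0 * (conj L.bM * L.P).re = -(L.h ^ 2 / 2 * (L.r1 * L.r2) / L.r0) := by
      rw [← L.r1_eq H.h0, Loc.ra]; field_simp; ring
    rw [e, abs_neg, abs_div, abs_mul, abs_mul, abs_of_nonneg (by positivity : 0 ≤ L.h ^ 2 / 2),
      abs_of_pos (by linarith : 0 < L.r0)]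
    refine (div_le_self (by positivity) r00).trans ?_
    exact TM.mul_up (by positivity) k2.le (TM.mul_up (abs_nonneg _) br1 br2)
  have bt3 : L.h ^ 2 / 4 * (L.r2 * L.r2) ≤ d.t3 / sc := by
    rw [← abs_mul_abs_self]
    exact TM.mul_up (by positivity) H.hh.le (TM.mul_up (abs_nonneg _) br2 br2)
  have vb : TM.Valid d1 d2 d3 d.b L.b0 := (TM.Valid.var1 (e1' ▸ H.b0)).congr e1'
  have vp : TM.Valid d1 d2 d3 d.p L.P := (TM.Valid.var2 (e2' ▸ H.P)).congr e2'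
  have vq : TM.Valid d1 d2 d3 d.q L.D := (TM.Valid.var3 (e3' ▸ H.D)).congr e3'
  have c1 : TM.Valid d1 d2 d3 (TM.const .one 0) 1 := TM.Valid.const (by simp)
  have F1 : 1 ≤ 1 + ‖L.b0‖ ^ 2 := by nlinarith [sq_nonneg ‖L.b0‖]
  have vf : TM.Valid d1 d2 d3 d.f0 ((1 + ‖L.b0‖ ^ 2 : ℝ) : ℂ) :=
    (c1.add h (vb.mul h vb.cj)).congr (by
      rw [Complex.mul_conj, Complex.normSq_eq_norm_sq]; push_cast; rfl)
  have vi : TM.Valid d1 d2 d3 d.i0 ((1 / L.r0 : ℝ) : ℂ) := vf.isq h _ F1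
  have hr1 : 1 ≤ (d.hr : ℝ) / sc := by
    rw [le_div_iff₀ s0, one_mul, ← sc_eq, Nat.cast_le, hr, nmax_eq]
    exact le_max_right _ _
  have vr0 : TM.Valid d1 d2 d3 d.r0 (L.r0 : ℂ) := (vf.sqr h hr1 F1).setS h (by
    rw [Complex.norm_real, Real.norm_eq_abs, abs_of_nonneg (Real.sqrt_nonneg _)]; exact H.r0)
  have vM : TM.Valid d1 d2 d3 d.bM L.bM :=
    ((vb.add h (vq.rmul h _)).congr (by rw [hh2, Loc.bM]; push_cast; ring)).setS h H.bM
  have vr1 : TM.Valid d1 d2 d3 d.r1 (L.r1 : ℂ) :=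
    ((vi.mul h ((vM.cj.mul h vp).re h)).tiny h (by
      rwa [← Complex.ofReal_mul, ← Complex.ofReal_sub, Complex.norm_real, Real.norm_eq_abs])).setS h
      (by rwa [Complex.norm_real, Real.norm_eq_abs])
  have vg : TM.Valid d1 d2 d3 d.g2 ((L.r0 * L.r2 - (conj L.b0 * L.D).re : ℝ) : ℂ) :=
    (((vp.mul h vp.cj).add h ((vq.mul h vq.cj).rmul h _)).sub h (vr1.mul h vr1)).tiny h (by
      rw [hh4, Complex.mul_conj, Complex.mul_conj, Complex.normSq_eq_norm_sq,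
        Complex.normSq_eq_norm_sq, ← Complex.ofReal_mul, ← Complex.ofReal_mul,
        ← Complex.ofReal_add, ← Complex.ofReal_sub, ← Complex.ofReal_sub, Complex.norm_real,
        Real.norm_eq_abs, L.r2_eq H.h0, abs_le]
      constructor <;> nlinarith [mul_nonneg (sq_nonneg L.h) (mul_self_nonneg L.r2)])
  have vrr : TM.Valid d1 d2 d3 d.rr ((L.r0 * L.r2 : ℝ) : ℂ) :=
    (((vb.cj.mul h vq).re h).add h vg).congr (by push_cast; ring)
  have vra : TM.Valid d1 d2 d3 d.ra (L.ra : ℂ) :=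
    ((vr0.add h ((vi.mul h vrr).rmul h _)).congr (by
      rw [hh2, Loc.ra]; push_cast; field_simp)).setS h
      (by rw [Complex.norm_real, Real.norm_eq_abs]; exact H.ra)
  have vK : TM.Valid d1 d2 d3 d.K (((conj L.bM * L.P).re : ℝ) * L.D - (L.r0 * L.r2 : ℝ) * L.P) :=
    ((((((vb.mul h vp.cj).mul h vq).sub h ((vb.mul h vp).mul h vq.cj)).rmul h _).add h
      ((((vq.cj.mul h vp).re h).mul h vq).rmul h _)).sub h (vg.mul h vp)).congr (by
      rw [TM.half, hh2, Complex.ofReal_sub, Complex.re_eq_add_conj, Complex.re_eq_add_conj,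
        Complex.re_eq_add_conj, Loc.bM]
      simp only [map_mul, map_add, map_div₀, map_pow, Complex.conj_conj, Complex.conj_ofReal,
        map_ofNat]
      push_cast; ring)
  have vK' := (vi.mul h vK).tiny h (g := L.r1 * L.D - L.r2 * L.P) (e := up (Nat.mul d.t1 d.Db)) (by
    rw [show L.r1 * L.D - L.r2 * L.P - ((1 / L.r0 : ℝ) : ℂ) *
        (((conj L.bM * L.P).re : ℝ) * L.D - (L.r0 * L.r2 : ℝ) * L.P) =
        ((L.r1 - 1 / L.r0 * (conj L.bM * L.P).re : ℝ) : ℂ) * L.D by push_cast; field_simp; ring,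
      norm_mul, Complex.norm_real, Real.norm_eq_abs]
    exact TM.mul_up (norm_nonneg _) bt1 H.D)
  have vW : TM.Valid d1 d2 d3 d.W L.W :=
    ((((((vra.mul h vq).sub h ((vr1.mul h vp).rmul h _)).cmul h (cj_err H.U1)).add h
      (vK'.cmul h (cj_err H.Ua))).sub h ((vr0.mul h vp).cmul h (cj_err H.U2))).congr (by
      rw [two, Loc.W, Loc.sig, Loc.ze]
      simp only [map_mul, map_add, Complex.conj_ofReal, map_ofNat]
      ring)).setS h H.W
  have vsg : TM.Valid d1 d2 d3 d.sg L.sig :=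
    ((vra.cmul h H.U1).add h (vr1.cmul h H.Ua)).congr (by rw [Loc.sig]; ring)
  have vaM : TM.Valid d1 d2 d3 d.aM L.aM :=
    ((vra.cmul h H.Ua).add h ((vr1.cmul h H.U1).rmul h _)).congr (by
      rw [hh1, Loc.aM]; push_cast; ring)
  have vZ : TM.Valid d1 d2 d3 d.Z L.Z := ((vaM.cj.mul h vp).sub h (vM.mul h vsg.cj)).setS h H.Z
  have vF := (vf.add h (vrr.rmul h (.ofNat d.h1))).tiny h
    (g := ((L.ra ^ 2 - L.h ^ 2 * L.r1 ^ 2 : ℝ) : ℂ)) (e := d.t2) (by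
      have e : L.ra ^ 2 - L.h ^ 2 * L.r1 ^ 2 - (1 + ‖L.b0‖ ^ 2 + L.h ^ 2 * (L.r0 * L.r2)) =
          L.h ^ 2 * (L.h ^ 2 / 4 * (L.r2 * L.r2) - L.r1 * L.r1) := by
        rw [← rho_sq, Loc.ra, Loc.r0]; ring
      rw [hh1, ← Complex.ofReal_mul, ← Complex.ofReal_add, ← Complex.ofReal_sub, Complex.norm_real,
        Real.norm_eq_abs, e, abs_mul, abs_of_nonneg (sq_nonneg _)]
      refine TM.mul_up (abs_nonneg _) k1.le ?_
      have m1 : L.r1 * L.r1 ≤ up (Nat.mul d.r1b d.r1b) / sc := by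
        rw [← abs_mul_abs_self]; exact TM.mul_up (abs_nonneg _) br1 br1
      have m2 : ((d.t3 : ℕ) : ℝ) / sc ≤ nmax d.t3 (up (Nat.mul d.r1b d.r1b)) / sc := by
        rw [nmax_eq]; gcongr; exact le_max_left _ _
      have m3 : ((up (Nat.mul d.r1b d.r1b) : ℕ) : ℝ) / sc ≤
          nmax d.t3 (up (Nat.mul d.r1b d.r1b)) / sc := by
        rw [nmax_eq]; gcongr; exact le_max_right _ _
      have m4 : 0 ≤ L.h ^ 2 / 4 * (L.r2 * L.r2) :=
        mul_nonneg (by positivity) (mul_self_nonneg _)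
      exact abs_le.2 ⟨by linarith, by linarith [mul_self_nonneg L.r1]⟩)
  have cT : TM.Valid d1 d2 d3 (TM.const ⟨d.Tc, .ofNat 0⟩ 0) ((d.Tc / sc : ℝ) : ℂ) :=
    TM.Valid.const (by
      rw [show (⟨d.Tc, .ofNat 0⟩ : C).val = ((d.Tc / sc : ℝ) : ℂ) from
        Complex.ext rfl (by simp only [C.val, Complex.ofReal_im]; simp)]
      simp)
  have vT : TM.Valid d1 d2 d3 d.T ((L.Th - d.Tc / sc : ℝ) : ℂ) :=
    ((((vF.cmul h H.ka).sub h ((vM.mul h vp.cj).yp h)).sub h cT).congr (by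
      rw [Th_eq H.h0, ← Complex.ofReal_mul, ← Complex.ofReal_sub, ← Complex.ofReal_sub])).setS h
      (by rw [Complex.norm_real, Real.norm_eq_abs]; exact H.T)
  exact ⟨vT, vZ, vW⟩

end RD

end Pool.Agent.Lib.MP_fb520c_co.Chk
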