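import Pool.Agent.Lib.MP_fb520c_co.Chk.Run1
import Pool.Agent.Lib.MP_fb520c_co.Chk.PSD

/-! From a quadratic inequality for the true values to one for the affine parts. -/

set_option autoImplicit false

open Complex ComplexConjugate

noncomputable section

namespace Pool.Agent.Lib.MP_fb520c_co.Chk

open Pool.Agent.Lib.MP_fb520c_co.Dent

/-- the number `x + y √(-3)` -/
def C.raw (a : C) : ℂ := ⟨a.x, √3 * a.y⟩

lemma C.raw_le (a : C) : ‖a.raw‖ ≤ a.nrm := by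
  have s0 := sc_pos
  have e : a.raw = (sc : ℂ) * a.val := by
    apply Complex.ext <;> simp [C.raw, C.val] <;> field_simp
  rw [e, norm_mul, Complex.norm_real, Real.norm_eq_abs, abs_of_pos s0, mul_comm, ← le_div_iff₀ s0]
  exact a.nrm_ge

/-- the coefficients of a quadratic polynomial in a real and two complex numbers -/
structure QC where
  q0 : ℤ
  q1 : ℤ
  q6 : ℤ
  q11 : ℤ
  q18 : ℤ
  gz : C
  gw : C
  a : C
  b : C
  c : C
  e : C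
  f : C
  k : C

namespace QC

variable (q : QC)

/-- `-3 y` -/
def m3 (y : ℤ) : ℤ := iopp (inmul 3 y)
/-- coefficient of `zx` -/
def m02 : ℤ := q.gz.x
/-- coefficient of `zy` -/
def m03 : ℤ := m3 q.gz.y
/-- coefficient of `wx` -/
def m04 : ℤ := q.gw.x
/-- coefficient of `wy` -/
def m05 : ℤ := m3 q.gw.y
/-- coefficient of `t zx` -/
def m12 : ℤ := q.a.x
/-- coefficient of `t zy` -/
def m13 : ℤ := m3 q.a.y
/-- coefficient of `t wx` -/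
def m14 : ℤ := q.b.x
/-- coefficient of `t wy` -/
def m15 : ℤ := m3 q.b.y
/-- coefficient of `zx ^ 2` -/
def n22 : ℤ := iadd q.q11 q.c.x
/-- coefficient of `zx zy` -/
def m23 : ℤ := iopp (inmul 6 q.c.y)
/-- coefficient of `zy ^ 2` -/
def n33 : ℤ := inmul 3 (isub q.q11 q.c.x)
/-- coefficient of `zx wx` -/
def m24 : ℤ := iadd q.e.x q.f.x
/-- coefficient of `zx wy` -/
def m25 : ℤ := inmul 3 (isub q.e.y q.f.y)
/-- coefficient of `zy wx` -/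
def m34 : ℤ := m3 (iadd q.e.y q.f.y)
/-- coefficient of `zy wy` -/
def m35 : ℤ := inmul 3 (isub q.e.x q.f.x)
/-- coefficient of `wx ^ 2` -/
def n44 : ℤ := iadd q.q18 q.k.x
/-- coefficient of `wx wy` -/
def m45 : ℤ := iopp (inmul 6 q.k.y)
/-- coefficient of `wy ^ 2` -/
def n55 : ℤ := inmul 3 (isub q.q18 q.k.x)

/-- the value in real coordinates -/
def Qv (t zx zy wx wy : ℝ) : ℝ :=
  q.q0 + q.q1 * t + q.m02 * zx + q.m03 * zy + q.m04 * wx + q.m05 * wy + q.q6 * t ^ 2 +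
    q.m12 * t * zx + q.m13 * t * zy + q.m14 * t * wx + q.m15 * t * wy + q.n22 * zx ^ 2 +
    q.m23 * zx * zy + q.n33 * zy ^ 2 + q.m24 * zx * wx + q.m25 * zx * wy + q.m34 * zy * wx +
    q.m35 * zy * wy + q.n44 * wx ^ 2 + q.m45 * wx * wy + q.n55 * wy ^ 2

/-- bound of the derivative in `t` -/
def gT (bt bz bw : ℕ) : ℕ := Nat.add (iabs q.q1) (up (Nat.add (Nat.add
  (Nat.mul (Nat.mul 2 (iabs q.q6)) bt) (Nat.mul q.a.nrm bz)) (Nat.mul q.b.nrm bw)))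
/-- bound of the derivative in `Z` -/
def gZ (bt bz bw : ℕ) : ℕ := Nat.add q.gz.nrm (up (Nat.add (Nat.add (Nat.mul q.a.nrm bt)
  (Nat.mul (Nat.mul 2 (Nat.add (iabs q.q11) q.c.nrm)) bz)) (Nat.mul (Nat.add q.e.nrm q.f.nrm) bw)))
/-- bound of the derivative in `W` -/
def gW (bt bz bw : ℕ) : ℕ := Nat.add q.gw.nrm (up (Nat.add (Nat.add (Nat.mul q.b.nrm bt)
  (Nat.mul (Nat.add q.e.nrm q.f.nrm) bz)) (Nat.mul (Nat.mul 2 (Nat.add (iabs q.q18) q.k.nrm)) bw)))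

lemma diff (t t' : ℝ) (Z Z' W W' : ℂ) :
    q.Qv t Z.re (Z.im / √3) W.re (W.im / √3) - q.Qv t' Z'.re (Z'.im / √3) W'.re (W'.im / √3) =
    (((t - t' : ℝ) : ℂ) * ((q.q1 : ℝ) + ((2 * q.q6 : ℝ) * ((t + t') / 2 : ℝ) +
      q.a.raw * ((Z + Z') / 2) + q.b.raw * ((W + W') / 2)))).re +
    ((Z - Z') * (q.gz.raw + (q.a.raw * ((t + t') / 2 : ℝ) +
      2 * ((q.q11 : ℝ) * conj ((Z + Z') / 2) + q.c.raw * ((Z + Z') / 2)) +
      (q.e.raw * conj ((W + W') / 2) + q.f.raw * ((W + W') / 2))))).re +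
    ((W - W') * (q.gw.raw + (q.b.raw * ((t + t') / 2 : ℝ) +
      (conj q.e.raw * conj ((Z + Z') / 2) + q.f.raw * ((Z + Z') / 2)) +
      2 * ((q.q18 : ℝ) * conj ((W + W') / 2) + q.k.raw * ((W + W') / 2))))).re := by
  have k' : ∀ u : ℝ, u = √3 * (u / √3) := fun u => by field_simp
  have e : ∀ z : ℂ, z = ⟨z.re, √3 * (z.im / √3)⟩ := fun z => Complex.ext rfl (k' _)
  rw [e Z, e Z', e W, e W']
  generalize Z.im / √3 = zy
  generalize Z'.im / √3 = zy'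
  generalize W.im / √3 = wy
  generalize W'.im / √3 = wy'
  have s1 : √3 ≠ (0 : ℝ) := by positivity
  simp only [Qv, m3, m02, m03, m04, m05, m12, m13, m14, m15, n22, m23, n33, m24, m25, m34, m35, n44,
    m45, n55, C.raw, iadd_eq, isub_eq, iopp_eq, inmul_eq, mul_div_cancel_left₀ _ s1,
    Complex.add_re, Complex.add_im, Complex.sub_re, Complex.sub_im, Complex.mul_re, Complex.mul_im,
    Complex.ofReal_re, Complex.ofReal_im, Complex.conj_re, Complex.conj_im, Complex.div_ofNat_re,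
    Complex.div_ofNat_im, Complex.re_ofNat, Complex.im_ofNat]
  push_cast
  have s2 : √3 ^ 2 = (3 : ℝ) := Real.sq_sqrt (by norm_num)
  ring_nf
  rw [s2]
  ring

lemma iabs_le (k : ℤ) : ‖((k : ℝ) : ℂ)‖ ≤ iabs k := by
  rw [Complex.norm_real, Real.norm_eq_abs, iabs_eq, Nat.cast_natAbs, Int.cast_abs]

lemma nmul_le {u v : ℂ} {a b : ℝ} (hu : ‖u‖ ≤ a) (hv : ‖v‖ ≤ b) : ‖u * v‖ ≤ a * b := by
  rw [norm_mul]; exact mul_le_mul hu hv (norm_nonneg _) ((norm_nonneg _).trans hu)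

lemma nadd_le {u v : ℂ} {a b : ℝ} (hu : ‖u‖ ≤ a) (hv : ‖v‖ ≤ b) : ‖u + v‖ ≤ a + b :=
  (norm_add_le _ _).trans (add_le_add hu hv)

lemma le_up {u : ℝ} {g n : ℕ} {v : ℝ} (h : v = n / sc) (hu : u ≤ g + v) :
    u ≤ (Nat.add g (up n) : ℕ) := by
  rw [nadd, Nat.cast_add]; linarith [up_ge n]

lemma grad {t t' : ℝ} {Z Z' W W' : ℂ} {bt bz bw : ℕ} (ht : ‖(((t + t') / 2 : ℝ) : ℂ)‖ ≤ bt / sc)
    (hz : ‖(Z + Z') / 2‖ ≤ bz / sc) (hw : ‖(W + W') / 2‖ ≤ bw / sc) {rt rz rw : ℝ}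
    (kt : ‖((t - t' : ℝ) : ℂ)‖ ≤ rt) (kz : ‖Z - Z'‖ ≤ rz) (kw : ‖W - W'‖ ≤ rw) :
    q.Qv t Z.re (Z.im / √3) W.re (W.im / √3) ≤ q.Qv t' Z'.re (Z'.im / √3) W'.re (W'.im / √3) +
      (rt * q.gT bt bz bw + rz * q.gZ bt bz bw + rw * q.gW bt bz bw) := by
  have hz' : ‖conj ((Z + Z') / 2)‖ ≤ bz / sc := by rwa [Complex.norm_conj]
  have hw' : ‖conj ((W + W') / 2)‖ ≤ bw / sc := by rwa [Complex.norm_conj]
  have he' : ‖conj q.e.raw‖ ≤ q.e.nrm := by rw [Complex.norm_conj]; exact q.e.raw_le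
  have n2 : ‖(2 : ℂ)‖ ≤ 2 := by simp
  have h6 : ‖((2 * q.q6 : ℝ) : ℂ)‖ ≤ 2 * iabs q.q6 := by
    rw [Complex.ofReal_mul]; exact nmul_le (by simp) (iabs_le _)
  have g1 := nmul_le kt (b := q.gT bt bz bw) (le_up (by simp only [nadd, nmul]; push_cast; ring)
    (nadd_le (iabs_le q.q1) (nadd_le (nadd_le (nmul_le h6 ht) (nmul_le q.a.raw_le hz))
      (nmul_le q.b.raw_le hw))))
  have g2 := nmul_le kz (b := q.gZ bt bz bw) (le_up (by simp only [nadd, nmul]; push_cast; ring)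
    (nadd_le q.gz.raw_le (nadd_le (nadd_le (nmul_le q.a.raw_le ht)
      (nmul_le n2 (nadd_le (nmul_le (iabs_le q.q11) hz') (nmul_le q.c.raw_le hz))))
      (nadd_le (nmul_le q.e.raw_le hw') (nmul_le q.f.raw_le hw)))))
  have g3 := nmul_le kw (b := q.gW bt bz bw) (le_up (by simp only [nadd, nmul]; push_cast; ring)
    (nadd_le q.gw.raw_le (nadd_le (nadd_le (nmul_le q.b.raw_le ht)
      (nadd_le (nmul_le he' hz') (nmul_le q.f.raw_le hz)))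
      (nmul_le n2 (nadd_le (nmul_le (iabs_le q.q18) hw') (nmul_le q.k.raw_le hw))))))
  have := q.diff t t' Z Z' W W'
  linarith [(Complex.re_le_norm _).trans g1, (Complex.re_le_norm _).trans g2,
    (Complex.re_le_norm _).trans g3]

end QC

/-- bound of the mean of the true value and the affine part -/
def TM.mid (t : TM) : ℕ := Nat.succ (Nat.shiftRight (Nat.add t.S t.A) 1)

lemma TM.Valid.mid {d1 d2 d3 : ℂ} {t : TM} {f : ℂ} (h : TM.Valid d1 d2 d3 t f) {u v : ℂ}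
    (hu : ‖u‖ ≤ ‖f‖) (hv : ‖v‖ ≤ ‖t.aff d1 d2 d3‖) : ‖(u + v) / 2‖ ≤ t.mid / sc := by
  have s0 := sc_pos
  have e : t.mid = (t.S + t.A) / 2 + 1 := by
    show (t.S + t.A) >>> 1 + 1 = _
    rw [Nat.shiftRight_eq_div_pow]
  have k : ((t.S + t.A : ℕ) : ℝ) ≤ (2 * t.mid : ℕ) := Nat.cast_le.2 (by omega)
  have k2 := QC.nadd_le (hu.trans h.S) (hv.trans h.A)
  rw [norm_div, Complex.norm_two, div_le_iff₀ two_pos]
  refine k2.trans ?_
  rw [← add_div, div_mul_eq_mul_div]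
  push_cast at k
  exact div_le_div_of_nonneg_right (by linarith) s0.le

/-- the six weights of the inequality of the means -/
structure Wt where
  w1 : ℕ
  w2 : ℕ
  w3 : ℕ
  w5 : ℕ
  w7 : ℕ
  w8 : ℕ

/-- positivity of the weights -/
def Wt.ok (w : Wt) : Bool := Nat.blt 0 (Nat.mul (Nat.mul (Nat.mul w.w1 w.w2) (Nat.mul w.w3 w.w5))
  (Nat.mul w.w7 w.w8))

/-- the penalty before the inequality of the means -/
def pen0 (q : QC) (T Z W : TM) (bt bz bw : ℕ) : R10 :=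
  ((T.R.smul (q.gT bt bz bw) 0 0).add (Z.R.smul (q.gZ bt bz bw) 0 0)).add
    (W.R.smul (q.gW bt bz bw) 0 0)

/-- the penalty -/
def pen (q : QC) (w : Wt) (T Z W : TM) : R10 :=
  (pen0 q T Z W T.mid Z.mid W.mid).amgm w.w1 w.w2 w.w3 w.w5 w.w7 w.w8

theorem pen_sound {q : QC} {w : Wt} (hw : w.ok = true) {T Z W : TM} {d1 d2 d3 : ℂ} {t : ℝ}
    {z u : ℂ} (hT : TM.Valid d1 d2 d3 T (t : ℂ)) (hZ : TM.Valid d1 d2 d3 Z z)
    (hW : TM.Valid d1 d2 d3 W u) :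
    q.Qv t z.re (z.im / √3) u.re (u.im / √3) ≤
      q.Qv (T.aff d1 d2 d3).re (Z.aff d1 d2 d3).re ((Z.aff d1 d2 d3).im / √3) (W.aff d1 d2 d3).re
        ((W.aff d1 d2 d3).im / √3) + ((pen q w T Z W).r0 + (pen q w T Z W).r4 * ‖d1‖ ^ 2 +
        (pen q w T Z W).r6 * ‖d2‖ ^ 2 + (pen q w T Z W).r9 * ‖d3‖ ^ 2) := by
  have s0 := sc_pos
  have p : 0 < w.w1 * w.w2 * (w.w3 * w.w5) * (w.w7 * w.w8) := Nat.blt_eq.mp hw
  simp only [CanonicallyOrderedAdd.mul_pos] at p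
  obtain ⟨⟨⟨p1, p2⟩, p3, p5⟩, p7, p8⟩ := p
  have k0 := hT.mid (u := t) (v := ((T.aff d1 d2 d3).re : ℝ)) le_rfl (by
    rw [Complex.norm_real]; exact Complex.abs_re_le_norm _)
  have k1 : ‖((t - (T.aff d1 d2 d3).re : ℝ) : ℂ)‖ ≤ T.R.ev ‖d1‖ ‖d2‖ ‖d3‖ := by
    refine le_trans ?_ hT.rem
    rw [Complex.norm_real]
    exact Complex.abs_re_le_norm (t - T.aff d1 d2 d3)
  refine (q.grad (by push_cast; exact k0) (hZ.mid le_rfl le_rfl) (hW.mid le_rfl le_rfl) k1 hZ.rem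
    hW.rem).trans (add_le_add_right ?_ _)
  have a := R10.ev_le_amgm (x := ‖d1‖) (y := ‖d2‖) (z := ‖d3‖) (pen0 q T Z W T.mid Z.mid W.mid)
    p1 p2 p3 p5 p7 p8
  rw [le_div_iff₀ s0] at a
  refine le_trans ?_ a
  have b := fun (k : ℕ) (r : R10) => R10.ev_smul k r 0 0 (norm_nonneg d1) (norm_nonneg d2)
    (norm_nonneg d3)
  simp only [Nat.cast_zero, zero_div, zero_mul, add_zero] at b
  rw [pen0, R10.ev_add, R10.ev_add, ← div_le_iff₀ s0]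
  refine le_of_eq_of_le ?_ (add_le_add (add_le_add (b _ _) (b _ _)) (b _ _))
  ring

/-- a combination of six lists of length seven -/
def lc6 (y1 y2 y3 y4 y5 : List ℤ) (c0 c1 c2 c3 c4 c5 : ℤ) : List ℤ :=
  axpy c1 y1 (axpy c2 y2 (axpy c3 y3 (axpy c4 y4 (axpy c5 y5
    [inmul 18446744073709551616 c0, .ofNat 0, .ofNat 0, .ofNat 0, .ofNat 0, .ofNat 0, .ofNat 0]))))

/-- minus twice the polynomial at the affine parts -/
def qTerms (q : QC) (y1 y2 y3 y4 y5 : List ℤ) : List (List ℤ × List ℤ) :=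
  [([.negSucc 18446744073709551615], lc6 y1 y2 y3 y4 y5 (inmul 2 q.q0) q.q1 q.m02 q.m03 q.m04 q.m05),
   (y1, lc6 y1 y2 y3 y4 y5 (iopp q.q1) (iopp (inmul 2 q.q6)) (iopp q.m12) (iopp q.m13) (iopp q.m14)
      (iopp q.m15)),
   (y2, lc6 y1 y2 y3 y4 y5 (iopp q.m02) (iopp q.m12) (iopp (inmul 2 q.n22)) (iopp q.m23)
      (iopp q.m24) (iopp q.m25)),
   (y3, lc6 y1 y2 y3 y4 y5 (iopp q.m03) (iopp q.m13) (iopp q.m23) (iopp (inmul 2 q.n33))
      (iopp q.m34) (iopp q.m35)),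
   (y4, lc6 y1 y2 y3 y4 y5 (iopp q.m04) (iopp q.m14) (iopp q.m24) (iopp q.m34)
      (iopp (inmul 2 q.n44)) (iopp q.m45)),
   (y5, lc6 y1 y2 y3 y4 y5 (iopp q.m05) (iopp q.m15) (iopp q.m25) (iopp q.m35) (iopp q.m45)
      (iopp (inmul 2 q.n55)))]

/-- `-2 ^ 129 e` -/
def pc (K e : ℕ) : ℤ := ineg (Nat.mul K e)

/-- minus the penalty; `K = 2 ^ 129`, `K3 = 3 K` -/
def pTerms (K K3 : ℕ) (r : R10) (rest : List (List ℤ × List ℤ)) : List (List ℤ × List ℤ) :=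
  ([pc K r.r0], [.ofNat 1]) ::
  ([.ofNat 0, pc K r.r4], [.ofNat 0, .ofNat 1]) ::
  ([.ofNat 0, .ofNat 0, pc K3 r.r4], [.ofNat 0, .ofNat 0, .ofNat 1]) ::
  ([.ofNat 0, .ofNat 0, .ofNat 0, pc K r.r6], [.ofNat 0, .ofNat 0, .ofNat 0, .ofNat 1]) ::
  ([.ofNat 0, .ofNat 0, .ofNat 0, .ofNat 0, pc K3 r.r6],
    [.ofNat 0, .ofNat 0, .ofNat 0, .ofNat 0, .ofNat 1]) ::
  ([.ofNat 0, .ofNat 0, .ofNat 0, .ofNat 0, .ofNat 0, pc K r.r9],
    [.ofNat 0, .ofNat 0, .ofNat 0, .ofNat 0, .ofNat 0, .ofNat 1]) ::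
  ([.ofNat 0, .ofNat 0, .ofNat 0, .ofNat 0, .ofNat 0, .ofNat 0, pc K3 r.r9],
    [.ofNat 0, .ofNat 0, .ofNat 0, .ofNat 0, .ofNat 0, .ofNat 0, .ofNat 1]) :: rest

/-- all terms -/
def cellTerms (q : QC) (w : Wt) (T Z W : TM) : List (List ℤ × List ℤ) :=
  pTerms 680564733841876926926749214863536422912 2041694201525630780780247644590609268736
    (pen q w T Z W) (qTerms q T.lx Z.lx Z.ly W.lx W.ly)

lemma dot_axpy (V : ℤ) : ∀ (u rows : List ℤ) (a : List ℝ), rows.length = a.length →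
    dot (axpy V u rows) a = dot rows a + V * dot u a ∧ (axpy V u rows).length = a.length
  | [], rows, a, h => ⟨by rw [dot_nil, mul_zero, add_zero]; rfl, h⟩
  | _ :: _, [], [], _ => ⟨by simp [dot_nil'], rfl⟩
  | c :: u, r :: rs, v :: a, h => by
    obtain ⟨k1, k2⟩ := dot_axpy V u rs a (by simpa using h)
    have e : axpy V (c :: u) (r :: rs) = iadd r (imul c V) :: axpy V u rs := rfl
    rw [e, dot_cons, dot_cons, dot_cons, k1, List.length_cons, k2, iadd_eq, imul_eq]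
    refine ⟨?_, rfl⟩
    push_cast; ring

lemma dot_lc6 (y1 y2 y3 y4 y5 : List ℤ) (c0 c1 c2 c3 c4 c5 : ℤ) (a0 a1 a2 a3 a4 a5 a6 : ℝ) :
    dot (lc6 y1 y2 y3 y4 y5 c0 c1 c2 c3 c4 c5) [a0, a1, a2, a3, a4, a5, a6] =
      c0 * (sc * a0) + c1 * dot y1 [a0, a1, a2, a3, a4, a5, a6] +
      c2 * dot y2 [a0, a1, a2, a3, a4, a5, a6] + c3 * dot y3 [a0, a1, a2, a3, a4, a5, a6] +
      c4 * dot y4 [a0, a1, a2, a3, a4, a5, a6] + c5 * dot y5 [a0, a1, a2, a3, a4, a5, a6] := by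
  obtain ⟨e5, l5⟩ := dot_axpy c5 y5 [inmul 18446744073709551616 c0, .ofNat 0, .ofNat 0, .ofNat 0,
    .ofNat 0, .ofNat 0, .ofNat 0] [a0, a1, a2, a3, a4, a5, a6] rfl
  obtain ⟨e4, l4⟩ := dot_axpy c4 y4 _ _ l5
  obtain ⟨e3, l3⟩ := dot_axpy c3 y3 _ _ l4
  obtain ⟨e2, l2⟩ := dot_axpy c2 y2 _ _ l3
  obtain ⟨e1, -⟩ := dot_axpy c1 y1 _ _ l2
  rw [lc6, e1, e2, e3, e4, e5]
  simp only [dot_cons, dot_nil, inmul_eq, Int.cast_mul, Int.cast_natCast, sc_eq,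
    Int.ofNat_eq_natCast, Nat.cast_zero]
  ring

lemma bil_cons (u v : List ℤ) (t : List (List ℤ × List ℤ)) (a : List ℝ) :
    bil ((u, v) :: t) a = dot u a * dot v a + bil t a := by simp [bil]

lemma bil_nil (a : List ℝ) : bil [] a = 0 := by simp [bil]

lemma neg_sc : ((Int.negSucc 18446744073709551615 : ℤ) : ℝ) = -sc := by
  rw [Int.cast_negSucc, sc]; norm_num

lemma bil_qTerms (q : QC) {y1 y2 y3 y4 y5 : List ℤ} {a1 a2 a3 a4 a5 a6 s t zx zy wx wy : ℝ}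
    (h1 : dot y1 [s, a1, a2, a3, a4, a5, a6] = s * (t * sc))
    (h2 : dot y2 [s, a1, a2, a3, a4, a5, a6] = s * (zx * sc))
    (h3 : dot y3 [s, a1, a2, a3, a4, a5, a6] = s * (zy * sc))
    (h4 : dot y4 [s, a1, a2, a3, a4, a5, a6] = s * (wx * sc))
    (h5 : dot y5 [s, a1, a2, a3, a4, a5, a6] = s * (wy * sc)) :
    bil (qTerms q y1 y2 y3 y4 y5) [s, a1, a2, a3, a4, a5, a6] =
      -(2 * (s * sc) ^ 2 * q.Qv t zx zy wx wy) := by
  simp only [qTerms, bil_cons, bil_nil, dot_lc6, h1, h2, h3, h4, h5, dot_cons, dot_nil, neg_sc,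
    iopp_eq, inmul_eq, QC.Qv, Int.cast_neg, Int.cast_mul, Nat.cast_ofNat, Int.cast_ofNat]
  ring

lemma bil_pTerms {K K3 : ℕ} (hK : (K : ℝ) = 2 * sc ^ 2) (hK3 : (K3 : ℝ) = 6 * sc ^ 2) (r : R10)
    (rest : List (List ℤ × List ℤ)) (s a1 a2 a3 a4 a5 a6 : ℝ) :
    bil (pTerms K K3 r rest) [s, a1, a2, a3, a4, a5, a6] =
      -(2 * sc ^ 2 * (r.r0 * s ^ 2 + r.r4 * (a1 ^ 2 + 3 * a2 ^ 2) + r.r6 * (a3 ^ 2 + 3 * a4 ^ 2) +
        r.r9 * (a5 ^ 2 + 3 * a6 ^ 2))) + bil rest [s, a1, a2, a3, a4, a5, a6] := by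
  simp only [pTerms, bil_cons, dot_cons, dot_nil, pc, ineg_eq, nmul, Int.cast_neg, Int.cast_natCast,
    Nat.cast_mul, Int.cast_mul, hK, hK3, Int.ofNat_eq_natCast, Nat.cast_zero, Nat.cast_one,
    Int.cast_zero, Int.cast_one]
  ring

lemma nsq3 (z : ℂ) : ‖z‖ ^ 2 = z.re ^ 2 + 3 * (z.im / √3) ^ 2 := by
  rw [nsq, div_pow, Real.sq_sqrt (by norm_num)]; ring

theorem cellTerms_sound {q : QC} {w : Wt} (hw : w.ok = true) {T Z W : TM} {d1 d2 d3 : ℂ} {t : ℝ}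
    {z u : ℂ} (hT : TM.Valid d1 d2 d3 T (t : ℂ)) (hZ : TM.Valid d1 d2 d3 Z z)
    (hW : TM.Valid d1 d2 d3 W u) (hq : 0 ≤ q.Qv t z.re (z.im / √3) u.re (u.im / √3)) (s : ℝ) :
    bil (cellTerms q w T Z W) [s, s * d1.re, s * (d1.im / √3), s * d2.re, s * (d2.im / √3),
      s * d3.re, s * (d3.im / √3)] ≤ 0 := by
  have k := hq.trans (pen_sound hw hT hZ hW)
  have kx : ∀ A : TM, dot A.lx [s, s * d1.re, s * (d1.im / √3), s * d2.re, s * (d2.im / √3),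
      s * d3.re, s * (d3.im / √3)] = s * ((A.aff d1 d2 d3).re * sc) := fun A => by
    rw [TM.aff_re, TM.lx]; simp only [dot_cons, dot_nil]; ring
  have ky : ∀ A : TM, dot A.ly [s, s * d1.re, s * (d1.im / √3), s * d2.re, s * (d2.im / √3),
      s * d3.re, s * (d3.im / √3)] = s * ((A.aff d1 d2 d3).im / √3 * sc) := fun A => by
    rw [TM.aff_im, TM.ly]; simp only [dot_cons, dot_nil]; ring
  rw [cellTerms, bil_pTerms (by norm_num [sc]) (by norm_num [sc]),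
    bil_qTerms q (kx T) (kx Z) (ky Z) (kx W) (ky W)]
  rw [nsq3, nsq3, nsq3] at k
  have := mul_nonneg (show 0 ≤ 2 * (s * sc) ^ 2 by positivity) k
  linarith

end Pool.Agent.Lib.MP_fb520c_co.Chk
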