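import Pool.Agent.Lib.MP_fb520c_co.Chk.SOS

/-! Polynomials of degree at most eight in two variables, packed; sums of squares. -/

set_option autoImplicit false

noncomputable section

namespace Pool.Agent.Lib.MP_fb520c_co.Chk

/-- `c0 + c1 x + c2 y` -/
def PK.aff2 (B : ℕ) (c0 c1 c2 : ℤ) : PK :=
  ⟨iadd (iadd c0 (inmul B c1)) (inmul (Nat.pow B 9) c2),
    Nat.add (Nat.add (iabs c0) (iabs c1)) (iabs c2)⟩

/-- the monomial with index `k` -/
def mon2 (x y : ℝ) (k : ℕ) : ℝ := x ^ (k % 9) * y ^ (k / 9)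

/-- its degree -/
def deg2 (k : ℕ) : ℕ := k % 9 + k / 9

/-- `a` packs in base `B` a polynomial of degree at most `d` with value `f` at `(x, y)` -/
def P2 (B : ℕ) (x y : ℝ) (d : ℕ) (a : PK) (f : ℝ) : Prop :=
  Rep B (mon2 x y) (fun k => deg2 k ≤ d) a.v a.n f

namespace P2

variable {B : ℕ} {x y : ℝ} {d d' : ℕ} {a b : PK} {f g : ℝ}

theorem mono (h : P2 B x y d a f) (hd : d ≤ d') : P2 B x y d' a f :=
  Rep.mono h (fun _ k => k.trans hd) le_rfl

theorem congr (h : P2 B x y d a f) (e : f = g) : P2 B x y d a g := e ▸ h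

theorem const (c : ℤ) : P2 B x y d (.const c) c := by
  have := Rep.single (B := B) (μ := mon2 x y) (D := fun k => deg2 k ≤ d) c (k := 0)
    (by simp [deg2])
  simpa [mon2, P2, PK.const] using this

theorem aff2 (c0 c1 c2 : ℤ) : P2 B x y 1 (.aff2 B c0 c1 c2) (c0 + c1 * x + c2 * y) := by
  have k := fun (c : ℤ) (k : ℕ) (hk : deg2 k ≤ 1) =>
    Rep.single (B := B) (μ := mon2 x y) (D := fun k => deg2 k ≤ 1) c (k := k) hk
  have := ((k c0 0 (by decide)).add (k c1 1 (by decide))).add (k c2 9 (by decide))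
  have e1 : (PK.aff2 B c0 c1 c2).v = c0 * (B : ℤ) ^ 0 + c1 * (B : ℤ) ^ 1 + c2 * (B : ℤ) ^ 9 := by
    simp only [PK.aff2, iadd_eq, inmul_eq, Nat.pow_eq]; push_cast; ring
  have e2 : (PK.aff2 B c0 c1 c2).n = c0.natAbs + c1.natAbs + c2.natAbs := by
    simp only [PK.aff2, iabs_eq, Nat.add_eq]
  have e3 : c0 + c1 * x + c2 * y = c0 * mon2 x y 0 + c1 * mon2 x y 1 + c2 * mon2 x y 9 := by
    norm_num [mon2]
  rw [P2, e1, e2, e3]
  exact this

theorem add (h : P2 B x y d a f) (h' : P2 B x y d b g) : P2 B x y d (a.add b) (f + g) := by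
  have := Rep.add h h'
  rwa [← iadd_eq] at this

theorem neg (h : P2 B x y d a f) : P2 B x y d a.neg (-f) := by
  have := Rep.neg h
  rwa [← iopp_eq] at this

theorem sub (h : P2 B x y d a f) (h' : P2 B x y d b g) : P2 B x y d (a.sub b) (f - g) := by
  have := Rep.add h (Rep.neg h')
  rwa [← sub_eq_add_neg, ← sub_eq_add_neg, ← isub_eq] at this

theorem smul (c : ℤ) (h : P2 B x y d a f) : P2 B x y d (a.smul c) (c * f) := by
  have := Rep.smul c h
  rwa [← imul_eq, ← iabs_eq] at this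

theorem mul {e : ℕ} (h : P2 B x y d a f) (h' : P2 B x y d' b g) (he : d + d' ≤ e)
    (h8 : e ≤ 8) : P2 B x y e (a.mul b) (f * g) := by
  have := Rep.mul (D'' := fun k => deg2 k ≤ e) h h' fun i j hi hj => by
    simp only [deg2] at hi hj ⊢
    have h1 : i % 9 + j % 9 < 9 := by omega
    have e1 := Nat.add_mod_of_add_mod_lt h1
    have e2 := Nat.add_div_eq_of_add_mod_lt h1
    refine ⟨by rw [e1, e2]; omega, ?_⟩
    simp only [mon2, e1, e2, pow_add]; ring
  rwa [← imul_eq] at this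

end P2

/-- indices of the monomials of degree at most `d ≤ 4`, in the order
`1, x, y, xx, xy, yy, xxx, xxy, …` -/
def ks2 (d : ℕ) : List ℕ :=
  Nat.rec [0] (fun d _ => Nat.rec [0, 1, 9] (fun d _ => Nat.rec [0, 1, 9, 2, 10, 18]
    (fun d _ => Nat.rec [0, 1, 9, 2, 10, 18, 3, 11, 19, 27]
      (fun _ _ => [0, 1, 9, 2, 10, 18, 3, 11, 19, 27, 4, 12, 20, 28, 36]) d) d) d) d

/-- a sum of squares of polynomials with the weights `pw` -/
def grp1 (O : ℕ) (us pw : List ℕ) : PK :=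
  sumSqP (Nat.add O O) pw (Nat.mul O (nsum pw)) (Nat.mul (Nat.mul 15 O) (Nat.mul 15 O)) us

/-- the sum over the multipliers `(d, g)` of `g` times squares of polynomials of degree `d` -/
def sumG2 (B O : ℕ) (gs : List (ℕ × PK)) : List (List ℕ) → PK :=
  List.rec (fun _ => ⟨.ofNat 0, 0⟩) (fun g _ ih uss => List.rec ⟨.ofNat 0, 0⟩
    (fun us r _ => Prod.rec (fun d g => (g.mul (grp1 O us (pws B (ks2 d)))).add (ih r)) g) uss) gs

/-- last step -/
def sosB (B H U : ℕ) : Bool := Nat.ble (Nat.add (absSum B H 73 U) B) (Nat.mul 2 (Nat.mod U B))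

/-- the residual is dominated by its constant term -/
def sosA (B H : ℕ) (r : PK) : Bool :=
  PK.rec (fun v n => Bool.rec false (sosB B H (ipos (iadd v (.ofNat (off B H 73))))) (Nat.blt n H)) r

/-- The test: `p - ∑ g_i ∑ l ^ 2` has a constant term that dominates the others. The base of `p`
and of the `g_i` is `H + H`. A multiplier is `(d, g)`; its squares are numbers whose digits in
base `2 O` (lowest first) minus `O` are the coefficients of the monomials of degree at most `d`.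
The free squares are the multiplier `(4, const k)`. -/
def sos2OK (H O : ℕ) (p : PK) (gs : List (ℕ × PK)) (ms : List (List ℕ)) : Bool :=
  sosA (Nat.add H H) H (p.sub (sumG2 (Nat.add H H) O gs ms))

variable {B O : ℕ} {x y : ℝ}

lemma ks2_spec : ∀ d : ℕ, (ks2 d).length ≤ 15 ∧ (d ≤ 4 → ∀ k ∈ ks2 d, deg2 k ≤ d)
  | 0 => by decide
  | 1 => by decide
  | 2 => by decide
  | 3 => by decide
  | d + 4 => ⟨le_rfl, fun h => by
      obtain rfl : d = 0 := by omega
      decide⟩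

lemma rep_sumSq2 (hO : 0 < O) {d : ℕ} (hd : d + d ≤ 8) (ks : List ℕ) (hk : ∀ k ∈ ks, deg2 k ≤ d)
    (hl : ks.length ≤ 15) (us : List ℕ) :
    ∃ f, 0 ≤ f ∧ P2 B x y (d + d) (grp1 O us (pws B ks)) f := by
  induction us with
  | nil => exact ⟨0, le_rfl, Rep.zero⟩
  | cons U us ih =>
    obtain ⟨f, f0, hf⟩ := ih
    obtain ⟨g, hg⟩ := rep_unp (B := B) (μ := mon2 x y) (D := fun k => deg2 k ≤ d) hO ks hk U
    have k1 : P2 B x y d ⟨_, _⟩ g := hg.mono (fun _ h => h) (Nat.mul_le_mul_right O hl)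
    have k2 := (k1.mul k1 le_rfl hd).add hf
    refine ⟨_, add_nonneg (mul_self_nonneg g) f0, ?_⟩
    have e1 : sumSq (O + O) (pws B ks) (O * nsum (pws B ks)) (U :: us) =
        isq2 (isn (unp (O + O) (pws B ks) U + 1) (O * nsum (pws B ks))) +
        sumSq (O + O) (pws B ks) (O * nsum (pws B ks)) us := rfl
    simp only [P2, grp1, sumSqP, PK.add, PK.mul, e1, iadd_eq, imul_eq, Nat.add_eq, Nat.mul_eq,
      Int.ofNat_eq_natCast, Nat.cast_add, isq2_eq, isn_eq, List.length_cons, Nat.cast_mul,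
      Nat.cast_one, add_sub_add_right_eq_sub] at k2 ⊢
    rw [add_mul, one_mul, add_comm (us.length * _)]
    exact k2

lemma rep_sumG2 (hO : 0 < O) (gs : List (ℕ × PK))
    (hg : ∀ g ∈ gs, ∃ e c, 0 ≤ e ∧ c + (g.1 + g.1) ≤ 8 ∧ P2 B x y c g.2 e) :
    ∀ ms : List (List ℕ), ∃ f, 0 ≤ f ∧ P2 B x y 8 (sumG2 B O gs ms) f := by
  induction gs with
  | nil => exact fun _ => ⟨0, le_rfl, Rep.zero⟩
  | cons g gs ih =>
    intro ms
    cases ms with
    | nil => exact ⟨0, le_rfl, Rep.zero⟩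
    | cons us ms =>
      obtain ⟨f, f0, hf⟩ := ih (fun g h => hg g (by simp [h])) ms
      obtain ⟨e, c, e0, hc, he⟩ := hg g (by simp)
      obtain ⟨s, s0, hs⟩ := rep_sumSq2 (B := B) (x := x) (y := y) hO (d := g.1) (by omega) (ks2 g.1)
        ((ks2_spec _).2 (by omega)) (ks2_spec _).1 us
      exact ⟨_, add_nonneg (mul_nonneg e0 s0) f0, (he.mul hs hc le_rfl).add hf⟩

lemma mon2_le (hx : |x| ≤ 1) (hy : |y| ≤ 1) (k : ℕ) : |mon2 x y k| ≤ 1 := by
  rw [mon2, abs_mul, abs_pow, abs_pow]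
  exact mul_le_one₀ (pow_le_one₀ (abs_nonneg _) hx) (by positivity) (pow_le_one₀ (abs_nonneg _) hy)

lemma sosA_sound {H : ℕ} {r : PK} (h : sosA (H + H) H r = true) {f : ℝ} (hx : |x| ≤ 1)
    (hy : |y| ≤ 1) (hp : P2 (H + H) x y 8 r f) : 0 ≤ f := by
  obtain ⟨h1, h2⟩ := rec_true h
  have k := (Rep.bound rfl (L := 73) (by norm_num) hp (fun k hk => by
    simp only [deg2] at hk; omega) (Nat.blt_eq.mp h2) (mon2_le hx hy)).2 (by simp [mon2])
  generalize ipos (iadd r.v (.ofNat (off (H + H) H 73))) = U at k h1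
  have k2 : absSum (H + H) H 73 U + (H + H) ≤ 2 * (U % (H + H)) := Nat.le_of_ble_eq_true h1
  generalize absSum (H + H) H 73 U = a at k k2
  generalize U % (H + H) = b at k k2
  have k3 : (a : ℝ) + (H + H) ≤ 2 * b := by exact_mod_cast k2
  linarith

theorem sos2OK_sound {H O : ℕ} (hO : 0 < O) {p : PK} {gs : List (ℕ × PK)} {ms : List (List ℕ)}
    (h : sos2OK H O p gs ms = true) {x y f : ℝ} (hx : |x| ≤ 1) (hy : |y| ≤ 1)
    (hp : P2 (H + H) x y 8 p f)
    (hg : ∀ g ∈ gs, ∃ e c, 0 ≤ e ∧ c + (g.1 + g.1) ≤ 8 ∧ P2 (H + H) x y c g.2 e) : 0 ≤ f := by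
  obtain ⟨b, b0, hb⟩ := rep_sumG2 (B := H + H) (x := x) (y := y) hO gs hg ms
  simp only [sos2OK, Nat.add_eq] at h
  have k1 := sosA_sound h hx hy (hp.sub hb)
  linarith

end Pool.Agent.Lib.MP_fb520c_co.Chk
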