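import Pool.Agent.Lib.MP_fb520c_co.Chk.Z

/-! Affine forms in three complex unknowns and their conjugates with a quadratic majorant of the
remainder; all numbers are integers in units of `2 ^ (-64)`. -/

set_option autoImplicit false

open Complex ComplexConjugate

noncomputable section

namespace Pool.Agent.Lib.MP_fb520c_co.Chk

/-- coefficients of `1, x, y, z, xx, xy, yy, xz, yz, zz` -/
structure R10 where
  r0 : ℕ
  r1 : ℕ
  r2 : ℕ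
  r3 : ℕ
  r4 : ℕ
  r5 : ℕ
  r6 : ℕ
  r7 : ℕ
  r8 : ℕ
  r9 : ℕ

namespace R10

/-- the value -/
def ev (r : R10) (x y z : ℝ) : ℝ :=
  (r.r0 + r.r1 * x + r.r2 * y + r.r3 * z + r.r4 * (x * x) + r.r5 * (x * y) + r.r6 * (y * y) +
    r.r7 * (x * z) + r.r8 * (y * z) + r.r9 * (z * z)) / sc

/-- a constant -/
def cst (e : ℕ) : R10 := ⟨e, 0, 0, 0, 0, 0, 0, 0, 0, 0⟩

/-- sum -/
def add (r s : R10) : R10 :=
  R10.rec (fun a0 a1 a2 a3 a4 a5 a6 a7 a8 a9 => R10.rec (fun b0 b1 b2 b3 b4 b5 b6 b7 b8 b9 =>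
    ⟨Nat.add a0 b0, Nat.add a1 b1, Nat.add a2 b2, Nat.add a3 b3, Nat.add a4 b4, Nat.add a5 b5,
      Nat.add a6 b6, Nat.add a7 b7, Nat.add a8 b8, Nat.add a9 b9⟩) s) r

/-- `k r` rounded up, plus `e0 + e1 (x + y + z)` -/
def smul (k : ℕ) (r : R10) (e0 e1 : ℕ) : R10 :=
  R10.rec (fun a0 a1 a2 a3 a4 a5 a6 a7 a8 a9 =>
    ⟨Nat.add (up (Nat.mul k a0)) e0, Nat.add (up (Nat.mul k a1)) e1,
      Nat.add (up (Nat.mul k a2)) e1, Nat.add (up (Nat.mul k a3)) e1, up (Nat.mul k a4),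
      up (Nat.mul k a5), up (Nat.mul k a6), up (Nat.mul k a7), up (Nat.mul k a8),
      up (Nat.mul k a9)⟩) r

/-- `k r + l s + (n1 x + n2 y + n3 z) (m1 x + m2 y + m3 z)` rounded up, plus rounding errors -/
def comb (k : ℕ) (r : R10) (l : ℕ) (s : R10) (n1 n2 n3 m1 m2 m3 : ℕ) : R10 :=
  R10.rec (fun a0 a1 a2 a3 a4 a5 a6 a7 a8 a9 => R10.rec (fun b0 b1 b2 b3 b4 b5 b6 b7 b8 b9 =>
    ⟨Nat.add (up (Nat.add (Nat.mul k a0) (Nat.mul l b0))) 2,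
      Nat.add (up (Nat.add (Nat.mul k a1) (Nat.mul l b1))) 4,
      Nat.add (up (Nat.add (Nat.mul k a2) (Nat.mul l b2))) 4,
      Nat.add (up (Nat.add (Nat.mul k a3) (Nat.mul l b3))) 4,
      up (Nat.add (Nat.add (Nat.mul k a4) (Nat.mul l b4)) (Nat.mul n1 m1)),
      up (Nat.add (Nat.add (Nat.mul k a5) (Nat.mul l b5)) (Nat.add (Nat.mul n1 m2) (Nat.mul n2 m1))),
      up (Nat.add (Nat.add (Nat.mul k a6) (Nat.mul l b6)) (Nat.mul n2 m2)),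
      up (Nat.add (Nat.add (Nat.mul k a7) (Nat.mul l b7)) (Nat.add (Nat.mul n1 m3) (Nat.mul n3 m1))),
      up (Nat.add (Nat.add (Nat.mul k a8) (Nat.mul l b8)) (Nat.add (Nat.mul n2 m3) (Nat.mul n3 m2))),
      up (Nat.add (Nat.add (Nat.mul k a9) (Nat.mul l b9)) (Nat.mul n3 m3))⟩) s) r

/-- upper bounds of the ten monomials when `x ≤ M1, y ≤ M2, z ≤ M3` -/
def box (M1 M2 M3 : ℕ) : R10 :=
  ⟨18446744073709551616, M1, M2, M3, up (Nat.mul M1 M1), up (Nat.mul M1 M2), up (Nat.mul M2 M2),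
    up (Nat.mul M1 M3), up (Nat.mul M2 M3), up (Nat.mul M3 M3)⟩

/-- upper bound of the value on the box -/
def sup (r m : R10) : ℕ :=
  R10.rec (fun a0 a1 a2 a3 a4 a5 a6 a7 a8 a9 => R10.rec (fun b0 b1 b2 b3 b4 b5 b6 b7 b8 b9 =>
    up (Nat.add (Nat.add (Nat.add (Nat.add (Nat.mul a0 b0) (Nat.mul a1 b1))
      (Nat.add (Nat.mul a2 b2) (Nat.mul a3 b3))) (Nat.add (Nat.add (Nat.mul a4 b4) (Nat.mul a5 b5))
      (Nat.add (Nat.mul a6 b6) (Nat.mul a7 b7)))) (Nat.add (Nat.mul a8 b8) (Nat.mul a9 b9)))) m) r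

/-- upper bound of `c + n1 x + n2 y + n3 z` on the box -/
def supl (m : R10) (c n1 n2 n3 : ℕ) : ℕ :=
  R10.rec (fun _ b1 b2 b3 _ _ _ _ _ _ =>
    Nat.add c (up (Nat.add (Nat.add (Nat.mul n1 b1) (Nat.mul n2 b2)) (Nat.mul n3 b3)))) m

/-- `r + c + n1 x + n2 y + n3 z` -/
def addl (r : R10) (c n1 n2 n3 : ℕ) : R10 :=
  R10.rec (fun a0 a1 a2 a3 a4 a5 a6 a7 a8 a9 =>
    ⟨Nat.add a0 c, Nat.add a1 n1, Nat.add a2 n2, Nat.add a3 n3, a4, a5, a6, a7, a8, a9⟩) r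

/-- arithmetic-geometric mean: with weights `w1, w2, w3` for `x, y, z` and `w5, w7, w8` for
`xy, xz, yz` the majorant becomes `k0 + e1 xx + e2 yy + e3 zz`;
`x ≤ w / 2 + xx / (2 w)`, `xy ≤ w xx / 2 + yy / (2 w)` -/
def amgm (r : R10) (w1 w2 w3 w5 w7 w8 : ℕ) : R10 :=
  ⟨r.r0 + ((r.r1 * w1 + r.r2 * w2 + r.r3 * w3) / 2 ^ 65 + 1), 0, 0, 0,
    r.r4 + (r.r1 * 2 ^ 63 / w1 + 1) + ((r.r5 * w5 + r.r7 * w7) / 2 ^ 65 + 1), 0,
    r.r6 + (r.r2 * 2 ^ 63 / w2 + 1) + (r.r5 * 2 ^ 63 / w5 + 1) + (r.r8 * w8 / 2 ^ 65 + 1), 0, 0,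
    r.r9 + (r.r3 * 2 ^ 63 / w3 + 1) + (r.r7 * 2 ^ 63 / w7 + 1) + (r.r8 * 2 ^ 63 / w8 + 1)⟩

end R10

/-- the unknowns and the bounds of the monomials in their moduli -/
structure Env (m : R10) (d1 d2 d3 : ℂ) : Prop where
  h0 : sc ≤ m.r0
  h1 : ‖d1‖ * sc ≤ m.r1
  h2 : ‖d2‖ * sc ≤ m.r2
  h3 : ‖d3‖ * sc ≤ m.r3
  h4 : ‖d1‖ * ‖d1‖ * sc ≤ m.r4
  h5 : ‖d1‖ * ‖d2‖ * sc ≤ m.r5
  h6 : ‖d2‖ * ‖d2‖ * sc ≤ m.r6
  h7 : ‖d1‖ * ‖d3‖ * sc ≤ m.r7
  h8 : ‖d2‖ * ‖d3‖ * sc ≤ m.r8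
  h9 : ‖d3‖ * ‖d3‖ * sc ≤ m.r9

/-- the affine form `c + ∑ (a_g d_g + b_g conj d_g)`, the majorant `R` of the remainder,
bounds `n_g` of `|a_g| + |b_g|`, `S` of the function, `A` of the affine form -/
structure TM where
  c : C
  a1 : C
  b1 : C
  a2 : C
  b2 : C
  a3 : C
  b3 : C
  R : R10
  n1 : ℕ
  n2 : ℕ
  n3 : ℕ
  S : ℕ
  A : ℕ

namespace TM

/-- the value of the affine form -/
def aff (t : TM) (d1 d2 d3 : ℂ) : ℂ :=
  t.c.val + (t.a1.val * d1 + t.b1.val * conj d1) + (t.a2.val * d2 + t.b2.val * conj d2) +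
    (t.a3.val * d3 + t.b3.val * conj d3)

/-- `t` encloses the number `f` -/
structure Valid (d1 d2 d3 : ℂ) (t : TM) (f : ℂ) : Prop where
  rem : ‖f - t.aff d1 d2 d3‖ ≤ t.R.ev ‖d1‖ ‖d2‖ ‖d3‖
  n1 : ‖t.a1.val‖ + ‖t.b1.val‖ ≤ t.n1 / sc
  n2 : ‖t.a2.val‖ + ‖t.b2.val‖ ≤ t.n2 / sc
  n3 : ‖t.a3.val‖ + ‖t.b3.val‖ ≤ t.n3 / sc
  S : ‖f‖ ≤ t.S / sc
  A : ‖t.aff d1 d2 d3‖ ≤ t.A / sc

/-- last step of the constructor -/
def mk2 (c a1 b1 a2 b2 a3 b3 : C) (R : R10) (S n1 n2 n3 l r : ℕ) : TM :=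
  ⟨c, a1, b1, a2, b2, a3, b3, R, n1, n2, n3, nmin S (Nat.add l r), nmin (Nat.add S r) l⟩

/-- middle step of the constructor -/
def mk1 (m : R10) (c a1 b1 a2 b2 a3 b3 : C) (R : R10) (S n1 n2 n3 : ℕ) : TM :=
  mk2 c a1 b1 a2 b2 a3 b3 R S n1 n2 n3 (m.supl c.nrm n1 n2 n3) (R.sup m)

/-- the constructor that computes the derived bounds -/
def mk0 (m : R10) (c a1 b1 a2 b2 a3 b3 : C) (R : R10) (S : ℕ) : TM :=
  mk1 m c a1 b1 a2 b2 a3 b3 R S (Nat.add a1.nrm b1.nrm) (Nat.add a2.nrm b2.nrm)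
    (Nat.add a3.nrm b3.nrm)

/-- a constant known up to the error `e` -/
def const (c : C) (e : ℕ) : TM :=
  ⟨c, .zero, .zero, .zero, .zero, .zero, .zero, .cst e, 0, 0, 0, Nat.add c.nrm e, c.nrm⟩

/-- `c + d1`, bounded by `S` -/
def var1 (c : C) (S : ℕ) : TM :=
  ⟨c, .one, .zero, .zero, .zero, .zero, .zero, .cst 0, 18446744073709551616, 0, 0, S, S⟩

/-- `c + d2`, bounded by `S` -/
def var2 (c : C) (S : ℕ) : TM :=
  ⟨c, .zero, .zero, .one, .zero, .zero, .zero, .cst 0, 0, 18446744073709551616, 0, S, S⟩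

/-- `c + d3`, bounded by `S` -/
def var3 (c : C) (S : ℕ) : TM :=
  ⟨c, .zero, .zero, .zero, .zero, .one, .zero, .cst 0, 0, 0, 18446744073709551616, S, S⟩

/-- sum -/
def add (m : R10) (s t : TM) : TM :=
  TM.rec (fun c a1 b1 a2 b2 a3 b3 R _ _ _ S _ => TM.rec (fun c' a1' b1' a2' b2' a3' b3' R' _ _ _ S' _ =>
    mk0 m (c.add c') (a1.add a1') (b1.add b1') (a2.add a2') (b2.add b2') (a3.add a3') (b3.add b3')
      (R.add R') (Nat.add S S')) t) s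

/-- difference -/
def sub (m : R10) (s t : TM) : TM :=
  TM.rec (fun c a1 b1 a2 b2 a3 b3 R _ _ _ S _ => TM.rec (fun c' a1' b1' a2' b2' a3' b3' R' _ _ _ S' _ =>
    mk0 m (c.sub c') (a1.sub a1') (b1.sub b1') (a2.sub a2') (b2.sub b2') (a3.sub a3') (b3.sub b3')
      (R.add R') (Nat.add S S')) t) s

/-- opposite -/
def neg (t : TM) : TM :=
  TM.rec (fun c a1 b1 a2 b2 a3 b3 R n1 n2 n3 S A =>
    ⟨c.neg, a1.neg, b1.neg, a2.neg, b2.neg, a3.neg, b3.neg, R, n1, n2, n3, S, A⟩) t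

/-- conjugate -/
def cj (t : TM) : TM :=
  TM.rec (fun c a1 b1 a2 b2 a3 b3 R n1 n2 n3 S A =>
    ⟨c.cj, b1.cj, a1.cj, b2.cj, a2.cj, b3.cj, a3.cj, R, n1, n2, n3, S, A⟩) t

/-- product with the real number `k / 2 ^ 64` -/
def rmul (m : R10) (k : ℤ) (t : TM) : TM :=
  TM.rec (fun c a1 b1 a2 b2 a3 b3 R _ _ _ S _ =>
    mk0 m (c.rmul k) (a1.rmul k) (b1.rmul k) (a2.rmul k) (b2.rmul k) (a3.rmul k) (b3.rmul k)
      (R.smul (iabs k) 2 4) (up (Nat.mul (iabs k) S))) t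

/-- product with a constant known up to the error `e` -/
def cmul (m : R10) (k : C) (e : ℕ) (t : TM) : TM :=
  TM.rec (fun c a1 b1 a2 b2 a3 b3 R _ _ _ S _ =>
    mk0 m (k.mul c) (k.mul a1) (k.mul b1) (k.mul a2) (k.mul b2) (k.mul a3) (k.mul b3)
      (R.smul k.nrm (Nat.add (up (Nat.mul e S)) 2) 4) (up (Nat.mul (Nat.add k.nrm e) S))) t

/-- product -/
def mul (m : R10) (s t : TM) : TM :=
  TM.rec (fun c a1 b1 a2 b2 a3 b3 R n1 n2 n3 S A =>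
    TM.rec (fun c' a1' b1' a2' b2' a3' b3' R' n1' n2' n3' S' _ =>
    mk0 m (c.mul c') (c.fma a1' c' a1) (c.fma b1' c' b1) (c.fma a2' c' a2) (c.fma b2' c' b2)
      (c.fma a3' c' a3) (c.fma b3' c' b3) (R10.comb S' R A R' n1 n2 n3 n1' n2' n3')
      (up (Nat.mul S S'))) t) s

/-- majorant of the modulus -/
def absorb (t : TM) : R10 :=
  TM.rec (fun c _ _ _ _ _ _ R n1 n2 n3 _ _ => R.addl c.nrm n1 n2 n3) t

/-- enclosure of a number that differs by at most `r` -/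
def addRem (m : R10) (t : TM) (r : R10) : TM :=
  TM.rec (fun c a1 b1 a2 b2 a3 b3 R n1 n2 n3 S A =>
    ⟨c, a1, b1, a2, b2, a3, b3, R.add r, n1, n2, n3, Nat.add S (r.sup m), A⟩) t

/-- use of a bound of the modulus known from elsewhere -/
def setS (m : R10) (t : TM) (S' : ℕ) : TM :=
  TM.rec (fun c a1 b1 a2 b2 a3 b3 R n1 n2 n3 S A =>
    ⟨c, a1, b1, a2, b2, a3, b3, R, n1, n2, n3, nmin S S', nmin A (Nat.add S' (R.sup m))⟩) t

/-- real part -/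
def re (m : R10) (t : TM) : TM := rmul m (.ofNat 9223372036854775808) (add m t t.cj)

/-- bound of `|1 - y ^ 2 f|` for `1 ≤ f ≤ S` -/
def isqE (y S : ℕ) : ℕ :=
  nmax (up (Nat.sub (Nat.mul 18446744073709551616 18446744073709551616) (Nat.mul y y)))
    (Nat.sub (up (Nat.mul (up (Nat.mul y y)) S)) 18446744073709551616)

/-- last step of the inverse square root -/
def isq1 (m : R10) (y : ℕ) (e : TM) : TM :=
  setS m (addRem m
    (rmul m (.ofNat y) (add m (const .one 0) (rmul m (.ofNat 9223372036854775808) e)))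
    ((mul m e e).absorb.smul (up (Nat.mul 7493989779944505344 y)) 0 0)) 18446744073709551616

/-- choice -/
def sel (b : Bool) (s t : TM) : TM := Bool.rec s t b

/-- inverse square root of a real number `f ≥ 1` with the hint `y`: with `e = 1 - y ^ 2 f` and
`|e| ≤ 1 / 16` the remainder is at most `13 / 32 y e ^ 2` -/
def isq (m : R10) (y : ℕ) (t : TM) : TM :=
  sel (Nat.ble (isqE y t.S) 1152921504606846976) (const .zero 18446744073709551616)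
    (isq1 m y (setS m (sub m (const .one 0) (rmul m (.ofNat y) (rmul m (.ofNat y) t)))
      (isqE y t.S)))

/-- coefficients of the real part of the affine form on
`1, re d1, im d1 / √3, re d2, im d2 / √3, re d3, im d3 / √3` -/
def lx (t : TM) : List ℤ :=
  [t.c.x, iadd t.a1.x t.b1.x, inmul 3 (isub t.b1.y t.a1.y), iadd t.a2.x t.b2.x,
    inmul 3 (isub t.b2.y t.a2.y), iadd t.a3.x t.b3.x, inmul 3 (isub t.b3.y t.a3.y)]

/-- coefficients of the imaginary part over `√3` -/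
def ly (t : TM) : List ℤ :=
  [t.c.y, iadd t.a1.y t.b1.y, isub t.a1.x t.b1.x, iadd t.a2.y t.b2.y, isub t.a2.x t.b2.x,
    iadd t.a3.y t.b3.y, isub t.a3.x t.b3.x]

end TM

/-- rounding of a rational number to a fixed point number -/
def ofQ (q : ℚ) : ℤ := Int.ediv (imul q.num (.ofNat 18446744073709551616)) (.ofNat q.den)

/-- rounding of `x + y √(-3)`; the error is at most two units -/
def C.ofQ (x y : ℚ) : C := ⟨Chk.ofQ x, Chk.ofQ y⟩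

/-- upper bound of a rational number in fixed point -/
def upQ (q : ℚ) : ℕ := Nat.succ (ipos (ofQ q))

end Pool.Agent.Lib.MP_fb520c_co.Chk
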