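import Pool.Agent.Lib.MP_fb520c_co.Chk.TM

/-! Soundness of the operations on affine forms with majorants. -/

set_option autoImplicit false

open Complex ComplexConjugate

noncomputable section

namespace Pool.Agent.Lib.MP_fb520c_co.Chk

lemma up_ge' (a : ℕ) : (a : ℝ) ≤ up a * sc := (div_le_iff₀ sc_pos).1 (up_ge a)

lemma sc_eq : ((18446744073709551616 : ℕ) : ℝ) = sc := by norm_num [sc]

lemma nadd (a b : ℕ) : Nat.add a b = a + b := rfl

lemma nmul (a b : ℕ) : Nat.mul a b = a * b := rfl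

theorem Env.box {M1 M2 M3 : ℕ} {d1 d2 d3 : ℂ} (h1 : ‖d1‖ ≤ M1 / sc) (h2 : ‖d2‖ ≤ M2 / sc)
    (h3 : ‖d3‖ ≤ M3 / sc) : Env (R10.box M1 M2 M3) d1 d2 d3 := by
  have s0 := sc_pos
  rw [le_div_iff₀ s0] at h1 h2 h3
  have k : ∀ (a b : ℝ) (M N : ℕ), 0 ≤ a → 0 ≤ b → a * sc ≤ M → b * sc ≤ N →
      a * b * sc ≤ up (Nat.mul M N) := fun a b M N a0 b0 ha hb => by
    refine le_trans ?_ (up_ge _)
    rw [le_div_iff₀ s0, nmul, Nat.cast_mul]
    calc a * b * sc * sc = a * sc * (b * sc) := by ring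
      _ ≤ M * N := mul_le_mul ha hb (by positivity) (by positivity)
  have n1 := norm_nonneg d1
  have n2 := norm_nonneg d2
  have n3 := norm_nonneg d3
  exact ⟨sc_eq.ge, h1, h2, h3, k _ _ _ _ n1 n1 h1 h1, k _ _ _ _ n1 n2 h1 h2, k _ _ _ _ n2 n2 h2 h2,
    k _ _ _ _ n1 n3 h1 h3, k _ _ _ _ n2 n3 h2 h3, k _ _ _ _ n3 n3 h3 h3⟩

namespace R10

variable {x y z : ℝ}

lemma ev_cst (e : ℕ) : (cst e).ev x y z = e / sc := by simp [ev, cst]

lemma ev_add (r s : R10) : (r.add s).ev x y z = r.ev x y z + s.ev x y z := by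
  simp only [ev, add, nadd]; push_cast; ring

lemma ev_addl (r : R10) (c n1 n2 n3 : ℕ) : (r.addl c n1 n2 n3).ev x y z =
    r.ev x y z + (c / sc + n1 / sc * x + n2 / sc * y + n3 / sc * z) := by
  simp only [ev, addl, nadd]; push_cast; ring

lemma ev_nonneg (r : R10) (hx : 0 ≤ x) (hy : 0 ≤ y) (hz : 0 ≤ z) : 0 ≤ r.ev x y z := by
  have := sc_pos
  unfold ev; positivity

lemma ev_smul (k : ℕ) (r : R10) (e0 e1 : ℕ) (hx : 0 ≤ x) (hy : 0 ≤ y) (hz : 0 ≤ z) :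
    k / sc * r.ev x y z + (e0 / sc + e1 / sc * (x + y + z)) ≤ (r.smul k e0 e1).ev x y z := by
  have s0 := sc_pos
  have e : k / sc * r.ev x y z + (e0 / sc + e1 / sc * (x + y + z)) =
      ((k * r.r0 : ℕ) / sc + e0 + ((k * r.r1 : ℕ) / sc + e1) * x + ((k * r.r2 : ℕ) / sc + e1) * y +
      ((k * r.r3 : ℕ) / sc + e1) * z + (k * r.r4 : ℕ) / sc * (x * x) +
      (k * r.r5 : ℕ) / sc * (x * y) + (k * r.r6 : ℕ) / sc * (y * y) +
      (k * r.r7 : ℕ) / sc * (x * z) + (k * r.r8 : ℕ) / sc * (y * z) +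
      (k * r.r9 : ℕ) / sc * (z * z)) / sc := by
    simp only [ev]; push_cast; ring
  rw [e]
  simp only [ev, smul, nadd, nmul, Nat.cast_add]
  gcongr <;> exact up_ge _

lemma ev_comb (k : ℕ) (r : R10) (l : ℕ) (s : R10) (n1 n2 n3 m1 m2 m3 : ℕ) (hx : 0 ≤ x)
    (hy : 0 ≤ y) (hz : 0 ≤ z) :
    k / sc * r.ev x y z + l / sc * s.ev x y z +
      (n1 / sc * x + n2 / sc * y + n3 / sc * z) * (m1 / sc * x + m2 / sc * y + m3 / sc * z) +
      (2 / sc + 4 / sc * (x + y + z)) ≤ (comb k r l s n1 n2 n3 m1 m2 m3).ev x y z := by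
  have s0 := sc_pos
  have e : k / sc * r.ev x y z + l / sc * s.ev x y z +
      (n1 / sc * x + n2 / sc * y + n3 / sc * z) * (m1 / sc * x + m2 / sc * y + m3 / sc * z) +
      (2 / sc + 4 / sc * (x + y + z)) =
      ((k * r.r0 + l * s.r0 : ℕ) / sc + (2 : ℕ) + ((k * r.r1 + l * s.r1 : ℕ) / sc + (4 : ℕ)) * x +
      ((k * r.r2 + l * s.r2 : ℕ) / sc + (4 : ℕ)) * y +
      ((k * r.r3 + l * s.r3 : ℕ) / sc + (4 : ℕ)) * z +
      (k * r.r4 + l * s.r4 + n1 * m1 : ℕ) / sc * (x * x) +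
      (k * r.r5 + l * s.r5 + (n1 * m2 + n2 * m1) : ℕ) / sc * (x * y) +
      (k * r.r6 + l * s.r6 + n2 * m2 : ℕ) / sc * (y * y) +
      (k * r.r7 + l * s.r7 + (n1 * m3 + n3 * m1) : ℕ) / sc * (x * z) +
      (k * r.r8 + l * s.r8 + (n2 * m3 + n3 * m2) : ℕ) / sc * (y * z) +
      (k * r.r9 + l * s.r9 + n3 * m3 : ℕ) / sc * (z * z)) / sc := by
    simp only [ev]; push_cast; ring
  rw [e]
  simp only [ev, comb, nadd, nmul]
  rw [Nat.cast_add (up _), Nat.cast_add (up _), Nat.cast_add (up _), Nat.cast_add (up _)]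
  gcongr <;> exact up_ge _

variable {m : R10} {d1 d2 d3 : ℂ}

theorem ev_le_sup (r : R10) (h : Env m d1 d2 d3) : r.ev ‖d1‖ ‖d2‖ ‖d3‖ ≤ r.sup m / sc := by
  have s0 := sc_pos
  rw [ev]
  refine div_le_div_of_nonneg_right (le_trans ?_ (up_ge _)) s0.le
  rw [le_div_iff₀ s0]
  simp only [nadd, nmul]
  push_cast
  linarith [mul_le_mul_of_nonneg_left h.h0 r.r0.cast_nonneg,
    mul_le_mul_of_nonneg_left h.h1 r.r1.cast_nonneg, mul_le_mul_of_nonneg_left h.h2 r.r2.cast_nonneg,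
    mul_le_mul_of_nonneg_left h.h3 r.r3.cast_nonneg, mul_le_mul_of_nonneg_left h.h4 r.r4.cast_nonneg,
    mul_le_mul_of_nonneg_left h.h5 r.r5.cast_nonneg, mul_le_mul_of_nonneg_left h.h6 r.r6.cast_nonneg,
    mul_le_mul_of_nonneg_left h.h7 r.r7.cast_nonneg, mul_le_mul_of_nonneg_left h.h8 r.r8.cast_nonneg,
    mul_le_mul_of_nonneg_left h.h9 r.r9.cast_nonneg]

theorem le_supl (c n1 n2 n3 : ℕ) (h : Env m d1 d2 d3) :
    c / sc + n1 / sc * ‖d1‖ + n2 / sc * ‖d2‖ + n3 / sc * ‖d3‖ ≤ m.supl c n1 n2 n3 / sc := by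
  have s0 := sc_pos
  have k : n1 * ‖d1‖ + n2 * ‖d2‖ + n3 * ‖d3‖ ≤ up (n1 * m.r1 + n2 * m.r2 + n3 * m.r3) := by
    refine le_trans ?_ (up_ge _)
    rw [le_div_iff₀ s0]
    push_cast
    linarith [mul_le_mul_of_nonneg_left h.h1 n1.cast_nonneg,
      mul_le_mul_of_nonneg_left h.h2 n2.cast_nonneg, mul_le_mul_of_nonneg_left h.h3 n3.cast_nonneg]
  have e : ((m.supl c n1 n2 n3 : ℕ) : ℝ) = c + up (n1 * m.r1 + n2 * m.r2 + n3 * m.r3) := by
    simp only [supl, nadd, nmul, Nat.cast_add (c)]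
  rw [e, show c / sc + n1 / sc * ‖d1‖ + n2 / sc * ‖d2‖ + n3 / sc * ‖d3‖ =
    (c + (n1 * ‖d1‖ + n2 * ‖d2‖ + n3 * ‖d3‖)) / sc by ring]
  gcongr

lemma div_ge (a b : ℕ) (hb : 0 < b) : (a : ℝ) / b ≤ (a / b + 1 : ℕ) := by
  rw [div_le_iff₀ (by exact_mod_cast hb)]
  have := Nat.div_add_mod a b
  have := Nat.mod_lt a hb
  have : a ≤ (a / b + 1) * b := by nlinarith
  exact_mod_cast this

lemma am {w : ℝ} (hw : 0 < w) (a b : ℝ) : a * b ≤ w / 2 ^ 65 * (a * a) + 2 ^ 63 / w * (b * b) := by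
  have : 0 ≤ (w * a - 2 ^ 64 * b) ^ 2 / (2 ^ 65 * w) := by positivity
  have e : (w * a - 2 ^ 64 * b) ^ 2 / (2 ^ 65 * w) =
      w / 2 ^ 65 * (a * a) + 2 ^ 63 / w * (b * b) - a * b := by field_simp; ring
  linarith

/-- the result has only the coefficients `r0, r4, r6, r9` -/
theorem ev_le_amgm (r : R10) {w1 w2 w3 w5 w7 w8 : ℕ} (h1 : 0 < w1) (h2 : 0 < w2) (h3 : 0 < w3)
    (h5 : 0 < w5) (h7 : 0 < w7) (h8 : 0 < w8) :
    r.ev x y z ≤ ((r.amgm w1 w2 w3 w5 w7 w8).r0 + (r.amgm w1 w2 w3 w5 w7 w8).r4 * x ^ 2 +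
      (r.amgm w1 w2 w3 w5 w7 w8).r6 * y ^ 2 + (r.amgm w1 w2 w3 w5 w7 w8).r9 * z ^ 2) / sc := by
  have s0 := sc_pos
  rw [ev]
  refine div_le_div_of_nonneg_right ?_ s0.le
  have a1 := mul_le_mul_of_nonneg_left (am (Nat.cast_pos.2 h1) 1 x) r.r1.cast_nonneg
  have a2 := mul_le_mul_of_nonneg_left (am (Nat.cast_pos.2 h2) 1 y) r.r2.cast_nonneg
  have a3 := mul_le_mul_of_nonneg_left (am (Nat.cast_pos.2 h3) 1 z) r.r3.cast_nonneg
  have a5 := mul_le_mul_of_nonneg_left (am (Nat.cast_pos.2 h5) x y) r.r5.cast_nonneg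
  have a7 := mul_le_mul_of_nonneg_left (am (Nat.cast_pos.2 h7) x z) r.r7.cast_nonneg
  have a8 := mul_le_mul_of_nonneg_left (am (Nat.cast_pos.2 h8) y z) r.r8.cast_nonneg
  have p : 0 < 2 ^ 65 := by positivity
  have b0 := div_ge (r.r1 * w1 + r.r2 * w2 + r.r3 * w3) _ p
  have b1 := mul_le_mul_of_nonneg_right (div_ge (r.r1 * 2 ^ 63) _ h1) (mul_self_nonneg x)
  have b2 := mul_le_mul_of_nonneg_right (div_ge (r.r5 * w5 + r.r7 * w7) _ p) (mul_self_nonneg x)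
  have b3 := mul_le_mul_of_nonneg_right (div_ge (r.r2 * 2 ^ 63) _ h2) (mul_self_nonneg y)
  have b4 := mul_le_mul_of_nonneg_right (div_ge (r.r5 * 2 ^ 63) _ h5) (mul_self_nonneg y)
  have b5 := mul_le_mul_of_nonneg_right (div_ge (r.r8 * w8) _ p) (mul_self_nonneg y)
  have b6 := mul_le_mul_of_nonneg_right (div_ge (r.r3 * 2 ^ 63) _ h3) (mul_self_nonneg z)
  have b7 := mul_le_mul_of_nonneg_right (div_ge (r.r7 * 2 ^ 63) _ h7) (mul_self_nonneg z)
  have b8 := mul_le_mul_of_nonneg_right (div_ge (r.r8 * 2 ^ 63) _ h8) (mul_self_nonneg z)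
  simp only [amgm]
  push_cast at *
  simp only [div_eq_mul_inv] at *
  linarith

end R10

namespace TM

variable {m : R10} {d1 d2 d3 : ℂ} {s t : TM} {f g : ℂ}

lemma lin_le {a b d : ℂ} {n : ℝ} (h : ‖a‖ + ‖b‖ ≤ n) : ‖a * d + b * conj d‖ ≤ n * ‖d‖ := by
  refine (norm_add_le _ _).trans ?_
  rw [norm_mul, norm_mul, Complex.norm_conj, ← add_mul]
  exact mul_le_mul_of_nonneg_right h (norm_nonneg _)

lemma form_le {c a1 b1 a2 b2 a3 b3 : ℂ} {k n1 n2 n3 : ℝ} (h0 : ‖c‖ ≤ k) (h1 : ‖a1‖ + ‖b1‖ ≤ n1)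
    (h2 : ‖a2‖ + ‖b2‖ ≤ n2) (h3 : ‖a3‖ + ‖b3‖ ≤ n3) :
    ‖c + (a1 * d1 + b1 * conj d1) + (a2 * d2 + b2 * conj d2) + (a3 * d3 + b3 * conj d3)‖ ≤
      k + n1 * ‖d1‖ + n2 * ‖d2‖ + n3 * ‖d3‖ :=
  (norm_add₄_le).trans (add_le_add (add_le_add (add_le_add h0 (lin_le h1)) (lin_le h2)) (lin_le h3))

lemma nrm2 (a b : C) : ‖a.val‖ + ‖b.val‖ ≤ (Nat.add a.nrm b.nrm : ℕ) / sc := by
  rw [nadd, Nat.cast_add, add_div]; exact add_le_add a.nrm_ge b.nrm_ge

lemma le_nmin {u : ℝ} {a b : ℕ} (ha : u ≤ a / sc) (hb : u ≤ b / sc) : u ≤ nmin a b / sc := by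
  rw [nmin_eq]; rcases min_choice a b with h | h <;> rw [h] <;> assumption

lemma valid_mk0 (h : Env m d1 d2 d3) {c a1 b1 a2 b2 a3 b3 : C} {R : R10} {S : ℕ}
    (hr : ‖f - (c.val + (a1.val * d1 + b1.val * conj d1) + (a2.val * d2 + b2.val * conj d2) +
      (a3.val * d3 + b3.val * conj d3))‖ ≤ R.ev ‖d1‖ ‖d2‖ ‖d3‖) (hS : ‖f‖ ≤ S / sc) :
    Valid d1 d2 d3 (mk0 m c a1 b1 a2 b2 a3 b3 R S) f := by
  have k1 := (form_le (d1 := d1) (d2 := d2) (d3 := d3) c.nrm_ge (nrm2 a1 b1) (nrm2 a2 b2)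
    (nrm2 a3 b3)).trans (R10.le_supl _ _ _ _ h)
  have k2 := hr.trans (R10.ev_le_sup R h)
  refine ⟨hr, nrm2 a1 b1, nrm2 a2 b2, nrm2 a3 b3, le_nmin hS ?_, le_nmin ?_ k1⟩
  · rw [nadd, Nat.cast_add, add_div]
    refine le_trans ?_ (add_le_add k1 k2)
    exact norm_le_norm_add_norm_sub' _ _
  · rw [nadd, Nat.cast_add, add_div]
    refine le_trans ?_ (add_le_add hS k2)
    exact norm_le_norm_add_norm_sub _ _

theorem Valid.const {c : C} {e : ℕ} (h : ‖f - c.val‖ ≤ e / sc) :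
    Valid d1 d2 d3 (const c e) f := by
  have e0 : (TM.const c e).aff d1 d2 d3 = c.val := by simp [aff, TM.const]
  refine ⟨by rw [e0]; exact h.trans_eq (R10.ev_cst e).symm, by simp [TM.const], by simp [TM.const],
    by simp [TM.const], ?_, by rw [e0]; exact c.nrm_ge⟩
  show _ ≤ ((c.nrm + e : ℕ) : ℝ) / sc
  rw [Nat.cast_add, add_div]
  exact (norm_le_norm_add_norm_sub' _ _).trans (add_le_add c.nrm_ge h)

theorem Valid.var1 {c : C} {S : ℕ} (h : ‖c.val + d1‖ ≤ S / sc) :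
    Valid d1 d2 d3 (var1 c S) (c.val + d1) := by
  have e0 : (TM.var1 c S).aff d1 d2 d3 = c.val + d1 := by simp [aff, TM.var1]
  refine ⟨by rw [e0]; simp [TM.var1, R10.ev_cst], ?_, by simp [TM.var1], by simp [TM.var1], h,
    by rw [e0]; exact h⟩
  show ‖C.one.val‖ + ‖C.zero.val‖ ≤ ((18446744073709551616 : ℕ) : ℝ) / sc
  rw [sc_eq, div_self sc_pos.ne']; simp

theorem Valid.var2 {c : C} {S : ℕ} (h : ‖c.val + d2‖ ≤ S / sc) :
    Valid d1 d2 d3 (var2 c S) (c.val + d2) := by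
  have e0 : (TM.var2 c S).aff d1 d2 d3 = c.val + d2 := by simp [aff, TM.var2]
  refine ⟨by rw [e0]; simp [TM.var2, R10.ev_cst], by simp [TM.var2], ?_, by simp [TM.var2], h,
    by rw [e0]; exact h⟩
  show ‖C.one.val‖ + ‖C.zero.val‖ ≤ ((18446744073709551616 : ℕ) : ℝ) / sc
  rw [sc_eq, div_self sc_pos.ne']; simp

theorem Valid.var3 {c : C} {S : ℕ} (h : ‖c.val + d3‖ ≤ S / sc) :
    Valid d1 d2 d3 (var3 c S) (c.val + d3) := by
  have e0 : (TM.var3 c S).aff d1 d2 d3 = c.val + d3 := by simp [aff, TM.var3]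
  refine ⟨by rw [e0]; simp [TM.var3, R10.ev_cst], by simp [TM.var3], by simp [TM.var3], ?_, h,
    by rw [e0]; exact h⟩
  show ‖C.one.val‖ + ‖C.zero.val‖ ≤ ((18446744073709551616 : ℕ) : ℝ) / sc
  rw [sc_eq, div_self sc_pos.ne']; simp

theorem Valid.add (h : Env m d1 d2 d3) (hs : Valid d1 d2 d3 s f) (ht : Valid d1 d2 d3 t g) :
    Valid d1 d2 d3 (add m s t) (f + g) := by
  refine valid_mk0 h ?_ ?_
  · rw [R10.ev_add]
    refine le_of_eq_of_le ?_ ((norm_add_le _ _).trans (add_le_add hs.rem ht.rem))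
    congr 1
    simp only [aff, C.val_add]; ring
  · rw [nadd, Nat.cast_add, add_div]
    exact (norm_add_le _ _).trans (add_le_add hs.S ht.S)

theorem Valid.sub (h : Env m d1 d2 d3) (hs : Valid d1 d2 d3 s f) (ht : Valid d1 d2 d3 t g) :
    Valid d1 d2 d3 (sub m s t) (f - g) := by
  refine valid_mk0 h ?_ ?_
  · rw [R10.ev_add]
    refine le_of_eq_of_le ?_ ((norm_sub_le _ _).trans (add_le_add hs.rem ht.rem))
    congr 1
    simp only [aff, C.val_sub]; ring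
  · rw [nadd, Nat.cast_add, add_div]
    exact (norm_sub_le _ _).trans (add_le_add hs.S ht.S)

theorem Valid.neg (ht : Valid d1 d2 d3 t f) : Valid d1 d2 d3 t.neg (-f) := by
  have e0 : t.neg.aff d1 d2 d3 = -t.aff d1 d2 d3 := by
    simp only [aff, TM.neg, C.val_neg]; ring
  refine ⟨?_, ?_, ?_, ?_, ?_, ?_⟩
  · rw [e0, show -f - -t.aff d1 d2 d3 = -(f - t.aff d1 d2 d3) by ring, norm_neg]; exact ht.rem
  · simpa [TM.neg] using ht.n1
  · simpa [TM.neg] using ht.n2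
  · simpa [TM.neg] using ht.n3
  · rw [norm_neg]; exact ht.S
  · rw [e0, norm_neg]; exact ht.A

theorem Valid.cj (ht : Valid d1 d2 d3 t f) : Valid d1 d2 d3 t.cj (conj f) := by
  have e0 : t.cj.aff d1 d2 d3 = conj (t.aff d1 d2 d3) := by
    simp only [aff, TM.cj, C.val_cj, map_add, map_mul, Complex.conj_conj]; ring
  refine ⟨?_, ?_, ?_, ?_, ?_, ?_⟩
  · rw [e0, ← map_sub, Complex.norm_conj]; exact ht.rem
  · simpa [TM.cj, add_comm] using ht.n1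
  · simpa [TM.cj, add_comm] using ht.n2
  · simpa [TM.cj, add_comm] using ht.n3
  · rw [Complex.norm_conj]; exact ht.S
  · rw [e0, Complex.norm_conj]; exact ht.A

lemma err_le {c a1 b1 a2 b2 a3 b3 : ℂ} (h0 : ‖c‖ ≤ 2 / sc) (p1 : ‖a1‖ ≤ 2 / sc)
    (q1 : ‖b1‖ ≤ 2 / sc) (p2 : ‖a2‖ ≤ 2 / sc) (q2 : ‖b2‖ ≤ 2 / sc) (p3 : ‖a3‖ ≤ 2 / sc)
    (q3 : ‖b3‖ ≤ 2 / sc) :
    ‖c + (a1 * d1 + b1 * conj d1) + (a2 * d2 + b2 * conj d2) + (a3 * d3 + b3 * conj d3)‖ ≤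
      2 / sc + 4 / sc * (‖d1‖ + ‖d2‖ + ‖d3‖) :=
  (form_le h0 (add_le_add p1 q1) (add_le_add p2 q2) (add_le_add p3 q3)).trans_eq (by ring)

lemma mul_up {u v : ℝ} {a b : ℕ} (hv : 0 ≤ v) (ha : u ≤ a / sc) (hb : v ≤ b / sc) :
    u * v ≤ up (Nat.mul a b) / sc := by
  have s0 := sc_pos
  refine (mul_le_mul ha hb hv (by positivity)).trans ?_
  rw [show (a : ℝ) / sc * (b / sc) = (a * b : ℕ) / sc / sc by push_cast; ring]
  exact div_le_div_of_nonneg_right (up_ge _) s0.le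

lemma iabs_norm (k : ℤ) : ‖((k / sc : ℝ) : ℂ)‖ = iabs k / sc := by
  rw [Complex.norm_real, Real.norm_eq_abs, abs_div, abs_of_pos sc_pos, iabs_eq, Nat.cast_natAbs,
    Int.cast_abs]

theorem Valid.rmul (h : Env m d1 d2 d3) (k : ℤ) (ht : Valid d1 d2 d3 t f) :
    Valid d1 d2 d3 (rmul m k t) (((k / sc : ℝ) : ℂ) * f) := by
  refine valid_mk0 h ?_ ?_
  · refine le_trans ?_ (R10.ev_smul _ _ _ _ (norm_nonneg _) (norm_nonneg _) (norm_nonneg _))
    have k1 := err_le (d1 := d1) (d2 := d2) (d3 := d3) (C.rmul_err k t.c) (C.rmul_err k t.a1)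
      (C.rmul_err k t.b1) (C.rmul_err k t.a2) (C.rmul_err k t.b2) (C.rmul_err k t.a3)
      (C.rmul_err k t.b3)
    have k2 : ‖((k / sc : ℝ) : ℂ) * (f - t.aff d1 d2 d3)‖ ≤
        iabs k / sc * t.R.ev ‖d1‖ ‖d2‖ ‖d3‖ := by
      rw [norm_mul, iabs_norm]
      exact mul_le_mul_of_nonneg_left ht.rem (by have := sc_pos; positivity)
    refine le_of_eq_of_le ?_ ((norm_add_le _ _).trans (add_le_add k2 k1))
    congr 1
    simp only [aff]; ring
  · rw [norm_mul]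
    exact mul_up (norm_nonneg _) (iabs_norm k).le ht.S

theorem Valid.cmul (h : Env m d1 d2 d3) {k : C} {e : ℕ} (hg : ‖g - k.val‖ ≤ e / sc)
    (ht : Valid d1 d2 d3 t f) : Valid d1 d2 d3 (cmul m k e t) (g * f) := by
  refine valid_mk0 h ?_ ?_
  · refine le_trans ?_ (R10.ev_smul _ _ _ _ (norm_nonneg _) (norm_nonneg _) (norm_nonneg _))
    have k1 := err_le (d1 := d1) (d2 := d2) (d3 := d3) (C.mul_err k t.c) (C.mul_err k t.a1)
      (C.mul_err k t.b1) (C.mul_err k t.a2) (C.mul_err k t.b2) (C.mul_err k t.a3)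
      (C.mul_err k t.b3)
    have k2 : ‖k.val * (f - t.aff d1 d2 d3)‖ ≤ k.nrm / sc * t.R.ev ‖d1‖ ‖d2‖ ‖d3‖ := by
      rw [norm_mul]
      exact mul_le_mul k.nrm_ge ht.rem (norm_nonneg _) (by have := sc_pos; positivity)
    have k3 : ‖(g - k.val) * f‖ ≤ up (Nat.mul e t.S) / sc := by
      rw [norm_mul]; exact mul_up (norm_nonneg _) hg ht.S
    refine le_trans (le_of_eq_of_le ?_ (norm_add₃_le.trans (add_le_add (add_le_add k2 k3) k1))) ?_
    · congr 1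
      simp only [aff]; ring
    · rw [nadd]; push_cast; apply le_of_eq; ring
  · rw [norm_mul]
    refine mul_up (norm_nonneg _) ?_ ht.S
    rw [nadd, Nat.cast_add, add_div]
    exact (norm_le_norm_add_norm_sub' _ _).trans (add_le_add k.nrm_ge hg)

theorem Valid.mul (h : Env m d1 d2 d3) (hs : Valid d1 d2 d3 s f) (ht : Valid d1 d2 d3 t g) :
    Valid d1 d2 d3 (mul m s t) (f * g) := by
  have s0 := sc_pos
  refine valid_mk0 h ?_ ?_
  · refine le_trans ?_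
      (R10.ev_comb _ _ _ _ _ _ _ _ _ _ (norm_nonneg _) (norm_nonneg _) (norm_nonneg _))
    have k1 := err_le (d1 := d1) (d2 := d2) (d3 := d3) (C.mul_err s.c t.c)
      (C.fma_err s.c t.a1 t.c s.a1) (C.fma_err s.c t.b1 t.c s.b1) (C.fma_err s.c t.a2 t.c s.a2)
      (C.fma_err s.c t.b2 t.c s.b2) (C.fma_err s.c t.a3 t.c s.a3) (C.fma_err s.c t.b3 t.c s.b3)
    have k2 : ‖g * (f - s.aff d1 d2 d3)‖ ≤ t.S / sc * s.R.ev ‖d1‖ ‖d2‖ ‖d3‖ := by
      rw [norm_mul]; exact mul_le_mul ht.S hs.rem (norm_nonneg _) (by positivity)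
    have k3 : ‖s.aff d1 d2 d3 * (g - t.aff d1 d2 d3)‖ ≤ s.A / sc * t.R.ev ‖d1‖ ‖d2‖ ‖d3‖ := by
      rw [norm_mul]; exact mul_le_mul hs.A ht.rem (norm_nonneg _) (by positivity)
    have l1 := norm_add₃_le.trans (add_le_add (add_le_add (lin_le (d := d1) hs.n1)
      (lin_le (d := d2) hs.n2)) (lin_le (d := d3) hs.n3))
    have l2 := norm_add₃_le.trans (add_le_add (add_le_add (lin_le (d := d1) ht.n1)
      (lin_le (d := d2) ht.n2)) (lin_le (d := d3) ht.n3))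
    have k4 := (norm_mul _ _).trans_le (mul_le_mul l1 l2 (norm_nonneg _) (by positivity))
    refine le_of_eq_of_le ?_
      (norm_add₄_le.trans (add_le_add (add_le_add (add_le_add k2 k3) k4) k1))
    congr 1
    simp only [aff]; ring
  · rw [norm_mul]
    exact mul_up (norm_nonneg _) hs.S ht.S

theorem Valid.absorb (ht : Valid d1 d2 d3 t f) : ‖f‖ ≤ t.absorb.ev ‖d1‖ ‖d2‖ ‖d3‖ := by
  have k := form_le (d1 := d1) (d2 := d2) (d3 := d3) t.c.nrm_ge ht.n1 ht.n2 ht.n3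
  refine le_trans ?_ (R10.ev_addl _ _ _ _ _).ge
  rw [add_comm]
  exact (norm_le_norm_add_norm_sub' f _).trans (add_le_add k ht.rem)

theorem Valid.addRem (h : Env m d1 d2 d3) (ht : Valid d1 d2 d3 t f) {r : R10}
    (hg : ‖g - f‖ ≤ r.ev ‖d1‖ ‖d2‖ ‖d3‖) : Valid d1 d2 d3 (addRem m t r) g := by
  refine ⟨?_, ht.n1, ht.n2, ht.n3, ?_, ht.A⟩
  · refine le_trans ?_ (R10.ev_add _ _).ge
    refine le_of_eq_of_le ?_ ((norm_add_le _ _).trans (add_le_add ht.rem hg))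
    congr 1
    show g - t.aff d1 d2 d3 = _
    ring
  · show _ ≤ ((t.S + r.sup m : ℕ) : ℝ) / sc
    rw [Nat.cast_add, add_div]
    exact (norm_le_norm_add_norm_sub' g f).trans (add_le_add ht.S (hg.trans (R10.ev_le_sup r h)))

theorem Valid.setS (h : Env m d1 d2 d3) (ht : Valid d1 d2 d3 t f) {S' : ℕ} (hS : ‖f‖ ≤ S' / sc) :
    Valid d1 d2 d3 (setS m t S') f := by
  refine ⟨ht.rem, ht.n1, ht.n2, ht.n3, le_nmin ht.S hS, le_nmin ht.A ?_⟩
  rw [nadd, Nat.cast_add, add_div]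
  exact (norm_le_norm_add_norm_sub f _).trans (add_le_add hS (ht.rem.trans (R10.ev_le_sup t.R h)))

lemma half : (((Int.ofNat 9223372036854775808 : ℤ) / sc : ℝ) : ℂ) = 1 / 2 := by
  have : ((Int.ofNat 9223372036854775808 : ℤ) / sc : ℝ) = 1 / 2 := by norm_num [sc]
  rw [this]; push_cast; rfl

theorem Valid.re (h : Env m d1 d2 d3) (ht : Valid d1 d2 d3 t f) :
    Valid d1 d2 d3 (re m t) (f.re : ℂ) := by
  have k := (ht.add h ht.cj).rmul h (.ofNat 9223372036854775808)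
  rwa [half, Complex.add_conj, show (1 / 2 : ℂ) * ((2 * f.re : ℝ) : ℂ) = f.re by
    push_cast; ring] at k

lemma isq_core {e : ℝ} (he : |e| ≤ 1 / 16) : |1 / √(1 - e) - (1 + e / 2)| ≤ 13 / 32 * e ^ 2 := by
  obtain ⟨e1, e2⟩ := abs_le.1 he
  have p : 0 < 1 - e := by linarith
  have q := Real.sqrt_pos.2 p
  have r := Real.mul_self_sqrt p.le
  have e0 := sq_nonneg e
  have e3 : e ^ 2 ≤ 1 / 256 := by nlinarith
  rw [abs_le]
  constructor
  · have : 1 + e / 2 ≤ 1 / √(1 - e) := by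
      rw [le_div_iff₀ q]
      refine (abs_le_of_sq_le_sq' ?_ zero_le_one).2
      rw [mul_pow, Real.sq_sqrt p.le]
      nlinarith [mul_nonneg e0 (show 0 ≤ 3 + e by linarith)]
    nlinarith
  · have : 1 / √(1 - e) ≤ 1 + e / 2 + 13 / 32 * e ^ 2 := by
      rw [div_le_iff₀ q]
      refine (abs_le_of_sq_le_sq' ?_ (mul_nonneg (by linarith) q.le)).2
      rw [mul_pow, Real.sq_sqrt p.le]
      have : 0 ≤ 1 / 16 - 21 / 32 * e - 247 / 1024 * e ^ 2 - 169 / 1024 * (e * e ^ 2) := by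
        nlinarith [mul_nonneg e0 (show 0 ≤ 1 / 16 - e by linarith)]
      nlinarith [mul_nonneg e0 this]
    linarith

lemma isqE_aux (K : ℕ) (hK : (K : ℝ) = sc) (y S : ℕ) {F : ℝ} (hF : 1 ≤ F) (FS : F ≤ S / sc) :
    |1 - y / sc * (y / sc * F)| ≤ nmax (up (Nat.sub (Nat.mul K K) (Nat.mul y y)))
      (Nat.sub (up (Nat.mul (up (Nat.mul y y)) S)) K) / sc := by
  have s0 := sc_pos
  set Y : ℝ := y / sc with hY
  have Y0 : 0 ≤ Y := by positivity
  rw [nmax_eq, abs_le]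
  constructor
  · have k1 : Y * Y ≤ up (Nat.mul y y) / sc := mul_up Y0 le_rfl le_rfl
    have k2 := mul_up (by linarith) k1 FS
    have k3 : ((up (Nat.mul (up (Nat.mul y y)) S) : ℕ) : ℝ) ≤ sc +
        (max (up (Nat.sub (Nat.mul K K) (Nat.mul y y)))
        (Nat.sub (up (Nat.mul (up (Nat.mul y y)) S)) K) : ℕ) := by
      rw [← hK, ← Nat.cast_add, Nat.cast_le, Nat.sub_eq, Nat.sub_eq]
      omega
    have k4 := div_le_div_of_nonneg_right k3 s0.le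
    rw [add_div, div_self s0.ne'] at k4
    linarith
  · refine le_trans ?_ (div_le_div_of_nonneg_right (Nat.cast_le.2 (le_max_left _ _)) s0.le)
    refine le_trans ?_ (div_le_div_of_nonneg_right (up_ge _) s0.le)
    have k3 : sc * sc ≤ (y : ℝ) * y + (Nat.sub (Nat.mul K K) (Nat.mul y y) : ℕ) := by
      rw [← hK, ← Nat.cast_mul, ← Nat.cast_mul, ← Nat.cast_add, Nat.cast_le, Nat.sub_eq,
        nmul, nmul]
      omega
    have k5 : Y * Y ≤ Y * (Y * F) := by nlinarith [mul_nonneg Y0 Y0]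
    have k6 : 1 - Y * Y = (sc * sc - y * y) / sc / sc := by rw [hY]; field_simp
    refine le_trans (by linarith : _ ≤ 1 - Y * Y) ?_
    rw [k6]
    gcongr
    linarith

lemma c13 : (13 / 32 : ℝ) ≤ (7493989779944505344 : ℕ) / sc := by norm_num [sc]

lemma isq_one {F : ℝ} (hF : 1 ≤ F) : ‖((1 / √F : ℝ) : ℂ)‖ ≤ (18446744073709551616 : ℕ) / sc := by
  have : 1 ≤ √F := Real.one_le_sqrt.2 hF
  rw [sc_eq, div_self sc_pos.ne', Complex.norm_real, Real.norm_eq_abs, abs_of_pos (by positivity)]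
  exact (div_le_one (by positivity)).2 this

lemma isq_rem {F Y e r K : ℝ} (hF : 1 ≤ F) (Y0 : 0 ≤ Y) (hee : e = 1 - Y * (Y * F))
    (he : |e| ≤ 1 / 16) (k7 : 13 / 32 * Y ≤ K) (v4 : ‖(e : ℂ) * e‖ ≤ r) :
    ‖((1 / √F : ℝ) : ℂ) - Y * (1 + 1 / 2 * e)‖ ≤ K * r := by
  rw [← Complex.ofReal_mul, Complex.norm_real, Real.norm_eq_abs, abs_mul_self] at v4
  have Yp : 0 < Y := by
    rcases Y0.eq_or_lt with k | k
    · rw [hee, ← k] at he; norm_num at he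
    · exact k
  have sq : √(1 - e) = Y * √F := by
    rw [show 1 - e = Y * Y * F by rw [hee]; ring, Real.sqrt_mul (mul_self_nonneg Y),
      Real.sqrt_mul_self Y0]
  have sF : 0 < √F := Real.sqrt_pos.2 (by linarith)
  have e1 : ((1 / √F : ℝ) : ℂ) - Y * (1 + 1 / 2 * e) =
      ((Y * (1 / √(1 - e) - (1 + e / 2)) : ℝ) : ℂ) := by
    have : Y * (1 / √(1 - e) - (1 + e / 2)) = 1 / √F - Y * (1 + 1 / 2 * e) := by
      rw [sq]; field_simp
    rw [this]; push_cast; rfl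
  rw [e1, Complex.norm_real, Real.norm_eq_abs, abs_mul, abs_of_pos Yp]
  have k8 := mul_le_mul k7 v4 (mul_self_nonneg e) (by linarith)
  have k9 := mul_le_mul_of_nonneg_left (isq_core he) Y0
  nlinarith

lemma cast_ofNat' (y : ℕ) : (((Int.ofNat y : ℤ) / sc : ℝ) : ℂ) = ((y / sc : ℝ) : ℂ) := by simp

lemma c16 {a : ℕ} (h : Nat.ble a 1152921504606846976 = true) : (a : ℝ) / sc ≤ 1 / 16 := by
  have : (a : ℝ) ≤ (1152921504606846976 : ℕ) := Nat.cast_le.2 (Nat.le_of_ble_eq_true h)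
  rw [div_le_iff₀ sc_pos]; refine this.trans_eq ?_; norm_num [sc]

lemma valid_isq1 (h : Env m d1 d2 d3) (y : ℕ) {F e : ℝ} (hF : 1 ≤ F)
    (hee : e = 1 - y / sc * (y / sc * F)) (he : |e| ≤ 1 / 16) (v2 : Valid d1 d2 d3 t (e : ℂ)) :
    Valid d1 d2 d3 (isq1 m y t) ((1 / √F : ℝ) : ℂ) := by
  have Y0 : (0 : ℝ) ≤ y / sc := div_nonneg y.cast_nonneg sc_pos.le
  have c1 : Valid d1 d2 d3 (TM.const .one 0) 1 := Valid.const (by simp)
  have v3 := (c1.add h (v2.rmul h (.ofNat 9223372036854775808))).rmul h (.ofNat y)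
  rw [cast_ofNat', half] at v3
  refine Valid.setS h (v3.addRem h ?_) (isq_one hF)
  refine le_trans ?_ (R10.ev_smul _ _ _ _ (norm_nonneg _) (norm_nonneg _) (norm_nonneg _))
  refine (isq_rem hF Y0 hee he (mul_up Y0 c13 le_rfl) (v2.mul h v2).absorb).trans_eq ?_
  rw [Nat.cast_zero, zero_div, zero_mul, add_zero, add_zero]

lemma valid_cond {b : Bool} (hs : Valid d1 d2 d3 s f) (ht : b = true → Valid d1 d2 d3 t f) :
    Valid d1 d2 d3 (sel b s t) f := by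
  cases b
  · exact hs
  · exact ht rfl

theorem Valid.isq (h : Env m d1 d2 d3) (y : ℕ) {F : ℝ} (hF : 1 ≤ F)
    (ht : Valid d1 d2 d3 t (F : ℂ)) : Valid d1 d2 d3 (isq m y t) ((1 / √F : ℝ) : ℂ) := by
  have c0 : Valid d1 d2 d3 (TM.const .zero 18446744073709551616) ((1 / √F : ℝ) : ℂ) :=
    Valid.const (by rw [C.val_zero, sub_zero]; exact isq_one hF)
  unfold TM.isq
  refine valid_cond c0 fun hb => ?_
  have c1 : Valid d1 d2 d3 (TM.const .one 0) 1 := Valid.const (by simp)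
  have FS : F ≤ t.S / sc := by
    have := ht.S
    rwa [Complex.norm_real, Real.norm_eq_abs, abs_of_pos (zero_lt_one.trans_le hF)] at this
  have hE : |1 - y / sc * (y / sc * F)| ≤ isqE y t.S / sc := isqE_aux _ sc_eq y t.S hF FS
  have v1 := (c1.sub h ((ht.rmul h (.ofNat y)).rmul h (.ofNat y)))
  rw [cast_ofNat', ← Complex.ofReal_mul, ← Complex.ofReal_mul, ← Complex.ofReal_one,
    ← Complex.ofReal_sub] at v1
  exact valid_isq1 h y hF rfl (hE.trans (c16 hb))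
    (v1.setS h (by rwa [Complex.norm_real, Real.norm_eq_abs]))

lemma aff_re (t : TM) (d1 d2 d3 : ℂ) : (t.aff d1 d2 d3).re * sc =
    t.c.x + (iadd t.a1.x t.b1.x * d1.re + inmul 3 (isub t.b1.y t.a1.y) * (d1.im / √3)) +
    (iadd t.a2.x t.b2.x * d2.re + inmul 3 (isub t.b2.y t.a2.y) * (d2.im / √3)) +
    (iadd t.a3.x t.b3.x * d3.re + inmul 3 (isub t.b3.y t.a3.y) * (d3.im / √3)) := by
  have s0 := sc_pos.ne'
  have k : √3 = (3 : ℝ) / √3 := by rw [eq_div_iff (by positivity)]; exact C.s3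
  simp only [aff, C.val, Complex.add_re, Complex.mul_re, Complex.conj_re, Complex.conj_im,
    iadd_eq, isub_eq, inmul_eq]
  push_cast
  have k' : ∀ u : ℝ, u / √3 = √3 * u / 3 := fun u => by
    rw [div_eq_div_iff (by positivity) (by norm_num)]; linear_combination (-u) * C.s3
  rw [k' d1.im, k' d2.im, k' d3.im]
  field_simp
  ring

lemma aff_im (t : TM) (d1 d2 d3 : ℂ) : (t.aff d1 d2 d3).im / √3 * sc =
    t.c.y + (iadd t.a1.y t.b1.y * d1.re + isub t.a1.x t.b1.x * (d1.im / √3)) +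
    (iadd t.a2.y t.b2.y * d2.re + isub t.a2.x t.b2.x * (d2.im / √3)) +
    (iadd t.a3.y t.b3.y * d3.re + isub t.a3.x t.b3.x * (d3.im / √3)) := by
  have s0 := sc_pos.ne'
  have s1 : √3 ≠ (0 : ℝ) := by positivity
  simp only [aff, C.val, Complex.add_im, Complex.mul_im, Complex.conj_re, Complex.conj_im,
    iadd_eq, isub_eq]
  push_cast
  field_simp
  ring

end TM

lemma ofQ_err (q : ℚ) : (ofQ q : ℝ) ≤ q * sc ∧ q * sc ≤ ofQ q + 1 := by
  have d0 : (0 : ℤ) < q.den := by exact_mod_cast q.den_pos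
  have e : ofQ q = q.num * 18446744073709551616 / (q.den : ℤ) := by
    rw [ofQ, imul_eq]; rfl
  have k1 : ofQ q * q.den ≤ q.num * 18446744073709551616 := by
    rw [e]; exact Int.ediv_mul_le _ d0.ne'
  have k2 : q.num * 18446744073709551616 ≤ (ofQ q + 1) * q.den := by
    rw [e]; exact (Int.lt_ediv_add_one_mul_self _ d0).le
  have d1 : (0 : ℝ) < q.den := by exact_mod_cast q.den_pos
  have e2 : (q : ℝ) * sc = q.num * 18446744073709551616 / q.den := by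
    rw [Rat.cast_def, sc]; ring
  rw [e2, le_div_iff₀ d1, div_le_iff₀ d1]
  exact ⟨by exact_mod_cast k1, by exact_mod_cast k2⟩

theorem le_upQ (q : ℚ) : (q : ℝ) ≤ upQ q / sc := by
  rw [le_div_iff₀ sc_pos]
  refine (ofQ_err q).2.trans ?_
  have : ofQ q + 1 ≤ (upQ q : ℤ) := by
    show _ ≤ ((ipos (ofQ q) + 1 : ℕ) : ℤ)
    rw [ipos_eq]; omega
  exact_mod_cast this

theorem C.ofQ_err (x y : ℚ) : ‖(⟨x, √3 * y⟩ : ℂ) - (C.ofQ x y).val‖ ≤ (2 : ℕ) / sc := by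
  have h0 := sc_pos
  obtain ⟨a1, a2⟩ := Chk.ofQ_err x
  obtain ⟨b1, b2⟩ := Chk.ofQ_err y
  have e : (⟨x, √3 * y⟩ : ℂ) - (C.ofQ x y).val =
      ⟨(x * sc - Chk.ofQ x) / sc, √3 * ((y * sc - Chk.ofQ y) / sc)⟩ := by
    apply Complex.ext <;> simp only [C.val, C.ofQ, Complex.sub_re, Complex.sub_im] <;> field_simp
  rw [e]
  refine (abs_le_of_sq_le_sq' ?_ (by positivity)).2
  rw [Complex.sq_norm, Complex.normSq_mk]
  have m1 : (x * sc - Chk.ofQ x) * (x * sc - Chk.ofQ x) ≤ 1 := by nlinarith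
  have m2 : (y * sc - Chk.ofQ y) * (y * sc - Chk.ofQ y) ≤ 1 := by nlinarith
  generalize (x : ℝ) * sc - Chk.ofQ x = s at m1
  generalize (y : ℝ) * sc - Chk.ofQ y = t at m2
  have e2 : s / sc * (s / sc) + √3 * (t / sc) * (√3 * (t / sc)) = (s * s + 3 * (t * t)) / sc ^ 2 := by
    field_simp
    linear_combination t ^ 2 * C.s3
  rw [e2, div_pow]
  gcongr
  push_cast
  linarith

end Pool.Agent.Lib.MP_fb520c_co.Chk
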