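import Mathlib

/-! Integer operations written with recursors (cheap for the kernel) and fixed point numbers
`x + y √(-3)` in units of `2 ^ (-64)`. -/

set_option autoImplicit false

open Complex ComplexConjugate

noncomputable section

namespace Pool.Agent.Lib.MP_fb520c_co.Chk

/-- `-k` -/
def ineg (k : ℕ) : ℤ := Nat.rec (.ofNat 0) (fun k' _ => .negSucc k') k

/-- `m - (n + 1)` -/
def isn (m n : ℕ) : ℤ :=
  Bool.rec (.ofNat (Nat.sub m (Nat.succ n))) (.negSucc (Nat.sub n m)) (Nat.ble m n)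

/-- product -/
def imul (a b : ℤ) : ℤ :=
  Int.rec
    (fun m => Int.rec (fun n => .ofNat (Nat.mul m n)) (fun n => ineg (Nat.mul m (Nat.succ n))) b)
    (fun m => Int.rec (fun n => ineg (Nat.mul (Nat.succ m) n))
      (fun n => .ofNat (Nat.mul (Nat.succ m) (Nat.succ n))) b) a

/-- sum -/
def iadd (a b : ℤ) : ℤ :=
  Int.rec (fun m => Int.rec (fun n => .ofNat (Nat.add m n)) (fun n => isn m n) b)
    (fun m => Int.rec (fun n => isn n m) (fun n => .negSucc (Nat.succ (Nat.add m n))) b) a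

/-- opposite -/
def iopp (a : ℤ) : ℤ := Int.rec (fun m => ineg m) (fun m => .ofNat (Nat.succ m)) a

/-- difference -/
def isub (a b : ℤ) : ℤ := iadd a (iopp b)

/-- absolute value -/
def iabs (a : ℤ) : ℕ := Int.rec (fun m => m) (fun m => Nat.succ m) a

/-- the positive part -/
def ipos (a : ℤ) : ℕ := Int.rec (fun m => m) (fun _ => 0) a

/-- product with a natural number -/
def inmul (k : ℕ) (a : ℤ) : ℤ :=
  Int.rec (fun m => .ofNat (Nat.mul k m)) (fun m => ineg (Nat.mul k (Nat.succ m))) a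

/-- division by `2 ^ 64`, rounded down -/
def ishr (a : ℤ) : ℤ :=
  Int.rec (fun m => .ofNat (Nat.shiftRight m 64)) (fun m => .negSucc (Nat.shiftRight m 64)) a

/-- the minimum -/
def nmin (a b : ℕ) : ℕ := Bool.rec b a (Nat.ble a b)

/-- the maximum -/
def nmax (a b : ℕ) : ℕ := Bool.rec a b (Nat.ble a b)

/-- division by `2 ^ 64`, rounded up -/
def up (a : ℕ) : ℕ := Nat.succ (Nat.shiftRight a 64)

/-- one Newton step towards the square root of `q`, rounded up -/
def newt (q s : ℕ) : ℕ := Nat.succ (Nat.shiftRight (Nat.add s (Nat.succ (Nat.div q s))) 1)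

@[simp] lemma ineg_eq (k : ℕ) : ineg k = -(k : ℤ) := by
  cases k with
  | zero => rfl
  | succ k => rfl

@[simp] lemma isn_eq (m n : ℕ) : isn m n = (m : ℤ) - (n + 1) := by
  unfold isn
  cases h : Nat.ble m n with
  | true =>
    have := Nat.le_of_ble_eq_true h
    show Int.negSucc (n - m) = _
    omega
  | false =>
    have : ¬ m ≤ n := fun k => by rw [Nat.ble_eq_true_of_le k] at h; cases h
    show ((m - (n + 1) : ℕ) : ℤ) = _
    omega

@[simp] lemma imul_eq (a b : ℤ) : imul a b = a * b := by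
  cases a <;> cases b <;> simp [imul, Int.negSucc_eq] <;> ring

@[simp] lemma iadd_eq (a b : ℤ) : iadd a b = a + b := by
  cases a <;> cases b <;> simp [iadd, Int.negSucc_eq] <;> ring

@[simp] lemma iopp_eq (a : ℤ) : iopp a = -a := by
  cases a <;> simp [iopp, Int.negSucc_eq]

@[simp] lemma isub_eq (a b : ℤ) : isub a b = a - b := by
  simp [isub, sub_eq_add_neg]

@[simp] lemma iabs_eq (a : ℤ) : iabs a = a.natAbs := by
  cases a <;> rfl

@[simp] lemma ipos_eq (a : ℤ) : ipos a = a.toNat := by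
  cases a <;> rfl

@[simp] lemma inmul_eq (k : ℕ) (a : ℤ) : inmul k a = k * a := by
  cases a <;> simp [inmul, Int.negSucc_eq]; ring

@[simp] lemma ishr_eq (a : ℤ) : ishr a = a / 2 ^ 64 := by
  have : ishr a = a >>> (64 : ℕ) := by cases a <;> rfl
  rw [this, Int.shiftRight_eq_div_pow]; rfl

@[simp] lemma nmin_eq (a b : ℕ) : nmin a b = min a b := by
  unfold nmin
  cases h : Nat.ble a b with
  | true => exact (min_eq_left (Nat.le_of_ble_eq_true h)).symm
  | false =>
    have : ¬ a ≤ b := fun k => by rw [Nat.ble_eq_true_of_le k] at h; cases h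
    exact (min_eq_right (not_le.1 this).le).symm

@[simp] lemma nmax_eq (a b : ℕ) : nmax a b = max a b := by
  unfold nmax
  cases h : Nat.ble a b with
  | true => exact (max_eq_right (Nat.le_of_ble_eq_true h)).symm
  | false =>
    have : ¬ a ≤ b := fun k => by rw [Nat.ble_eq_true_of_le k] at h; cases h
    exact (max_eq_left (not_le.1 this).le).symm

/-- the unit of the fixed point numbers -/
def sc : ℝ := 2 ^ 64

lemma sc_pos : 0 < sc := by unfold sc; positivity

lemma up_ge (a : ℕ) : (a : ℝ) / sc ≤ up a := by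
  have e : up a = a / 2 ^ 64 + 1 := by
    show a >>> 64 + 1 = _
    rw [Nat.shiftRight_eq_div_pow]
  have k : a ≤ (a / 2 ^ 64 + 1) * 2 ^ 64 := by omega
  rw [e, div_le_iff₀ sc_pos, sc]
  exact_mod_cast k

lemma ishr_err (a : ℤ) : |(a : ℝ) / sc - ishr a| ≤ 1 := by
  have k1 : a / 2 ^ 64 * 2 ^ 64 ≤ a := by omega
  have k2 : a ≤ (a / 2 ^ 64 + 1) * 2 ^ 64 := by omega
  have m1 : ((a / 2 ^ 64 : ℤ) : ℝ) ≤ a / sc := by
    rw [le_div_iff₀ sc_pos, sc]; exact_mod_cast k1
  have m2 : (a : ℝ) / sc ≤ (a / 2 ^ 64 : ℤ) + 1 := by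
    rw [div_le_iff₀ sc_pos, sc]; exact_mod_cast k2
  rw [ishr_eq, abs_le]
  constructor <;> linarith

lemma newt_pos (q s : ℕ) : 0 < newt q s := Nat.succ_pos _

lemma newt_ge (q s : ℕ) (hs : 0 < s) : q ≤ newt q s ^ 2 := by
  have e : newt q s = (s + (q / s + 1)) / 2 + 1 := by
    show (s + (q / s + 1)) >>> 1 + 1 = _
    rw [Nat.shiftRight_eq_div_pow]
  have k1 : q ≤ s * (q / s + 1) := by
    have := Nat.div_add_mod q s
    have := Nat.mod_lt q hs
    nlinarith
  have k2 : s + (q / s + 1) ≤ 2 * newt q s := by omega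
  have k3 : (s + (q / s + 1)) ^ 2 ≤ (2 * newt q s) ^ 2 := Nat.pow_le_pow_left k2 2
  generalize q / s + 1 = t at *
  generalize newt q s = u at *
  zify at *
  nlinarith [sq_nonneg ((s : ℤ) - t)]

/-- the number `(x + y √(-3)) / 2 ^ 64` -/
structure C where
  x : ℤ
  y : ℤ

namespace C

/-- the value -/
def val (a : C) : ℂ := ⟨a.x / sc, √3 * (a.y / sc)⟩

/-- zero -/
def zero : C := ⟨.ofNat 0, .ofNat 0⟩

/-- one -/
def one : C := ⟨.ofNat 18446744073709551616, .ofNat 0⟩

/-- sum -/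
def add (a b : C) : C :=
  C.rec (fun x y => C.rec (fun x' y' => ⟨iadd x x', iadd y y'⟩) b) a

/-- difference -/
def sub (a b : C) : C :=
  C.rec (fun x y => C.rec (fun x' y' => ⟨isub x x', isub y y'⟩) b) a

/-- opposite -/
def neg (a : C) : C := C.rec (fun x y => ⟨iopp x, iopp y⟩) a

/-- conjugate -/
def cj (a : C) : C := C.rec (fun x y => ⟨x, iopp y⟩) a

/-- rounded product -/
def mul (a b : C) : C :=
  C.rec (fun x y => C.rec (fun x' y' =>
    ⟨ishr (isub (imul x x') (inmul 3 (imul y y'))), ishr (iadd (imul x y') (imul y x'))⟩) b) a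

/-- rounded `a b + c d` -/
def fma (a b c d : C) : C :=
  C.rec (fun x y => C.rec (fun x' y' => C.rec (fun u v => C.rec (fun u' v' =>
    ⟨ishr (isub (iadd (imul x x') (imul u u')) (inmul 3 (iadd (imul y y') (imul v v')))),
      ishr (iadd (iadd (imul x y') (imul y x')) (iadd (imul u v') (imul v u')))⟩) d) c) b) a

/-- rounded product with the real number `k / 2 ^ 64` -/
def rmul (k : ℤ) (a : C) : C := C.rec (fun x y => ⟨ishr (imul k x), ishr (imul k y)⟩) a

/-- upper bound of `√(x ^ 2 + 3 y ^ 2)` -/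
def nrm0 (x y : ℕ) : ℕ :=
  newt (Nat.add (Nat.mul x x) (Nat.mul 3 (Nat.mul y y)))
    (newt (Nat.add (Nat.mul x x) (Nat.mul 3 (Nat.mul y y)))
      (newt (Nat.add (Nat.mul x x) (Nat.mul 3 (Nat.mul y y))) (Nat.succ (Nat.add x (Nat.add y y)))))

/-- upper bound of the modulus -/
def nrm (a : C) : ℕ := C.rec (fun x y => nrm0 (iabs x) (iabs y)) a

lemma s3 : √3 * √3 = (3 : ℝ) := Real.mul_self_sqrt (by norm_num)

@[simp] lemma val_zero : zero.val = 0 := by
  apply Complex.ext <;> simp [val, zero]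

@[simp] lemma val_one : one.val = 1 := by
  apply Complex.ext <;> simp [val, one, sc]; norm_num

@[simp] lemma val_add (a b : C) : (a.add b).val = a.val + b.val := by
  apply Complex.ext <;> simp [val, add] <;> ring

@[simp] lemma val_sub (a b : C) : (a.sub b).val = a.val - b.val := by
  apply Complex.ext <;> simp [val, sub] <;> ring

@[simp] lemma val_neg (a : C) : a.neg.val = -a.val := by
  apply Complex.ext <;> simp [val, neg] <;> ring

@[simp] lemma val_cj (a : C) : a.cj.val = conj a.val := by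
  apply Complex.ext <;> simp [val, cj]; ring

lemma rnd (p q : ℤ) :
    ‖(⟨p / sc / sc, √3 * (q / sc / sc)⟩ : ℂ) - (⟨ishr p, ishr q⟩ : C).val‖ ≤ 2 / sc := by
  have k1 := ishr_err p
  have k2 := ishr_err q
  have h0 := sc_pos
  have e : (⟨p / sc / sc, √3 * (q / sc / sc)⟩ : ℂ) - (⟨ishr p, ishr q⟩ : C).val =
      ⟨(p / sc - ishr p) / sc, √3 * ((q / sc - ishr q) / sc)⟩ := by
    apply Complex.ext <;> simp only [val, Complex.sub_re, Complex.sub_im] <;> ring
  rw [e]
  generalize (p : ℝ) / sc - ishr p = s at k1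
  generalize (q : ℝ) / sc - ishr q = t at k2
  refine (abs_le_of_sq_le_sq' ?_ (by positivity)).2
  rw [Complex.sq_norm, Complex.normSq_mk]
  have m1 : s * s ≤ 1 := by nlinarith [abs_le.1 k1]
  have m2 : t * t ≤ 1 := by nlinarith [abs_le.1 k2]
  have e2 : s / sc * (s / sc) + √3 * (t / sc) * (√3 * (t / sc)) = (s * s + 3 * (t * t)) / sc ^ 2 := by
    field_simp
    linear_combination t ^ 2 * s3
  rw [e2, div_pow]
  gcongr
  linarith

lemma mul_err (a b : C) : ‖a.val * b.val - (a.mul b).val‖ ≤ 2 / sc := by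
  refine le_of_eq_of_le ?_ (rnd (isub (imul a.x b.x) (inmul 3 (imul a.y b.y)))
    (iadd (imul a.x b.y) (imul a.y b.x)))
  congr 2
  apply Complex.ext <;> simp [val]
  · linear_combination (-(a.y / sc * (b.y / sc)) : ℝ) * s3
  · ring

lemma fma_err (a b c d : C) : ‖a.val * b.val + c.val * d.val - (a.fma b c d).val‖ ≤ 2 / sc := by
  refine le_of_eq_of_le ?_ (rnd
    (isub (iadd (imul a.x b.x) (imul c.x d.x)) (inmul 3 (iadd (imul a.y b.y) (imul c.y d.y))))
    (iadd (iadd (imul a.x b.y) (imul a.y b.x)) (iadd (imul c.x d.y) (imul c.y d.x))))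
  congr 2
  apply Complex.ext <;> simp [val]
  · linear_combination (-(a.y / sc * (b.y / sc) + c.y / sc * (d.y / sc)) : ℝ) * s3
  · ring

lemma rmul_err (k : ℤ) (a : C) : ‖((k / sc : ℝ) : ℂ) * a.val - (rmul k a).val‖ ≤ 2 / sc := by
  refine le_of_eq_of_le ?_ (rnd (imul k a.x) (imul k a.y))
  congr 2
  apply Complex.ext
  · simp only [val, Complex.mul_re, Complex.ofReal_re, Complex.ofReal_im, imul_eq]
    push_cast; ring
  · simp only [val, Complex.mul_im, Complex.ofReal_re, Complex.ofReal_im, imul_eq]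
    push_cast; ring

lemma nrm_ge (a : C) : ‖a.val‖ ≤ a.nrm / sc := by
  have h0 := sc_pos
  have k : a.x.natAbs * a.x.natAbs + 3 * (a.y.natAbs * a.y.natAbs) ≤ a.nrm ^ 2 := by
    rw [← iabs_eq, ← iabs_eq]
    exact newt_ge _ _ (newt_pos _ _)
  have k' : (a.x : ℝ) * a.x + 3 * (a.y * a.y) ≤ (a.nrm : ℝ) ^ 2 := by
    zify at k
    rw [abs_mul_abs_self, abs_mul_abs_self] at k
    exact_mod_cast k
  refine (abs_le_of_sq_le_sq' ?_ (by positivity)).2
  rw [Complex.sq_norm, val, Complex.normSq_mk]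
  have e2 : (a.x : ℝ) / sc * (a.x / sc) + √3 * (a.y / sc) * (√3 * (a.y / sc)) =
      (a.x * a.x + 3 * (a.y * a.y)) / sc ^ 2 := by
    field_simp
    linear_combination (a.y : ℝ) ^ 2 * s3
  rw [e2, div_pow]
  gcongr

end C

end Pool.Agent.Lib.MP_fb520c_co.Chk
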